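import Mathlib

set_option autoImplicit false

namespace Pool.Agent.H561R2.SC

open Finset

variable {β : Type} [DecidableEq β]

lemma card_pi (P : Finset β) (L : ℕ) :
    (Fintype.piFinset (fun _ : Fin (L+1) => P)).card = P.card^(L+1) := by
  rw [Fintype.card_piFinset]; simp

lemma sum_apply (P : Finset β) (L : ℕ) (f : β → ℝ) (i : Fin (L+1)) :
    ∑ g ∈ Fintype.piFinset (fun _ : Fin (L+1) => P), f (g i) = (P.card:ℝ)^L * ∑ b ∈ P, f b := by
  have h := Fintype.sum_piFinset_apply (ι := Fin (L+1)) f P i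
  rw [h, Fintype.card_fin]
  simp

open Classical in
/-- heavy tuples are many -/
lemma heavy_count (P : Finset β) (L : ℕ) (f : β → ℝ) {k ε2 : ℝ} (hk : 1 ≤ k) (hε2 : 0 < ε2)
    (hf1 : ∀ b ∈ P, f b ≤ k)
    (hf : ε2 * k * P.card ≤ ∑ b ∈ P, f b) :
    ε2/2 * (P.card:ℝ)^(L+1) ≤ (((Fintype.piFinset (fun _ : Fin (L+1) => P)).filter
      (fun g => ε2/4 * (((L:ℝ)+1)*k+1) ≤ ∑ a, f (g a))).card : ℝ) := by
  set C := Fintype.piFinset (fun _ : Fin (L+1) => P) with hC
  have h1 : ∑ g ∈ C, ∑ a, f (g a) = ((L:ℝ)+1) * ((P.card:ℝ)^L * ∑ b ∈ P, f b) := by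
    rw [Finset.sum_comm, Finset.sum_congr rfl (fun a _ => sum_apply P L f a)]
    rw [Finset.sum_const, Finset.card_univ, Fintype.card_fin, nsmul_eq_mul]
    push_cast; ring
  have h2 : ((L:ℝ)+1) * ((P.card:ℝ)^L * (ε2 * k * P.card)) ≤ ∑ g ∈ C, ∑ a, f (g a) := by
    rw [h1]
    apply mul_le_mul_of_nonneg_left _ (by positivity)
    apply mul_le_mul_of_nonneg_left hf (by positivity)
  set H := C.filter (fun g => ε2/4 * (((L:ℝ)+1)*k+1) ≤ ∑ a, f (g a)) with hH
  have h3 : ∑ g ∈ C, ∑ a, f (g a) ≤ H.card * (((L:ℝ)+1)*k) + C.card * (ε2/4 * (((L:ℝ)+1)*k+1)) := by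
    rw [← Finset.sum_filter_add_sum_filter_not C (fun g => ε2/4 * (((L:ℝ)+1)*k+1) ≤ ∑ a, f (g a))]
    apply add_le_add
    · have : ∀ g ∈ H, ∑ a, f (g a) ≤ ((L:ℝ)+1)*k := by
        intro g hg
        have hgC : g ∈ C := (Finset.mem_filter.1 hg).1
        rw [hC, Fintype.mem_piFinset] at hgC
        calc ∑ a, f (g a) ≤ ∑ a : Fin (L+1), k := Finset.sum_le_sum (fun a _ => hf1 _ (hgC a))
          _ = _ := by rw [Finset.sum_const, Finset.card_univ, Fintype.card_fin, nsmul_eq_mul]; push_cast; ring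
      calc _ ≤ ∑ g ∈ H, ((L:ℝ)+1)*k := Finset.sum_le_sum this
        _ = _ := by rw [Finset.sum_const, nsmul_eq_mul]
    · calc _ ≤ ∑ g ∈ C.filter (fun g => ¬ ε2/4 * (((L:ℝ)+1)*k+1) ≤ ∑ a, f (g a)),
            (ε2/4 * (((L:ℝ)+1)*k+1)) := by
            apply Finset.sum_le_sum
            intro g hg
            have := (Finset.mem_filter.1 hg).2
            push Not at this
            exact this.le
        _ = ((C.filter (fun g => ¬ ε2/4 * (((L:ℝ)+1)*k+1) ≤ ∑ a, f (g a))).card : ℝ) *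
            (ε2/4 * (((L:ℝ)+1)*k+1)) := by rw [Finset.sum_const, nsmul_eq_mul]
        _ ≤ _ := by
            apply mul_le_mul_of_nonneg_right _ (by positivity)
            exact_mod_cast Finset.card_filter_le _ _
  have hCc : (C.card : ℝ) = (P.card:ℝ)^(L+1) := by rw [hC, card_pi]; push_cast; rfl
  rw [hCc] at h3
  have h4 := h2.trans h3
  have hx : 0 < ((L:ℝ)+1)*k := by positivity
  have h5 : ((L:ℝ)+1)*k+1 ≤ 2 * (((L:ℝ)+1)*k) := by
    have : 1 ≤ ((L:ℝ)+1)*k := by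
      have h6 : (0:ℝ) ≤ (L:ℝ) := by positivity
      nlinarith
    linarith
  have h6 : (P.card:ℝ)^(L+1) * (ε2/4 * (((L:ℝ)+1)*k+1)) ≤
      (P.card:ℝ)^(L+1) * (ε2/4 * (2 * (((L:ℝ)+1)*k))) := by
    apply mul_le_mul_of_nonneg_left _ (by positivity)
    apply mul_le_mul_of_nonneg_left h5 (by positivity)
  have h7 : ((L:ℝ)+1) * ((P.card:ℝ)^L * (ε2 * k * P.card)) = (P.card:ℝ)^(L+1) * ε2 * (((L:ℝ)+1)*k) := by
    rw [pow_succ]; ring
  have h8 : (P.card:ℝ)^(L+1) * (ε2/4 * (2 * (((L:ℝ)+1)*k))) = (P.card:ℝ)^(L+1) * (ε2/2) * (((L:ℝ)+1)*k) := by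
    ring
  have h9 : (ε2/2 * (P.card:ℝ)^(L+1)) * (((L:ℝ)+1)*k) ≤ H.card * (((L:ℝ)+1)*k) := by
    rw [h7] at h4
    rw [h8] at h6
    have h10 := h4.trans (add_le_add_right h6 _)
    nlinarith
  exact le_of_mul_le_mul_right h9 hx

open Classical in
lemma last_count (P Lo : Finset β) (L : ℕ) (i : Fin (L+1)) :
    (((Fintype.piFinset (fun _ : Fin (L+1) => P)).filter (fun g => g i ∈ Lo)).card : ℝ) ≤
      (Lo.card : ℝ) * (P.card:ℝ)^L := by
  have h := sum_apply P L (fun b => if b ∈ Lo then (1:ℝ) else 0) i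
  have h1 : (((Fintype.piFinset (fun _ : Fin (L+1) => P)).filter (fun g => g i ∈ Lo)).card : ℝ) =
      ∑ g ∈ Fintype.piFinset (fun _ : Fin (L+1) => P), (if g i ∈ Lo then (1:ℝ) else 0) := by
    rw [Finset.sum_ite, Finset.sum_const_zero, add_zero, Finset.sum_const, nsmul_eq_mul, mul_one]
  rw [h1, h, mul_comm]
  apply mul_le_mul_of_nonneg_right _ (by positivity)
  rw [Finset.sum_ite, Finset.sum_const_zero, add_zero, Finset.sum_const, nsmul_eq_mul, mul_one]
  have : (P.filter (fun b => b ∈ Lo)).card ≤ Lo.card := by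
    apply Finset.card_le_card
    intro b hb
    exact (Finset.mem_filter.1 hb).2
  exact_mod_cast this

open Classical in
lemma coll_count (P : Finset β) (L : ℕ) (i j : Fin (L+1)) (hij : i ≠ j) :
    ((Fintype.piFinset (fun _ : Fin (L+1) => P)).filter (fun g => g i = g j)).card ≤ P.card^L := by
  have h : (Fintype.piFinset (fun _ : Fin L => P)).card = P.card^L := by
    rw [Fintype.card_piFinset]; simp
  rw [← h]
  apply Finset.card_le_card_of_injOn (fun g => fun a => g (i.succAbove a))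
  · intro g hg
    have hg' := Finset.mem_filter.1 (Finset.mem_coe.1 hg)
    rw [Fintype.mem_piFinset] at hg'
    exact Finset.mem_coe.2 (Fintype.mem_piFinset.2 (fun a => hg'.1 _))
  · intro g hg g' hg' h
    have h1 := (Finset.mem_filter.1 (Finset.mem_coe.1 hg)).2
    have h2 := (Finset.mem_filter.1 (Finset.mem_coe.1 hg')).2
    have h3 : ∀ a, g (i.succAbove a) = g' (i.succAbove a) := fun a => congrFun h a
    funext a
    by_cases ha : a = i
    · obtain ⟨j', hj'⟩ := Fin.exists_succAbove_eq hij.symm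
      rw [ha, h1, h2, ← hj']
      exact h3 j'
    · obtain ⟨a', ha'⟩ := Fin.exists_succAbove_eq ha
      rw [← ha']
      exact h3 a'

open Classical in
lemma noninj_count (P : Finset β) (L : ℕ) :
    (((Fintype.piFinset (fun _ : Fin (L+1) => P)).filter (fun g => ¬ Function.Injective g)).card : ℝ) ≤
      ((L:ℝ)+1)^2 * (P.card:ℝ)^L := by
  have h1 : ((Fintype.piFinset (fun _ : Fin (L+1) => P)).filter (fun g => ¬ Function.Injective g)) ⊆
      ((univ : Finset (Fin (L+1) × Fin (L+1))).filter (fun p => p.1 ≠ p.2)).biUnion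
        (fun p => (Fintype.piFinset (fun _ : Fin (L+1) => P)).filter (fun g => g p.1 = g p.2)) := by
    intro g hg
    rw [Finset.mem_filter] at hg
    obtain ⟨hgC, hg2⟩ := hg
    unfold Function.Injective at hg2
    push Not at hg2
    obtain ⟨a, b, hab, hne⟩ := hg2
    rw [Finset.mem_biUnion]
    exact ⟨(a, b), Finset.mem_filter.2 ⟨Finset.mem_univ _, hne⟩, Finset.mem_filter.2 ⟨hgC, hab⟩⟩
  have h2 := (Finset.card_le_card h1).trans Finset.card_biUnion_le
  have h3 : ∑ p ∈ ((univ : Finset (Fin (L+1) × Fin (L+1))).filter (fun p => p.1 ≠ p.2)),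
      ((Fintype.piFinset (fun _ : Fin (L+1) => P)).filter (fun g => g p.1 = g p.2)).card ≤
      ∑ p ∈ ((univ : Finset (Fin (L+1) × Fin (L+1))).filter (fun p => p.1 ≠ p.2)), P.card^L := by
    apply Finset.sum_le_sum
    intro p hp
    exact coll_count P L p.1 p.2 (Finset.mem_filter.1 hp).2
  have h4 : ((univ : Finset (Fin (L+1) × Fin (L+1))).filter (fun p => p.1 ≠ p.2)).card ≤ (L+1)^2 := by
    refine (Finset.card_filter_le _ _).trans ?_
    rw [Finset.card_univ, Fintype.card_prod, Fintype.card_fin, sq]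
  rw [Finset.sum_const, smul_eq_mul] at h3
  have h5 := (h2.trans h3).trans (Nat.mul_le_mul_right _ h4)
  have h6 : ((((Fintype.piFinset (fun _ : Fin (L+1) => P)).filter
      (fun g => ¬ Function.Injective g)).card : ℕ) : ℝ) ≤ (((L+1)^2 * P.card^L : ℕ) : ℝ) := by
    exact_mod_cast h5
  refine h6.trans (le_of_eq ?_)
  push_cast; ring

open Classical in
/-- the combined count -/
lemma good_tuples (P Lo : Finset β) (L : ℕ) (f : β → ℝ) {k ε2 : ℝ} (hk : 1 ≤ k) (hε2 : 0 < ε2)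
    (hf1 : ∀ b ∈ P, f b ≤ k) (hf : ε2 * k * P.card ≤ ∑ b ∈ P, f b)
    (hLo : (Lo.card : ℝ) ≤ ε2/8 * P.card) (hP : ((L:ℝ)+1)^2 ≤ ε2/8 * P.card) :
    ε2/4 * (P.card:ℝ)^(L+1) ≤ (((Fintype.piFinset (fun _ : Fin (L+1) => P)).filter
      (fun g => Function.Injective g ∧ g (Fin.last L) ∉ Lo ∧
        ε2/4 * (((L:ℝ)+1)*k+1) ≤ ∑ a, f (g a))).card : ℝ) := by
  have h1 := heavy_count P L f hk hε2 hf1 hf
  have h2 := last_count P Lo L (Fin.last L)
  have h3 := noninj_count P L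
  set C := Fintype.piFinset (fun _ : Fin (L+1) => P) with hC
  have h4 : C.filter (fun g => ε2/4 * (((L:ℝ)+1)*k+1) ≤ ∑ a, f (g a)) ⊆
      (C.filter (fun g => Function.Injective g ∧ g (Fin.last L) ∉ Lo ∧
        ε2/4 * (((L:ℝ)+1)*k+1) ≤ ∑ a, f (g a))) ∪
      (C.filter (fun g => g (Fin.last L) ∈ Lo) ∪ C.filter (fun g => ¬ Function.Injective g)) := by
    intro g hg
    rw [Finset.mem_filter] at hg
    rw [Finset.mem_union, Finset.mem_union, Finset.mem_filter, Finset.mem_filter, Finset.mem_filter]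
    tauto
  have h5 := (Finset.card_le_card h4).trans (Finset.card_union_le _ _)
  have h6 := h5.trans (Nat.add_le_add_left (Finset.card_union_le _ _) _)
  have h7 : ((C.filter (fun g => ε2/4 * (((L:ℝ)+1)*k+1) ≤ ∑ a, f (g a))).card : ℝ) ≤
      ((C.filter (fun g => Function.Injective g ∧ g (Fin.last L) ∉ Lo ∧
        ε2/4 * (((L:ℝ)+1)*k+1) ≤ ∑ a, f (g a))).card : ℝ) +
      (((C.filter (fun g => g (Fin.last L) ∈ Lo)).card : ℝ) +
        ((C.filter (fun g => ¬ Function.Injective g)).card : ℝ)) := by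
    exact_mod_cast h6
  have h8 : (Lo.card : ℝ) * (P.card:ℝ)^L ≤ ε2/8 * (P.card:ℝ)^(L+1) := by
    calc _ ≤ (ε2/8 * P.card) * (P.card:ℝ)^L := mul_le_mul_of_nonneg_right hLo (by positivity)
      _ = _ := by rw [pow_succ]; ring
  have h9 : ((L:ℝ)+1)^2 * (P.card:ℝ)^L ≤ ε2/8 * (P.card:ℝ)^(L+1) := by
    calc _ ≤ (ε2/8 * P.card) * (P.card:ℝ)^L := mul_le_mul_of_nonneg_right hP (by positivity)
      _ = _ := by rw [pow_succ]; ring
  linarith

end Pool.Agent.H561R2.SC
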