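import Mathlib

set_option autoImplicit false

namespace Pool.Agent.H561R2.SC

open Finset

variable {U : Type} [DecidableEq U]

open Classical in
/-- sequences (indexed by `ι`) of pairwise disjoint `k`-subsets of `V`. -/
noncomputable def SS (k : ℕ) (ι : Type) [Fintype ι] (V : Finset U) : Finset (ι → Finset U) :=
  (Fintype.piFinset (fun _ : ι => V.powersetCard k)).filter
    (fun A => ∀ a b, a ≠ b → Disjoint (A a) (A b))

lemma mem_SS {k : ℕ} {ι : Type} [Fintype ι] {V : Finset U} {A : ι → Finset U} :
    A ∈ SS k ι V ↔ (∀ a, A a ⊆ V ∧ (A a).card = k) ∧ ∀ a b, a ≠ b → Disjoint (A a) (A b) := by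
  classical
  unfold SS
  rw [Finset.mem_filter, Fintype.mem_piFinset]
  simp only [Finset.mem_powersetCard]

lemma card_cov {k : ℕ} {ι : Type} [Fintype ι] {V : Finset U} {A : ι → Finset U}
    (hA : A ∈ SS k ι V) (P : Finset ι) : (P.biUnion A).card = P.card * k := by
  rw [mem_SS] at hA
  rw [Finset.card_biUnion (fun a _ b _ hab => hA.2 a b hab)]
  rw [Finset.sum_congr rfl (fun a _ => (hA.1 a).2)]
  simp

lemma cov_subset {k : ℕ} {ι : Type} [Fintype ι] {V : Finset U} {A : ι → Finset U}
    (hA : A ∈ SS k ι V) (P : Finset ι) : P.biUnion A ⊆ V := by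
  rw [mem_SS] at hA
  exact Finset.biUnion_subset.2 (fun a _ => (hA.1 a).1)

lemma cons_mem_SS {k L : ℕ} {V f : Finset U} {B : Fin L → Finset U} :
    (Fin.cons f B : Fin (L+1) → Finset U) ∈ SS k (Fin (L+1)) V ↔
      f ∈ V.powersetCard k ∧ B ∈ SS k (Fin L) (V \ f) := by
  rw [mem_SS, mem_SS, Finset.mem_powersetCard]
  constructor
  · rintro ⟨h1, h2⟩
    refine ⟨by simpa using h1 0, fun a => ⟨?_, by simpa using (h1 a.succ).2⟩, ?_⟩
    · have h3 := (h1 a.succ).1
      simp only [Fin.cons_succ] at h3
      have h4 := h2 a.succ 0 (by simp)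
      simp only [Fin.cons_succ, Fin.cons_zero] at h4
      exact Finset.subset_sdiff.2 ⟨h3, h4⟩
    · intro a b hab
      have := h2 a.succ b.succ (by simpa using hab)
      simpa using this
  · rintro ⟨h1, h2, h3⟩
    constructor
    · intro a
      refine Fin.cases ?_ ?_ a
      · simpa using h1
      · intro a
        simp only [Fin.cons_succ]
        exact ⟨(h2 a).1.trans Finset.sdiff_subset, (h2 a).2⟩
    · intro a b
      refine Fin.cases ?_ ?_ a
      · refine Fin.cases ?_ ?_ b
        · intro h; exact absurd rfl h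
        · intro b _
          simp only [Fin.cons_succ, Fin.cons_zero]
          exact (Finset.subset_sdiff.1 (h2 b).1).2.symm
      · intro a
        refine Fin.cases ?_ ?_ b
        · intro _
          simp only [Fin.cons_succ, Fin.cons_zero]
          exact (Finset.subset_sdiff.1 (h2 a).1).2
        · intro b hab
          simp only [Fin.cons_succ]
          exact h3 a b (fun h => hab (by rw [h]))

lemma card_filter_SS_succ (k L : ℕ) (V : Finset U) (P : (Fin (L+1) → Finset U) → Prop)
    [DecidablePred P] :
    ((SS k (Fin (L+1)) V).filter P).card =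
      ∑ f ∈ V.powersetCard k, ((SS k (Fin L) (V \ f)).filter (fun B => P (Fin.cons f B))).card := by
  rw [← Finset.card_sigma]
  symm
  refine Finset.card_bij (fun (p : Σ _ : Finset U, (Fin L → Finset U)) _ =>
    (Fin.cons p.1 p.2 : Fin (L+1) → Finset U)) ?_ ?_ ?_
  · rintro ⟨f, B⟩ h
    simp only [Finset.mem_sigma, Finset.mem_filter] at h
    simp only [Finset.mem_filter]
    exact ⟨cons_mem_SS.2 ⟨h.1, h.2.1⟩, h.2.2⟩
  · rintro ⟨f, B⟩ _ ⟨f', B'⟩ _ h
    simp only at h
    have h1 := Fin.cons_injective2 h
    obtain ⟨h2, h3⟩ := h1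
    rw [h2, h3]
  · intro A hA
    rw [Finset.mem_filter] at hA
    have e : (Fin.cons (A 0) (Fin.tail A) : Fin (L+1) → Finset U) = A := Fin.cons_self_tail A
    refine ⟨⟨A 0, Fin.tail A⟩, ?_, ?_⟩
    · simp only [Finset.mem_sigma, Finset.mem_filter]
      have h1 := hA.1
      rw [← e, cons_mem_SS] at h1
      exact ⟨h1.1, h1.2, by rw [e]; exact hA.2⟩
    · exact e

/-- number of sequences of `T` disjoint `k`-subsets of a `w`-set -/
def NN (k : ℕ) : ℕ → ℕ → ℕ
  | 0, _ => 1
  | T+1, w => w.choose k * NN k T (w - k)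

open Classical in
lemma card_SS_fin (k : ℕ) : ∀ (T : ℕ) (V : Finset U), (SS k (Fin T) V).card = NN k T V.card := by
  intro T
  induction T with
  | zero =>
    intro V
    rw [show NN k 0 V.card = 1 from rfl, Finset.card_eq_one]
    refine ⟨fun a => a.elim0, ?_⟩
    ext A
    rw [mem_SS, Finset.mem_singleton]
    constructor
    · intro _; funext a; exact a.elim0
    · intro _
      exact ⟨fun a => a.elim0, fun a => a.elim0⟩
  | succ T ih =>
    intro V
    have h := card_filter_SS_succ k T V (fun _ => True)
    simp only [Finset.filter_true] at h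
    rw [h]
    rw [Finset.sum_congr rfl (fun f hf => ?_) (g := fun _ => NN k T (V.card - k))]
    · rw [Finset.sum_const, Finset.card_powersetCard]; rfl
    · rw [Finset.mem_powersetCard] at hf
      rw [ih, Finset.card_sdiff_of_subset hf.1, hf.2]

lemma card_SS (k : ℕ) (ι : Type) [Fintype ι] (V : Finset U) :
    (SS k ι V).card = NN k (Fintype.card ι) V.card := by
  rw [← card_SS_fin k (Fintype.card ι) V]
  let e := Fintype.equivFin ι
  refine Finset.card_bij (fun A _ => A ∘ e.symm) ?_ ?_ ?_
  · intro A hA
    rw [mem_SS] at hA ⊢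
    refine ⟨fun a => hA.1 _, fun a b hab => hA.2 _ _ (fun h => hab (e.symm.injective h))⟩
  · intro A _ A' _ h
    funext a
    have := congrFun h (e a)
    simpa using this
  · intro B hB
    refine ⟨B ∘ e, ?_, ?_⟩
    · rw [mem_SS] at hB ⊢
      refine ⟨fun a => hB.1 _, fun a b hab => hB.2 _ _ (fun h => hab (e.injective h))⟩
    · funext a; simp

lemma NN_pos (k : ℕ) : ∀ (T w : ℕ), T * k ≤ w → 0 < NN k T w := by
  intro T
  induction T with
  | zero => intro w _; exact Nat.one_pos
  | succ T ih =>
    intro w hw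
    have h1 : (T+1) * k = T * k + k := by ring
    rw [h1] at hw
    exact Nat.mul_pos (Nat.choose_pos (by omega)) (ih _ (by omega))

lemma NN_add (k : ℕ) : ∀ (a b w : ℕ), NN k (a+b) w = NN k a w * NN k b (w - a * k) := by
  intro a
  induction a with
  | zero => intro b w; simp [NN]
  | succ a ih =>
    intro b w
    have h1 : a + 1 + b = (a + b) + 1 := by ring
    rw [h1]
    show w.choose k * NN k (a+b) (w-k) = w.choose k * NN k a (w-k) * NN k b (w - (a+1)*k)
    rw [ih b (w-k)]
    have h2 : w - k - a * k = w - (a+1)*k := by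
      rw [Nat.sub_sub]; congr 1; ring
    rw [h2, mul_assoc]

lemma NN_fact (k : ℕ) : ∀ (T w : ℕ), NN k T w * (k.factorial)^T = w.descFactorial (T*k) := by
  intro T
  induction T with
  | zero => intro w; simp [NN]
  | succ T ih =>
    intro w
    have h1 : (T+1) * k = T*k + k := by ring
    have h2 := Nat.descFactorial_mul_descFactorial (n := w) (k := k) (m := (T+1)*k) (by rw [h1]; omega)
    rw [← h2, show (T+1)*k - k = T*k by rw [h1]; omega, ← ih (w-k)]
    show w.choose k * NN k T (w-k) * (k.factorial)^(T+1) = _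
    rw [Nat.descFactorial_eq_factorial_mul_choose w k, pow_succ]
    ring

/-- the part of `V` not covered by the blocks outside the range of `c`. -/
noncomputable def rest {κ ι : Type} [Fintype ι] [DecidableEq ι] [Fintype κ] (c : κ → ι) (V : Finset U)
    (A : ι → Finset U) : Finset U :=
  V \ ((univ \ univ.image c).biUnion A)

section resample

variable {k : ℕ} {κ ι : Type} [Fintype ι] [DecidableEq ι] [Fintype κ] {c : κ → ι} {V : Finset U}

lemma rest_congr {A A' : ι → Finset U} (h : ∀ b, b ∉ univ.image c → A' b = A b) :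
    rest c V A' = rest c V A := by
  unfold rest
  congr 1
  apply Finset.biUnion_congr rfl
  intro b hb
  rw [Finset.mem_sdiff] at hb
  exact h b hb.2

lemma extend_off {B : κ → Finset U} {A : ι → Finset U} (b : ι) (hb : b ∉ univ.image c) :
    Function.extend c B A b = A b := by
  apply Function.extend_apply'
  rintro ⟨a, ha⟩
  exact hb (Finset.mem_image.2 ⟨a, Finset.mem_univ _, ha⟩)

lemma comp_mem (hc : Function.Injective c) {A : ι → Finset U} (hA : A ∈ SS k ι V) :
    A ∘ c ∈ SS k κ (rest c V A) := by
  rw [mem_SS] at hA ⊢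
  refine ⟨fun a => ⟨?_, (hA.1 _).2⟩, fun a b hab => hA.2 _ _ (fun h => hab (hc h))⟩
  unfold rest
  rw [Finset.subset_sdiff]
  refine ⟨(hA.1 _).1, ?_⟩
  rw [Finset.disjoint_biUnion_right]
  intro b hb
  rw [Finset.mem_sdiff] at hb
  apply hA.2
  rintro rfl
  exact hb.2 (Finset.mem_image.2 ⟨a, Finset.mem_univ _, rfl⟩)

lemma extend_mem (hc : Function.Injective c) {A : ι → Finset U} (hA : A ∈ SS k ι V)
    {B : κ → Finset U} (hB : B ∈ SS k κ (rest c V A)) : Function.extend c B A ∈ SS k ι V := by
  rw [mem_SS] at hA hB ⊢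
  have key : ∀ b, (∃ a, c a = b ∧ Function.extend c B A b = B a) ∨
      (b ∉ univ.image c ∧ Function.extend c B A b = A b) := by
    intro b
    by_cases hb : b ∈ univ.image c
    · rw [Finset.mem_image] at hb
      obtain ⟨a, _, rfl⟩ := hb
      exact Or.inl ⟨a, rfl, hc.extend_apply _ _ _⟩
    · exact Or.inr ⟨hb, extend_off b hb⟩
  have hdis : ∀ a b, b ∉ univ.image c → Disjoint (B a) (A b) := by
    intro a b hb
    have h1 := (hB.1 a).1
    unfold rest at h1
    rw [Finset.subset_sdiff] at h1
    have h2 := h1.2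
    rw [Finset.disjoint_biUnion_right] at h2
    exact h2 b (Finset.mem_sdiff.2 ⟨Finset.mem_univ _, hb⟩)
  constructor
  · intro b
    rcases key b with ⟨a, _, h⟩ | ⟨_, h⟩
    · rw [h]
      exact ⟨(hB.1 a).1.trans Finset.sdiff_subset, (hB.1 a).2⟩
    · rw [h]; exact hA.1 b
  · intro b b' hbb
    rcases key b with ⟨a, ha, h⟩ | ⟨hb, h⟩
    · rcases key b' with ⟨a', ha', h'⟩ | ⟨hb', h'⟩
      · rw [h, h']
        apply hB.2
        rintro rfl
        exact hbb (ha.symm.trans ha')
      · rw [h, h']; exact hdis a b' hb'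
    · rcases key b' with ⟨a', ha', h'⟩ | ⟨hb', h'⟩
      · rw [h, h']; exact (hdis a' b hb).symm
      · rw [h, h']; exact hA.2 b b' hbb

lemma card_rest (hc : Function.Injective c) {A : ι → Finset U} (hA : A ∈ SS k ι V) :
    (rest c V A).card = V.card - (Fintype.card ι - Fintype.card κ) * k := by
  unfold rest
  rw [Finset.card_sdiff_of_subset (cov_subset hA _), card_cov hA]
  rw [Finset.card_sdiff_of_subset (Finset.subset_univ _), Finset.card_image_of_injective _ hc]
  simp

open Classical in
/-- Resampling the blocks in the range of `c`. -/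
lemma resample (hc : Function.Injective c) (P : (ι → Finset U) → Prop) :
    ∑ A ∈ SS k ι V, ((SS k κ (rest c V A)).filter (fun B => P (Function.extend c B A))).card =
      ((SS k ι V).filter P).card *
        NN k (Fintype.card κ) (V.card - (Fintype.card ι - Fintype.card κ) * k) := by
  have hR : ((SS k ι V).filter P).card *
        NN k (Fintype.card κ) (V.card - (Fintype.card ι - Fintype.card κ) * k) =
      ∑ A ∈ (SS k ι V).filter P, (SS k κ (rest c V A)).card := by
    rw [Finset.sum_congr rfl (fun A hA => ?_)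
      (g := fun _ => NN k (Fintype.card κ) (V.card - (Fintype.card ι - Fintype.card κ) * k))]
    · rw [Finset.sum_const, smul_eq_mul]
    · rw [card_SS, card_rest hc (Finset.mem_filter.1 hA).1]
  rw [hR, ← Finset.card_sigma, ← Finset.card_sigma]
  refine Finset.card_bij (fun (p : Σ _ : ι → Finset U, (κ → Finset U)) _ =>
    (⟨Function.extend c p.2 p.1, p.1 ∘ c⟩ : Σ _ : ι → Finset U, (κ → Finset U))) ?_ ?_ ?_
  · rintro ⟨A, B⟩ h
    simp only [Finset.mem_sigma, Finset.mem_filter] at h ⊢
    refine ⟨⟨extend_mem hc h.1 h.2.1, h.2.2⟩, ?_⟩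
    rw [rest_congr (fun b hb => extend_off b hb)]
    exact comp_mem hc h.1
  · rintro ⟨A, B⟩ h ⟨A', B'⟩ h' heq
    simp only [Sigma.mk.injEq, heq_eq_eq] at heq
    obtain ⟨h1, h2⟩ := heq
    have hB : B = B' := by
      funext a
      have := congrFun h1 (c a)
      rwa [hc.extend_apply, hc.extend_apply] at this
    have hA : A = A' := by
      funext b
      by_cases hb : b ∈ univ.image c
      · rw [Finset.mem_image] at hb
        obtain ⟨a, _, rfl⟩ := hb
        exact congrFun h2 a
      · have := congrFun h1 b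
        rwa [extend_off b hb, extend_off b hb] at this
    rw [hA, hB]
  · rintro ⟨A, B⟩ h
    simp only [Finset.mem_sigma, Finset.mem_filter] at h
    have e1 : Function.extend c (A ∘ c) (Function.extend c B A) = A := by
      funext b
      by_cases hb : b ∈ univ.image c
      · rw [Finset.mem_image] at hb
        obtain ⟨a, _, rfl⟩ := hb
        rw [hc.extend_apply]; rfl
      · rw [extend_off b hb, extend_off b hb]
    have e2 : Function.extend c B A ∘ c = B := by
      funext a; exact hc.extend_apply _ _ _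
    refine ⟨⟨Function.extend c B A, A ∘ c⟩, ?_, ?_⟩
    · simp only [Finset.mem_sigma, Finset.mem_filter]
      refine ⟨extend_mem hc h.1.1 h.2, ?_, ?_⟩
      · rw [rest_congr (fun b hb => extend_off b hb)]
        exact comp_mem hc h.1.1
      · rw [e1]; exact h.1.2
    · simp only [e1, e2]

open Classical in
lemma resample_le (hc : Function.Injective c) (P : (ι → Finset U) → Prop) (bnd : ℝ)
    (hV : Fintype.card ι * k ≤ V.card) (hκ : Fintype.card κ ≤ Fintype.card ι)
    (h : ∀ A ∈ SS k ι V,
      (((SS k κ (rest c V A)).filter (fun B => P (Function.extend c B A))).card : ℝ) ≤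
        bnd * (SS k κ (rest c V A)).card) :
    (((SS k ι V).filter P).card : ℝ) ≤ bnd * (SS k ι V).card := by
  have h1 := resample (k := k) (V := V) hc P
  set N := NN k (Fintype.card κ) (V.card - (Fintype.card ι - Fintype.card κ) * k) with hN
  have hNpos : 0 < N := by
    apply NN_pos
    have : Fintype.card ι * k = Fintype.card κ * k + (Fintype.card ι - Fintype.card κ) * k := by
      rw [← add_mul]; congr 1; omega
    omega
  have h2 : (∑ A ∈ SS k ι V,
      (((SS k κ (rest c V A)).filter (fun B => P (Function.extend c B A))).card : ℝ)) =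
      (((SS k ι V).filter P).card : ℝ) * N := by
    exact_mod_cast h1
  have h3 : (∑ A ∈ SS k ι V,
      (((SS k κ (rest c V A)).filter (fun B => P (Function.extend c B A))).card : ℝ)) ≤
      ∑ A ∈ SS k ι V, bnd * N := by
    apply Finset.sum_le_sum
    intro A hA
    have := h A hA
    rwa [card_SS, card_rest hc hA] at this
  rw [h2, Finset.sum_const, nsmul_eq_mul] at h3
  have hNr : (0:ℝ) < N := by exact_mod_cast hNpos
  have h4 : (((SS k ι V).filter P).card : ℝ) * N ≤ (bnd * (SS k ι V).card) * N := by
    calc _ ≤ ((SS k ι V).card : ℝ) * (bnd * N) := h3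
      _ = _ := by ring
  exact le_of_mul_le_mul_right h4 hNr

end resample

/-- shift of a sequence of predicates -/
def sh (g : ℕ → Finset U → Prop) : ℕ → Finset U → Prop := fun i => g (i+1)

/-- `W` can be partitioned into `k`-sets satisfying `g 0, ..., g L`. -/
def PM (k : ℕ) : (ℕ → Finset U → Prop) → ℕ → Finset U → Prop
  | g, 0, W => g 0 W ∧ W.card = k
  | g, L+1, W => ∃ f, f ⊆ W ∧ f.card = k ∧ g 0 f ∧ PM k (sh g) L (W \ f)

lemma PM_exists {k : ℕ} : ∀ (L : ℕ) (g : ℕ → Finset U → Prop) (W : Finset U), PM k g L W →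
    ∃ B ∈ SS k (Fin (L+1)) W, (∀ a, g a.val (B a)) := by
  intro L
  induction L with
  | zero =>
    rintro g W ⟨h1, h2⟩
    refine ⟨fun _ => W, ?_, ?_⟩
    · rw [mem_SS]
      refine ⟨fun _ => ⟨Finset.Subset.refl _, h2⟩, ?_⟩
      intro a b hab
      exact absurd (by ext; omega) hab
    · intro a
      have ha : a.val = 0 := by omega
      rw [ha]; exact h1
  | succ L ih =>
    rintro g W ⟨f, hf1, hf2, hf3, hf4⟩
    obtain ⟨B, hB1, hB2⟩ := ih _ _ hf4
    refine ⟨Fin.cons f B, ?_, ?_⟩
    · rw [cons_mem_SS]
      exact ⟨Finset.mem_powersetCard.2 ⟨hf1, hf2⟩, hB1⟩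
    · intro a
      refine Fin.cases ?_ ?_ a
      · simpa using hf3
      · intro a
        have := hB2 a
        unfold sh at this
        simpa using this

open Classical in
/-- the elements of `R` that can be missing. -/
noncomputable def II (k : ℕ) (g : ℕ → Finset U → Prop) (L : ℕ) (R : Finset U) : Finset U :=
  R.filter (fun l => PM k g L (R.erase l))

lemma mem_II {k : ℕ} {g : ℕ → Finset U → Prop} {L : ℕ} {R : Finset U} {l : U} :
    l ∈ II k g L R ↔ l ∈ R ∧ PM k g L (R.erase l) := by
  classical
  unfold II; rw [Finset.mem_filter]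

/-- the elements that can be missing after one block satisfying `g` -/
noncomputable def I0 (k : ℕ) (g : Finset U → Prop) (R : Finset U) : Finset U :=
  II k (fun _ => g) 0 R

lemma mem_I0 {k : ℕ} {g : Finset U → Prop} {R : Finset U} {l : U} :
    l ∈ I0 k g R ↔ l ∈ R ∧ g (R.erase l) ∧ (R.erase l).card = k := by
  unfold I0; rw [mem_II]; rfl

lemma II_zero {k : ℕ} {g : ℕ → Finset U → Prop} {R : Finset U} : II k g 0 R = I0 k (g 0) R := by
  ext l; rw [mem_I0, mem_II]; rfl

lemma II_mono {k : ℕ} {g : ℕ → Finset U → Prop} {L : ℕ} {R f : Finset U} (hf : f ⊆ R) (hfk : f.card = k)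
    (hg : g 0 f) : II k (sh g) L (R \ f) ⊆ II k g (L+1) R := by
  intro l hl
  rw [mem_II] at hl ⊢
  rw [Finset.mem_sdiff] at hl
  refine ⟨hl.1.1, f, ?_, hfk, hg, ?_⟩
  · intro x hx
    refine Finset.mem_erase.2 ⟨?_, hf hx⟩
    rintro rfl
    exact hl.1.2 hx
  · have : R.erase l \ f = (R \ f).erase l := by
      ext x; simp only [Finset.mem_sdiff, Finset.mem_erase]; tauto
    rw [this]; exact hl.2

/-- the swap: if `y` can be missing in `R \ f` and `f - x + y` is available then `x` can be missing. -/
lemma II_swap {k : ℕ} {g : ℕ → Finset U → Prop} {L : ℕ} {R f : Finset U} (hf : f ⊆ R) (hfk : f.card = k)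
    {x y : U} (hx : x ∈ f) (hy : y ∈ II k (sh g) L (R \ f)) (hg : g 0 (insert y (f.erase x))) :
    x ∈ II k g (L+1) R := by
  rw [mem_II] at hy ⊢
  rw [Finset.mem_sdiff] at hy
  obtain ⟨⟨hyR, hyf⟩, hy2⟩ := hy
  have hxy : x ≠ y := by rintro rfl; exact hyf hx
  refine ⟨hf hx, insert y (f.erase x), ?_, ?_, hg, ?_⟩
  · intro z hz
    rw [Finset.mem_insert, Finset.mem_erase] at hz
    rw [Finset.mem_erase]
    rcases hz with rfl | ⟨h1, h2⟩
    · exact ⟨hxy.symm, hyR⟩
    · exact ⟨h1, hf h2⟩
  · rw [Finset.card_insert_of_notMem (by simp [hyf]), Finset.card_erase_of_mem hx, hfk]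
    have : 0 < k := by rw [← hfk]; exact Finset.card_pos.2 ⟨x, hx⟩
    omega
  · have : R.erase x \ insert y (f.erase x) = (R \ f).erase y := by
      ext z
      simp only [Finset.mem_sdiff, Finset.mem_erase, Finset.mem_insert]
      constructor
      · rintro ⟨⟨h1, h2⟩, h3⟩
        push Not at h3
        exact ⟨h3.1, h2, h3.2 h1⟩
      · rintro ⟨h1, h2, h3⟩
        refine ⟨⟨?_, h2⟩, ?_⟩
        · rintro rfl; exact h3 hx
        · rintro (h4 | h4)
          · exact h1 h4
          · exact h3 h4.2
    rw [this]; exact hy2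

open Classical in
/-- number of sequences of `L+1` disjoint `k`-subsets of `R` satisfying `g` whose last remaining set
(last block plus what is left) satisfies `G1`. -/
noncomputable def cnt (k : ℕ) (G1 : Finset U → Prop) : (ℕ → Finset U → Prop) → ℕ → Finset U → ℕ
  | g, 0, R => if G1 R then ((R.powersetCard k).filter (g 0)).card else 0
  | g, L+1, R => ∑ f ∈ (R.powersetCard k).filter (g 0), cnt k G1 (sh g) L (R \ f)

open Classical in
lemma card_eq_cnt (k : ℕ) (G1 : Finset U → Prop) : ∀ (L : ℕ) (g : ℕ → Finset U → Prop) (R : Finset U),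
    ((SS k (Fin (L+1)) R).filter (fun B => (∀ a, g a.val (B a)) ∧
      G1 (R \ (univ.biUnion (fun a : Fin L => B a.castSucc))))).card = cnt k G1 g L R := by
  intro L
  induction L with
  | zero =>
    intro g R
    rw [card_filter_SS_succ]
    unfold cnt
    by_cases h : G1 R
    · rw [if_pos h, Finset.card_filter]
      apply Finset.sum_congr rfl
      intro f hf
      by_cases hg : g 0 f
      · rw [if_pos hg]
        have h1 : (SS k (Fin 0) (R \ f)).card = 1 := by rw [card_SS_fin]; rfl
        refine Eq.trans ?_ h1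
        congr 1
        apply Finset.filter_true_of_mem
        intro B _
        refine ⟨?_, ?_⟩
        · intro a
          have ha : a = 0 := by ext; omega
          rw [ha]; simpa using hg
        · simpa using h
      · rw [if_neg hg, Finset.card_eq_zero, Finset.filter_eq_empty_iff]
        intro B _ h2
        exact hg (by simpa using h2.1 0)
    · rw [if_neg h]
      apply Finset.sum_eq_zero
      intro f hf
      rw [Finset.card_eq_zero, Finset.filter_eq_empty_iff]
      intro B _ h2
      exact h (by simpa using h2.2)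
  | succ L ih =>
    intro g R
    rw [card_filter_SS_succ]
    unfold cnt
    rw [Finset.sum_filter]
    apply Finset.sum_congr rfl
    intro f hf
    by_cases hg : g 0 f
    · rw [if_pos hg, ← ih]
      congr 1
      apply Finset.filter_congr
      intro B hB
      have e : R \ (univ.biUnion (fun a : Fin (L+1) =>
          (Fin.cons f B : Fin (L+2) → Finset U) a.castSucc)) =
          (R \ f) \ (univ.biUnion (fun a : Fin L => B a.castSucc)) := by
        ext x
        simp only [Finset.mem_sdiff, Finset.mem_biUnion, Finset.mem_univ, true_and, not_exists]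
        constructor
        · rintro ⟨h1, h2⟩
          refine ⟨⟨h1, by simpa using h2 0⟩, ?_⟩
          intro a
          have := h2 a.succ
          rw [show (a.succ).castSucc = (a.castSucc).succ from rfl, Fin.cons_succ] at this
          exact this
        · rintro ⟨⟨h1, h2⟩, h3⟩
          refine ⟨h1, ?_⟩
          intro a
          refine Fin.cases ?_ ?_ a
          · simpa using h2
          · intro a
            rw [show (a.succ).castSucc = (a.castSucc).succ from rfl, Fin.cons_succ]
            exact h3 a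
      rw [e]
      constructor
      · rintro ⟨h1, h2⟩
        refine ⟨fun a => ?_, h2⟩
        have := h1 a.succ
        unfold sh
        simpa using this
      · rintro ⟨h1, h2⟩
        refine ⟨fun a => ?_, h2⟩
        refine Fin.cases ?_ ?_ a
        · simpa using hg
        · intro a
          have := h1 a
          unfold sh at this
          simpa using this
    · rw [if_neg hg, Finset.card_eq_zero, Finset.filter_eq_empty_iff]
      intro B _ h2
      exact hg (by simpa using h2.1 0)

/-- number of sequences for `L+1` blocks in a set of size `(L+1)k+1` -/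
def tot (k : ℕ) (L : ℕ) : ℕ := NN k (L+1) ((L+1)*k+1)

lemma tot_succ (k L : ℕ) : tot k (L+1) = ((L+2)*k+1).choose k * tot k L := by
  unfold tot
  show ((L+1+1)*k+1).choose k * NN k (L+1) ((L+1+1)*k+1-k) = _
  have : (L+1+1)*k+1-k = (L+1)*k+1 := by
    have : (L+1+1)*k = (L+1)*k + k := by ring
    omega
  rw [this]

lemma cnt_le_tot (k : ℕ) (G1 : Finset U → Prop) (g : ℕ → Finset U → Prop) (L : ℕ) (R : Finset U)
    (hR : R.card = (L+1)*k+1) : cnt k G1 g L R ≤ tot k L := by
  classical
  rw [← card_eq_cnt]
  unfold tot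
  rw [← hR, ← card_SS_fin]
  exact Finset.card_filter_le _ _

/-- if the count is non-zero then many elements can be missing -/
lemma cnt_ne_zero {k : ℕ} {G1 : Finset U → Prop} {M : ℝ} : ∀ (L : ℕ) (g : ℕ → Finset U → Prop)
    (_ : ∀ R, G1 R → M ≤ ((I0 k (g L) R).card : ℝ)) (R : Finset U),
    cnt k G1 g L R ≠ 0 → M ≤ ((II k g L R).card : ℝ) := by
  intro L
  induction L with
  | zero =>
    intro g hG1 R h
    unfold cnt at h
    rw [II_zero]
    by_cases h1 : G1 R
    · exact hG1 R h1
    · rw [if_neg h1] at h; exact absurd rfl h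
  | succ L ih =>
    intro g hG1 R h
    unfold cnt at h
    obtain ⟨f, hf, hne⟩ := Finset.exists_ne_zero_of_sum_ne_zero h
    classical
    rw [Finset.mem_filter, Finset.mem_powersetCard] at hf
    have h1 := ih (sh g) hG1 _ hne
    have h2 := Finset.card_le_card (II_mono (L := L) hf.1.1 hf.1.2 hf.2)
    have h3 : ((II k (sh g) L (R \ f)).card : ℝ) ≤ ((II k g (L+1) R).card : ℝ) := by exact_mod_cast h2
    linarith

end Pool.Agent.H561R2.SC
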