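import Mathlib

set_option autoImplicit false

/-!
Resolution derivations with weakening over an arbitrary set of variables, and regularity.
A literal is a pair (variable, sign); a clause is a finite set of literals.
-/

namespace Pool.Agent.H561R2.SC

/-- A (dag-like) resolution derivation with `s` lines from the clause set `Φ`, weakening allowed.
A line without rule contains a clause of `Φ`; a line with rule `(x, j, k)` contains the resolvent on the
variable `x` of the earlier lines `j` (without the literal `x`) and `k` (without the literal `¬x`). -/
structure Deriv (X : Type) [DecidableEq X] (s : ℕ) (Φ : Set (Finset (X × Bool))) where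
  line : Fin s → Finset (X × Bool)
  rule : Fin s → Option (X × Fin s × Fin s)
  ax : ∀ i, rule i = none → ∃ C ∈ Φ, C ⊆ line i
  res : ∀ i x j k, rule i = some (x, j, k) → j < i ∧ k < i ∧
    (line j).erase (x, true) ∪ (line k).erase (x, false) ⊆ line i

variable {X : Type} [DecidableEq X] {s : ℕ} {Φ : Set (Finset (X × Bool))}

/-- `j` is a premise of line `i`. -/
def Deriv.Child (D : Deriv X s Φ) (i j : Fin s) : Prop :=
  ∃ x k, D.rule i = some (x, j, k) ∨ D.rule i = some (x, k, j)

/-- the variable `x` is resolved on at line `i` or at a line used (directly or not) to derive `i`. -/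
def Deriv.Resolved (D : Deriv X s Φ) (i : Fin s) (x : X) : Prop :=
  ∃ j, Relation.ReflTransGen D.Child i j ∧ ∃ a b, D.rule j = some (x, a, b)

/-- no variable is resolved on twice along a path. -/
def Deriv.Regular (D : Deriv X s Φ) : Prop :=
  ∀ i x j k, D.rule i = some (x, j, k) → ¬ D.Resolved j x ∧ ¬ D.Resolved k x

/-! Encodings of `t members of F cover the universe`. The variable `ν i A` says that the `i`-th chosen set
is `A` (if `ν` does not depend on `i` it says that `A` is chosen). -/

/-- The cover clause of the element `u`: some variable `ν i A` with `A ∈ F` and `u ∈ A` is true. -/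
def coverClause {n t : ℕ} (F : Finset (Finset (Fin n))) (ν : Fin t → Finset (Fin n) → X) (u : Fin n) :
    Finset (X × Bool) :=
  ((Finset.univ : Finset (Fin t)) ×ˢ F.filter (fun A => u ∈ A)).image (fun p => (ν p.1 p.2, true))

/-- The clause `C` is satisfied by the assignment whose true variables are the members of `G`. -/
def SatBy (G : Finset X) (C : Finset (X × Bool)) : Prop := ∃ l ∈ C, (l.1 ∈ G ↔ l.2 = true)

/-- The true variables when the sequence `S` of sets is chosen. -/
def chosen {n t : ℕ} (ν : Fin t → Finset (Fin n) → X) (S : Fin t → Finset (Fin n)) : Finset X :=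
  Finset.univ.image (fun i => ν i (S i))

/-- Each clause of `Φ` is a cover clause or is satisfied whenever the chosen sets are `t` pairwise disjoint
members of `F`. -/
def Admissible {n t : ℕ} (F : Finset (Finset (Fin n))) (ν : Fin t → Finset (Fin n) → X)
    (Φ : Set (Finset (X × Bool))) : Prop :=
  ∀ C ∈ Φ, (∃ u, C = coverClause F ν u) ∨
    ∀ S : Fin t → Finset (Fin n), (∀ i, S i ∈ F) → (∀ i j, i ≠ j → Disjoint (S i) (S j)) →
      SatBy (chosen ν S) C

end Pool.Agent.H561R2.SC
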