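import Mathlib
import Pool.Agent.H561R2.SC.Defs

set_option autoImplicit false

namespace Pool.Agent.H561R2.SC

variable {X : Type} [DecidableEq X] {s : ℕ} {Φ : Set (Finset (X × Bool))}

/-- the next line visited by the assignment (family) `G`. -/
def Deriv.next (D : Deriv X s Φ) (G : Finset X) (i : Fin s) : Fin s :=
  match D.rule i with
  | none => i
  | some (x, j, k) => if x ∈ G then k else j

def Deriv.node (D : Deriv X s Φ) (r : Fin s) (G : Finset X) : ℕ → Fin s
  | 0 => r
  | t+1 => D.next G (D.node r G t)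

def Deriv.rd (D : Deriv X s Φ) (i : Fin s) : Finset X :=
  match D.rule i with
  | none => ∅
  | some (x, _, _) => {x}

def Deriv.seen (D : Deriv X s Φ) (r : Fin s) (G : Finset X) (t : ℕ) : Finset X :=
  (Finset.range t).biUnion (fun u => D.rd (D.node r G u))

lemma Deriv.seen_succ (D : Deriv X s Φ) (r : Fin s) (G : Finset X) (t : ℕ) :
    D.seen r G (t+1) = D.seen r G t ∪ D.rd (D.node r G t) := by
  unfold Deriv.seen
  rw [Finset.range_add_one, Finset.biUnion_insert, Finset.union_comm]

lemma Deriv.seen_mono (D : Deriv X s Φ) (r : Fin s) (G : Finset X) {t u : ℕ} (h : t ≤ u) :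
    D.seen r G t ⊆ D.seen r G u := by
  unfold Deriv.seen
  exact Finset.biUnion_subset_biUnion_of_subset_left _ (Finset.range_mono h)

lemma Deriv.next_none {D : Deriv X s Φ} {G : Finset X} {i : Fin s} (h : D.rule i = none) :
    D.next G i = i := by unfold Deriv.next; rw [h]

lemma Deriv.next_some {D : Deriv X s Φ} {G : Finset X} {i j k : Fin s} {x : X}
    (h : D.rule i = some (x, j, k)) :
    D.next G i = if x ∈ G then k else j := by unfold Deriv.next; rw [h]

lemma Deriv.rd_none {D : Deriv X s Φ} {i : Fin s} (h : D.rule i = none) :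
    D.rd i = ∅ := by unfold Deriv.rd; rw [h]

lemma Deriv.rd_some {D : Deriv X s Φ} {i j k : Fin s} {x : X}
    (h : D.rule i = some (x, j, k)) : D.rd i = {x} := by unfold Deriv.rd; rw [h]

lemma Deriv.mem_rd {D : Deriv X s Φ} {i : Fin s} {x : X} (h : x ∈ D.rd i) :
    ∃ j k, D.rule i = some (x, j, k) := by
  rcases hr : D.rule i with _ | ⟨y, j, k⟩
  · rw [Deriv.rd_none hr] at h; simp at h
  · rw [Deriv.rd_some hr] at h
    rw [Finset.mem_singleton] at h
    subst h
    exact ⟨j, k, rfl⟩

lemma Deriv.next_lt {D : Deriv X s Φ} {G : Finset X} {i : Fin s} (h : D.rule i ≠ none) :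
    D.next G i < i := by
  rcases hr : D.rule i with _ | ⟨y, j, k⟩
  · exact absurd hr h
  · rw [Deriv.next_some hr]
    obtain ⟨h1, h2, -⟩ := D.res i y j k hr
    split
    · exact h2
    · exact h1

lemma Deriv.exists_leaf (D : Deriv X s Φ) (r : Fin s) (G : Finset X) :
    ∃ t, D.rule (D.node r G t) = none := by
  by_contra hcon
  push Not at hcon
  have h : ∀ t, (D.node r G t).val + t ≤ r.val := by
    intro t
    induction t with
    | zero => simp [Deriv.node]
    | succ t ih =>
      have := Deriv.next_lt (G := G) (hcon t)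
      have h2 : (D.node r G (t+1)).val < (D.node r G t).val := this
      omega
  have := h (r.val + 1)
  omega

/-- literal `l` is falsified by `G` -/
def Fals (G : Finset X) (l : X × Bool) : Prop := ¬ (l.1 ∈ G ↔ l.2 = true)

lemma Deriv.fals_node (D : Deriv X s Φ) {r : Fin s} (hr : D.line r = ∅) (G : Finset X) (t : ℕ) :
    ∀ l ∈ D.line (D.node r G t), Fals G l := by
  induction t with
  | zero => intro l hl; simp [Deriv.node, hr] at hl
  | succ t ih =>
    intro l hl
    show Fals G l
    have hn : D.node r G (t+1) = D.next G (D.node r G t) := rfl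
    rw [hn] at hl
    rcases hru : D.rule (D.node r G t) with _ | ⟨y, j, k⟩
    · rw [Deriv.next_none hru] at hl
      exact ih l hl
    · rw [Deriv.next_some hru] at hl
      obtain ⟨h1, h2, h3⟩ := D.res _ y j k hru
      by_cases hy : y ∈ G
      · rw [if_pos hy] at hl
        by_cases hly : l = (y, false)
        · subst hly; unfold Fals; simp [hy]
        · exact ih l (h3 (Finset.mem_union_right _ (Finset.mem_erase.2 ⟨hly, hl⟩)))
      · rw [if_neg hy] at hl
        by_cases hly : l = (y, true)
        · subst hly; unfold Fals; simp [hy]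
        · exact ih l (h3 (Finset.mem_union_left _ (Finset.mem_erase.2 ⟨hly, hl⟩)))

/-- following `G` from line `i` for `t` steps -/
lemma Deriv.node_add (D : Deriv X s Φ) (r : Fin s) (G : Finset X) (t u : ℕ) :
    D.node r G (t + u) = D.node (D.node r G t) G u := by
  induction u with
  | zero => rfl
  | succ u ih =>
    show D.next G (D.node r G (t+u)) = D.next G (D.node (D.node r G t) G u)
    rw [ih]

lemma Deriv.child_next {D : Deriv X s Φ} {G : Finset X} {i : Fin s} :
    Relation.ReflTransGen D.Child i (D.next G i) := by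
  rcases hr : D.rule i with _ | ⟨y, j, k⟩
  · rw [Deriv.next_none hr]
  · rw [Deriv.next_some hr]
    split
    · exact Relation.ReflTransGen.single ⟨y, j, Or.inr hr⟩
    · exact Relation.ReflTransGen.single ⟨y, k, Or.inl hr⟩

lemma Deriv.desc_node (D : Deriv X s Φ) (r : Fin s) (G : Finset X) (t : ℕ) :
    Relation.ReflTransGen D.Child r (D.node r G t) := by
  induction t with
  | zero => exact Relation.ReflTransGen.refl
  | succ t ih => exact ih.trans Deriv.child_next

/-- variables read before time `t` are not resolved below the node reached at time `t`. -/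
lemma Deriv.not_resolved_of_seen {D : Deriv X s Φ} (hreg : D.Regular) {r : Fin s} {G : Finset X} {t : ℕ}
    {x : X} (hx : x ∈ D.seen r G t) : ¬ D.Resolved (D.node r G t) x := by
  unfold Deriv.seen at hx
  rw [Finset.mem_biUnion] at hx
  obtain ⟨u, hu, hxu⟩ := hx
  rw [Finset.mem_range] at hu
  obtain ⟨j, k, hjk⟩ := Deriv.mem_rd hxu
  have h1 := hreg _ _ _ _ hjk
  have h2 : ¬ D.Resolved (D.node r G (u+1)) x := by
    show ¬ D.Resolved (D.next G (D.node r G u)) x
    rw [Deriv.next_some hjk]
    split
    · exact h1.2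
    · exact h1.1
  intro h3
  apply h2
  obtain ⟨w, hw1, hw2⟩ := h3
  refine ⟨w, ?_, hw2⟩
  obtain ⟨d, rfl⟩ := Nat.exists_eq_add_of_lt hu
  have : u + d + 1 = (u+1) + d := by ring
  rw [this, Deriv.node_add] at hw1
  exact (D.desc_node _ G d).trans hw1

/-- a literal of a line reached from `i` is in line `i` or its variable is resolved at `i` or below. -/
lemma Deriv.lit_desc (D : Deriv X s Φ) (G : Finset X) (t : ℕ) : ∀ (i : Fin s) (l : X × Bool),
    l ∈ D.line (D.node i G t) → l ∈ D.line i ∨ D.Resolved i l.1 := by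
  induction t with
  | zero => intro i l hl; exact Or.inl hl
  | succ t ih =>
    intro i l hl
    have e : D.node i G (t+1) = D.node (D.next G i) G t := by
      have := D.node_add i G 1 t
      rw [show t + 1 = 1 + t by ring, this]
      rfl
    rw [e] at hl
    rcases ih _ _ hl with h | h
    · rcases hr : D.rule i with _ | ⟨y, j, k⟩
      · rw [Deriv.next_none hr] at h; exact Or.inl h
      · obtain ⟨h1, h2, h3⟩ := D.res _ y j k hr
        by_cases hy : l.1 = y
        · right
          exact ⟨i, Relation.ReflTransGen.refl, j, k, by rw [hy]; exact hr⟩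
        · left
          rw [Deriv.next_some hr] at h
          by_cases hyG : y ∈ G
          · rw [if_pos hyG] at h
            apply h3
            apply Finset.mem_union_right
            refine Finset.mem_erase.2 ⟨?_, h⟩
            intro hh; apply hy; rw [hh]
          · rw [if_neg hyG] at h
            apply h3
            apply Finset.mem_union_left
            refine Finset.mem_erase.2 ⟨?_, h⟩
            intro hh; apply hy; rw [hh]
    · right
      obtain ⟨w, hw1, hw2⟩ := h
      exact ⟨w, Deriv.child_next.trans hw1, hw2⟩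

/-- The stopping rule: `m` members of `G ∩ Kk` have been read, or a leaf is reached. -/
def Deriv.Stop (D : Deriv X s Φ) (r : Fin s) (Kk : Finset X) (m : ℕ) (G : Finset X) (t : ℕ) : Prop :=
  m ≤ ((D.seen r G t) ∩ G ∩ Kk).card ∨ D.rule (D.node r G t) = none

lemma Deriv.exists_stop (D : Deriv X s Φ) (r : Fin s) (Kk : Finset X) (m : ℕ) (G : Finset X) :
    ∃ t, D.Stop r Kk m G t := by
  obtain ⟨t, ht⟩ := D.exists_leaf r G
  exact ⟨t, Or.inr ht⟩

open Classical in
noncomputable def Deriv.theta (D : Deriv X s Φ) (r : Fin s) (Kk : Finset X) (m : ℕ) (G : Finset X) : ℕ :=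
  Nat.find (D.exists_stop r Kk m G)

open Classical in
lemma Deriv.theta_stop (D : Deriv X s Φ) (r : Fin s) (Kk : Finset X) (m : ℕ) (G : Finset X) :
    D.Stop r Kk m G (D.theta r Kk m G) := Nat.find_spec (D.exists_stop r Kk m G)

open Classical in
lemma Deriv.not_stop (D : Deriv X s Φ) (r : Fin s) (Kk : Finset X) (m : ℕ) (G : Finset X) {t : ℕ}
    (h : t < D.theta r Kk m G) : ¬ D.Stop r Kk m G t := Nat.find_min (D.exists_stop r Kk m G) h

/-- read set until stopping -/
noncomputable def Deriv.RS (D : Deriv X s Φ) (r : Fin s) (Kk : Finset X) (m : ℕ) (G : Finset X) : Finset X :=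
  D.seen r G (D.theta r Kk m G)

/-- stopping node -/
noncomputable def Deriv.vs (D : Deriv X s Φ) (r : Fin s) (Kk : Finset X) (m : ℕ) (G : Finset X) : Fin s :=
  D.node r G (D.theta r Kk m G)

lemma Deriv.node_agree (D : Deriv X s Φ) (r : Fin s) {G G' : Finset X} {t : ℕ}
    (h : ∀ x ∈ D.seen r G t, (x ∈ G ↔ x ∈ G')) : ∀ u ≤ t, D.node r G' u = D.node r G u := by
  intro u
  induction u with
  | zero => intro _; rfl
  | succ u ih =>
    intro hu
    have h1 := ih (by omega)
    show D.next G' (D.node r G' u) = D.next G (D.node r G u)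
    rw [h1]
    rcases hr : D.rule (D.node r G u) with _ | ⟨y, j, k⟩
    · rw [Deriv.next_none hr, Deriv.next_none hr]
    · rw [Deriv.next_some hr, Deriv.next_some hr]
      have hy : y ∈ D.seen r G t := by
        unfold Deriv.seen
        rw [Finset.mem_biUnion]
        exact ⟨u, Finset.mem_range.2 (by omega), by rw [Deriv.rd_some hr]; simp⟩
      have := h y hy
      by_cases hyG : y ∈ G
      · rw [if_pos hyG, if_pos (this.1 hyG)]
      · rw [if_neg hyG, if_neg (fun hh => hyG (this.2 hh))]

lemma Deriv.seen_agree (D : Deriv X s Φ) (r : Fin s) {G G' : Finset X} {t : ℕ}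
    (h : ∀ x ∈ D.seen r G t, (x ∈ G ↔ x ∈ G')) : ∀ u ≤ t, D.seen r G' u = D.seen r G u := by
  intro u hu
  unfold Deriv.seen
  apply Finset.biUnion_congr rfl
  intro w hw
  rw [Finset.mem_range] at hw
  rw [D.node_agree r h w (by omega)]

lemma Deriv.stop_agree (D : Deriv X s Φ) (r : Fin s) (Kk : Finset X) (m : ℕ) {G G' : Finset X} {t : ℕ}
    (h : ∀ x ∈ D.seen r G t, (x ∈ G ↔ x ∈ G')) : ∀ u ≤ t, (D.Stop r Kk m G' u ↔ D.Stop r Kk m G u) := by
  intro u hu
  unfold Deriv.Stop
  rw [D.node_agree r h u hu, D.seen_agree r h u hu]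
  have : D.seen r G u ∩ G' = D.seen r G u ∩ G := by
    ext x
    simp only [Finset.mem_inter]
    constructor
    · rintro ⟨h1, h2⟩; exact ⟨h1, (h x (D.seen_mono r G hu h1)).2 h2⟩
    · rintro ⟨h1, h2⟩; exact ⟨h1, (h x (D.seen_mono r G hu h1)).1 h2⟩
  rw [this]

lemma Deriv.theta_agree (D : Deriv X s Φ) (r : Fin s) (Kk : Finset X) (m : ℕ) {G G' : Finset X}
    (h : ∀ x ∈ D.RS r Kk m G, (x ∈ G ↔ x ∈ G')) : D.theta r Kk m G' = D.theta r Kk m G := by
  have h1 := D.stop_agree r Kk m h
  classical
  unfold Deriv.theta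
  rw [Nat.find_eq_iff]
  refine ⟨?_, ?_⟩
  · exact (h1 _ le_rfl).2 (D.theta_stop r Kk m G)
  · intro u hu hs
    exact D.not_stop r Kk m G hu ((h1 u (le_of_lt hu)).1 hs)

lemma Deriv.RS_agree (D : Deriv X s Φ) (r : Fin s) (Kk : Finset X) (m : ℕ) {G G' : Finset X}
    (h : ∀ x ∈ D.RS r Kk m G, (x ∈ G ↔ x ∈ G')) : D.RS r Kk m G' = D.RS r Kk m G := by
  unfold Deriv.RS
  rw [D.theta_agree r Kk m h]
  exact D.seen_agree r h _ le_rfl

lemma Deriv.vs_agree (D : Deriv X s Φ) (r : Fin s) (Kk : Finset X) (m : ℕ) {G G' : Finset X}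
    (h : ∀ x ∈ D.RS r Kk m G, (x ∈ G ↔ x ∈ G')) : D.vs r Kk m G' = D.vs r Kk m G := by
  unfold Deriv.vs
  rw [D.theta_agree r Kk m h]
  exact D.node_agree r h _ le_rfl

lemma Deriv.card_rd_le (D : Deriv X s Φ) (i : Fin s) : (D.rd i).card ≤ 1 := by
  rcases hr : D.rule i with _ | ⟨y, j, k⟩
  · rw [Deriv.rd_none hr]; simp
  · rw [Deriv.rd_some hr]; simp

/-- at most `m` members of `G ∩ Kk` are read. -/
lemma Deriv.pos_le (D : Deriv X s Φ) (r : Fin s) (Kk : Finset X) (m : ℕ) (G : Finset X) :
    (D.RS r Kk m G ∩ G ∩ Kk).card ≤ m := by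
  unfold Deriv.RS
  rcases hθ : D.theta r Kk m G with _ | t
  · simp [Deriv.seen]
  · have h1 : ¬ D.Stop r Kk m G t := D.not_stop r Kk m G (by omega)
    unfold Deriv.Stop at h1
    push Not at h1
    rw [D.seen_succ]
    have h2 : ((D.seen r G t ∪ D.rd (D.node r G t)) ∩ G ∩ Kk) ⊆
        (D.seen r G t ∩ G ∩ Kk) ∪ D.rd (D.node r G t) := by
      intro x hx
      simp only [Finset.mem_inter, Finset.mem_union] at hx ⊢
      tauto
    have h3 := Finset.card_le_card h2
    have h4 := Finset.card_union_le (D.seen r G t ∩ G ∩ Kk) (D.rd (D.node r G t))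
    have h5 := D.card_rd_le (D.node r G t)
    omega

/-- if the stopping node is not a leaf then `m` members have been read. -/
lemma Deriv.pos_eq (D : Deriv X s Φ) (r : Fin s) (Kk : Finset X) (m : ℕ) (G : Finset X)
    (h : D.rule (D.vs r Kk m G) ≠ none) : (D.RS r Kk m G ∩ G ∩ Kk).card = m := by
  apply le_antisymm (D.pos_le r Kk m G)
  rcases D.theta_stop r Kk m G with h1 | h1
  · exact h1
  · exact absurd h1 h

/-- Key use of regularity. `G'` passes through the stopping node of `G` (at any time) and ends in a leaf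
containing the literal `(x, true)`. Then `x` is not in `G` or not read by `G` before stopping. -/
lemma Deriv.leaf_lit {D : Deriv X s Φ} (hreg : D.Regular) {r : Fin s} (hr : D.line r = ∅) (Kk : Finset X)
    (m : ℕ) (G G' : Finset X) (t u : ℕ) (hv : D.node r G' t = D.vs r Kk m G) (x : X)
    (hx : (x, true) ∈ D.line (D.node r G' (t + u))) (hxG : x ∈ G) : x ∉ D.RS r Kk m G := by
  intro hxs
  have h1 : ¬ D.Resolved (D.vs r Kk m G) x := Deriv.not_resolved_of_seen hreg hxs
  rw [Deriv.node_add, hv] at hx
  rcases D.lit_desc G' u _ _ hx with h | h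
  · have := D.fals_node hr G _ _ h
    unfold Fals at this
    simp [hxG] at this
  · exact h1 h

end Pool.Agent.H561R2.SC
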