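import Mathlib
import Pool.Agent.H561R2.SC.Path
import Pool.Agent.H561R2.SC.Local

set_option autoImplicit false

namespace Pool.Agent.H561R2.SC

open Finset

/-- Context: the instance, an encoding and a regular refutation. `ν b f` is the variable saying that the
`b`-th block is `f` (for some encodings it does not depend on `b`). -/
structure Ctx (U X : Type) [DecidableEq U] [DecidableEq X] where
  k : ℕ
  T : ℕ
  m : ℕ
  V : Finset U
  ν : Fin T → Finset U → X
  E0 : Finset X
  s : ℕ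
  Φ : Set (Finset (X × Bool))
  D : Deriv X s Φ
  r : Fin s
  hk : 1 ≤ k
  hmT : m ≤ T
  hV : V.card = T*k+1
  hν : ∀ b b' f f', f ∈ V.powersetCard k → f' ∈ V.powersetCard k → ν b f = ν b' f' → f = f'
  hE0 : ∀ b f, f ∈ V.powersetCard k → ν b f ∉ E0
  hreg : D.Regular
  hr : D.line r = ∅
  hΦ : ∀ C ∈ Φ, (∃ u, (∀ b f, f ∈ V.powersetCard k → u ∈ f → (ν b f, true) ∈ C) ∧
      (u ∉ V → ∃ e ∈ E0, (e, true) ∈ C)) ∨
    (∀ A ∈ SS k (Fin T) V, ∃ l ∈ C, ¬ Fals (E0 ∪ univ.image (fun b => ν b (A b))) l)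

namespace Ctx

variable {U X : Type} [DecidableEq U] [DecidableEq X] (c : Ctx U X)

/-- the set of true variables given by a sequence -/
def G (A : Fin c.T → Finset U) : Finset X := c.E0 ∪ univ.image (fun b => c.ν b (A b))

noncomputable def SQ : Finset (Fin c.T → Finset U) := SS c.k (Fin c.T) c.V

/-- the variables of blocks -/
def pos : Finset X := ((univ : Finset (Fin c.T)) ×ˢ c.V.powersetCard c.k).image (fun p => c.ν p.1 p.2)

noncomputable def RS (G : Finset X) : Finset X :=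
  c.D.RS c.r c.pos c.m G

noncomputable def vs (G : Finset X) : Fin c.s :=
  c.D.vs c.r c.pos c.m G

lemma block_mem {A : Fin c.T → Finset U} (hA : A ∈ c.SQ) (b : Fin c.T) :
    A b ∈ c.V.powersetCard c.k := by
  have := (mem_SS.1 hA).1 b
  exact Finset.mem_powersetCard.2 this

lemma mem_pos {b : Fin c.T} {f : Finset U} (hf : f ∈ c.V.powersetCard c.k) : c.ν b f ∈ c.pos := by
  unfold pos
  rw [Finset.mem_image]
  exact ⟨(b, f), Finset.mem_product.2 ⟨Finset.mem_univ _, hf⟩, rfl⟩

lemma mem_G (A : Fin c.T → Finset U) (b : Fin c.T) : c.ν b (A b) ∈ c.G A := by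
  unfold G
  exact Finset.mem_union_right _ (Finset.mem_image.2 ⟨b, Finset.mem_univ _, rfl⟩)

lemma block_inj {A : Fin c.T → Finset U} (hA : A ∈ c.SQ) :
    Function.Injective (fun b => c.ν b (A b)) := by
  intro a b hab
  have hab' := c.hν a b _ _ (c.block_mem hA a) (c.block_mem hA b) hab
  by_contra hne
  have h1 := (mem_SS.1 hA).2 a b hne
  rw [hab'] at h1
  have h2 := ((mem_SS.1 hA).1 b).2
  have h3 : A b = ∅ := by simpa using h1
  rw [h3] at h2
  have := c.hk
  simp at h2
  omega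

/-- uncovered elements -/
def miss (A : Fin c.T → Finset U) : Finset U := c.V \ univ.biUnion A

lemma card_miss {A : Fin c.T → Finset U} (hA : A ∈ c.SQ) : (c.miss A).card = 1 := by
  unfold miss
  rw [Finset.card_sdiff_of_subset (cov_subset hA _), card_cov hA, c.hV]
  simp

/-- a leaf reached by a near-cover is the clause of the missing element -/
lemma leaf_elem {A : Fin c.T → Finset U} (hA : A ∈ c.SQ) {t : ℕ}
    (ht : c.D.rule (c.D.node c.r (c.G A) t) = none) :
    ∃ u ∈ c.miss A, ∀ b f, f ∈ c.V.powersetCard c.k → u ∈ f →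
      (c.ν b f, true) ∈ c.D.line (c.D.node c.r (c.G A) t) := by
  obtain ⟨C, hC, hCl⟩ := c.D.ax _ ht
  have hf := c.D.fals_node c.hr (c.G A) t
  rcases c.hΦ C hC with ⟨u, hu1, hu2⟩ | h
  · refine ⟨u, ?_, fun b f hf huf => hCl (hu1 b f hf huf)⟩
    have hneg : ∀ x, (x, true) ∈ C → x ∉ c.G A := by
      intro x hx hG
      have := hf _ (hCl hx)
      unfold Fals at this
      simp [hG] at this
    have huV : u ∈ c.V := by
      by_contra hu
      obtain ⟨e, he, hue⟩ := hu2 hu
      exact hneg e hue (Finset.mem_union_left _ he)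
    unfold miss
    rw [Finset.mem_sdiff]
    refine ⟨huV, ?_⟩
    rw [Finset.mem_biUnion]
    rintro ⟨b, _, hb⟩
    exact hneg _ (hu1 b (A b) (c.block_mem hA b) hb) (c.mem_G A b)
  · obtain ⟨l, hl, hnf⟩ := h A hA
    exact absurd (hf l (hCl hl)) hnf

open Classical in
/-- the elements missing in some near-cover stopping at `v` -/
noncomputable def Iv (v : Fin c.s) : Finset U :=
  c.V.filter (fun i => ∃ A ∈ c.SQ, c.vs (c.G A) = v ∧ i ∈ c.miss A)

lemma mem_Iv {v : Fin c.s} {i : U} : i ∈ c.Iv v ↔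
    i ∈ c.V ∧ ∃ A ∈ c.SQ, c.vs (c.G A) = v ∧ i ∈ c.miss A := by
  classical
  unfold Iv; rw [Finset.mem_filter]

/-- Key lemma: the blocks read before stopping at `v` avoid `Iv v`. -/
lemma disj {A : Fin c.T → Finset U} (hA : A ∈ c.SQ) {b : Fin c.T} (hb : c.ν b (A b) ∈ c.RS (c.G A))
    {i : U} (hi : i ∈ c.Iv (c.vs (c.G A))) : i ∉ A b := by
  intro hib
  rw [mem_Iv] at hi
  obtain ⟨hiV, A', hA', hv, hi'⟩ := hi
  obtain ⟨u, hu⟩ := c.D.exists_leaf (c.vs (c.G A')) (c.G A')
  have hnode : c.D.node c.r (c.G A')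
      (c.D.theta c.r c.pos c.m (c.G A')) = c.vs (c.G A') := rfl
  have h1 : c.D.rule (c.D.node c.r (c.G A')
      (c.D.theta c.r c.pos c.m (c.G A') + u)) = none := by
    rw [Deriv.node_add, hnode]; exact hu
  obtain ⟨w, hw, hwl⟩ := c.leaf_elem hA' h1
  have hwi : w = i := by
    have := Finset.card_eq_one.1 (c.card_miss hA')
    obtain ⟨z, hz⟩ := this
    rw [hz, Finset.mem_singleton] at hw hi'
    rw [hw, hi']
  subst hwi
  have h3 := Deriv.leaf_lit c.hreg c.hr c.pos c.m (c.G A) (c.G A')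
    _ u (hnode.trans hv) (c.ν b (A b)) (hwl b (A b) (c.block_mem hA b) hib) (c.mem_G A b)
  exact h3 hb

/-- if the stopping node is a leaf then only one element can be missing -/
lemma early {A : Fin c.T → Finset U} (hA : A ∈ c.SQ)
    (h : c.D.rule (c.vs (c.G A)) = none) : c.Iv (c.vs (c.G A)) ⊆ c.miss A := by
  intro i hi
  rw [mem_Iv] at hi
  obtain ⟨hiV, A', hA', hv, hi'⟩ := hi
  have h1 : c.D.rule (c.D.node c.r (c.G A')
      (c.D.theta c.r c.pos c.m (c.G A'))) = none := by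
    have : c.D.node c.r (c.G A')
      (c.D.theta c.r c.pos c.m (c.G A')) = c.vs (c.G A') := rfl
    rw [this, hv]; exact h
  obtain ⟨w, hw, hwl⟩ := c.leaf_elem hA' h1
  have hwi : w = i := by
    have := Finset.card_eq_one.1 (c.card_miss hA')
    obtain ⟨z, hz⟩ := this
    rw [hz, Finset.mem_singleton] at hw hi'
    rw [hw, hi']
  subst hwi
  have hv' : c.D.node c.r (c.G A')
      (c.D.theta c.r c.pos c.m (c.G A')) =
      c.D.node c.r (c.G A) (c.D.theta c.r c.pos c.m (c.G A)) := hv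
  rw [hv'] at hwl
  have hf := c.D.fals_node c.hr (c.G A) (c.D.theta c.r c.pos c.m (c.G A))
  unfold miss
  rw [Finset.mem_sdiff]
  refine ⟨hiV, ?_⟩
  rw [Finset.mem_biUnion]
  rintro ⟨b, _, hb⟩
  have := hf _ (hwl b (A b) (c.block_mem hA b) hb)
  unfold Fals at this
  simp [c.mem_G A b] at this

open Classical in
/-- blocks read before stopping -/
noncomputable def rd (A : Fin c.T → Finset U) : Finset (Fin c.T) :=
  univ.filter (fun b => c.ν b (A b) ∈ c.RS (c.G A))

lemma rd_image {A : Fin c.T → Finset U} (hA : A ∈ c.SQ) :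
    c.RS (c.G A) ∩ c.G A ∩ c.pos = (c.rd A).image (fun b => c.ν b (A b)) := by
  classical
  ext x
  unfold rd
  rw [Finset.mem_inter, Finset.mem_inter, Finset.mem_image]
  constructor
  · rintro ⟨⟨h1, h2⟩, h3⟩
    unfold G at h2
    rw [Finset.mem_union, Finset.mem_image] at h2
    rcases h2 with h2 | ⟨b, _, rfl⟩
    · exfalso
      unfold pos at h3
      rw [Finset.mem_image] at h3
      obtain ⟨⟨b, f⟩, hbf, rfl⟩ := h3
      rw [Finset.mem_product] at hbf
      exact c.hE0 b f hbf.2 h2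
    · exact ⟨b, Finset.mem_filter.2 ⟨Finset.mem_univ _, h1⟩, rfl⟩
  · rintro ⟨b, hb, rfl⟩
    rw [Finset.mem_filter] at hb
    exact ⟨⟨hb.2, c.mem_G A b⟩, c.mem_pos (c.block_mem hA b)⟩

lemma card_rd_le {A : Fin c.T → Finset U} (hA : A ∈ c.SQ) : (c.rd A).card ≤ c.m := by
  have h1 := c.D.pos_le c.r c.pos c.m (c.G A)
  have h2 := c.rd_image hA
  unfold RS at h2
  rw [h2, Finset.card_image_of_injective _ (c.block_inj hA)] at h1
  exact h1

lemma card_rd_eq {A : Fin c.T → Finset U} (hA : A ∈ c.SQ)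
    (h : c.D.rule (c.vs (c.G A)) ≠ none) : (c.rd A).card = c.m := by
  have h1 := c.D.pos_eq c.r c.pos c.m (c.G A) h
  have h2 := c.rd_image hA
  unfold RS at h2
  rw [h2, Finset.card_image_of_injective _ (c.block_inj hA)] at h1
  exact h1

end Ctx

end Pool.Agent.H561R2.SC
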