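import Mathlib

set_option autoImplicit false

namespace Pool.Agent.H561R2.SC

open Finset

variable {U : Type} [DecidableEq U]

lemma card_mem1 (R : Finset U) {k : ℕ} (hk : 1 ≤ k) {x : U} (hx : x ∈ R) :
    ((R.powersetCard k).filter (fun f => x ∈ f)).card = (R.card - 1).choose (k - 1) := by
  have h := Finset.card_filter_powersetCard_subset {x} R k (by simpa using hx) (by simpa using hk)
  simpa using h

lemma card_mem2 (R : Finset U) {k : ℕ} (hk : 2 ≤ k) {x y : U} (hx : x ∈ R) (hy : y ∈ R) (hxy : x ≠ y) :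
    ((R.powersetCard k).filter (fun f => x ∈ f ∧ y ∈ f)).card = (R.card - 2).choose (k - 2) := by
  have h := Finset.card_filter_powersetCard_subset {x, y} R k
    (by intro z hz; simp only [Finset.mem_insert, Finset.mem_singleton] at hz; rcases hz with rfl | rfl <;> assumption)
    (by rw [Finset.card_pair hxy]; exact hk)
  rw [Finset.card_pair hxy] at h
  rw [← h]
  congr 1
  apply Finset.filter_congr
  intro f _
  simp only [Finset.insert_subset_iff, Finset.singleton_subset_iff]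

/-- number of `f` with `x ∈ f`, `y ∉ f` -/
lemma card_mem_notMem (R : Finset U) {k : ℕ} (hk : 1 ≤ k) {x y : U} (hx : x ∈ R) (hy : y ∈ R) (hxy : x ≠ y) :
    ((R.powersetCard k).filter (fun f => x ∈ f ∧ y ∉ f)).card = (R.card - 2).choose (k - 1) := by
  have h1 := card_mem1 (R.erase y) hk (x := x) (Finset.mem_erase.2 ⟨hxy, hx⟩)
  rw [Finset.card_erase_of_mem hy] at h1
  rw [show R.card - 2 = R.card - 1 - 1 by omega, ← h1]
  congr 1
  ext f
  simp only [Finset.mem_filter, Finset.mem_powersetCard]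
  constructor
  · rintro ⟨⟨h2, h3⟩, h4, h5⟩
    refine ⟨⟨?_, h3⟩, h4⟩
    intro z hz
    exact Finset.mem_erase.2 ⟨by rintro rfl; exact h5 hz, h2 hz⟩
  · rintro ⟨⟨h2, h3⟩, h4⟩
    refine ⟨⟨h2.trans (Finset.erase_subset _ _), h3⟩, h4, ?_⟩
    intro h5
    exact (Finset.mem_erase.1 (h2 h5)).1 rfl

lemma inter_card_eq (W f : Finset U) : ((W ∩ f).card : ℝ) = ∑ x ∈ W, (if x ∈ f then (1:ℝ) else 0) := by
  rw [← Finset.filter_mem_eq_inter, Finset.card_filter]
  push_cast
  rfl

lemma sum_inter (R W : Finset U) {k : ℕ} (hk : 1 ≤ k) (hW : W ⊆ R) :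
    ∑ f ∈ R.powersetCard k, ((W ∩ f).card : ℝ) = W.card * ((R.card - 1).choose (k-1) : ℝ) := by
  simp_rw [inter_card_eq]
  rw [Finset.sum_comm]
  rw [Finset.sum_congr rfl (fun x hx => ?_) (g := fun _ => ((R.card - 1).choose (k-1) : ℝ))]
  · rw [Finset.sum_const, nsmul_eq_mul]
  · rw [Finset.sum_ite, Finset.sum_const_zero, add_zero, Finset.sum_const, nsmul_eq_mul, mul_one,
      card_mem1 R hk (hW hx)]

lemma sum_inter_sq (R W : Finset U) {k : ℕ} (hk : 2 ≤ k) (hW : W ⊆ R) :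
    ∑ f ∈ R.powersetCard k, ((W ∩ f).card : ℝ)^2 = W.card * ((R.card - 1).choose (k-1) : ℝ) +
      W.card * ((W.card : ℝ) - 1) * ((R.card - 2).choose (k-2) : ℝ) := by
  have h1 : ∀ f : Finset U, ((W ∩ f).card : ℝ)^2 =
      ∑ x ∈ W, ∑ y ∈ W, (if x ∈ f ∧ y ∈ f then (1:ℝ) else 0) := by
    intro f
    rw [sq, inter_card_eq, Finset.sum_mul_sum]
    apply Finset.sum_congr rfl
    intro x _
    apply Finset.sum_congr rfl
    intro y _
    by_cases hx : x ∈ f <;> by_cases hy : y ∈ f <;> simp [hx, hy]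
  simp_rw [h1]
  rw [Finset.sum_comm]
  have h2 : ∀ x ∈ W, ∑ f ∈ R.powersetCard k, ∑ y ∈ W, (if x ∈ f ∧ y ∈ f then (1:ℝ) else 0) =
      ((R.card - 1).choose (k-1) : ℝ) + ((W.card : ℝ) - 1) * ((R.card - 2).choose (k-2) : ℝ) := by
    intro x hx
    rw [Finset.sum_comm, ← Finset.add_sum_erase W _ hx]
    congr 1
    · rw [Finset.sum_ite, Finset.sum_const_zero, add_zero, Finset.sum_const, nsmul_eq_mul, mul_one]
      rw [← card_mem1 R (by omega : 1 ≤ k) (hW hx)]
      simp
    · rw [Finset.sum_congr rfl (fun y hy => ?_) (g := fun _ => ((R.card - 2).choose (k-2) : ℝ))]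
      · rw [Finset.sum_const, nsmul_eq_mul, Finset.card_erase_of_mem hx]
        congr 1
        have : 1 ≤ W.card := Finset.card_pos.2 ⟨x, hx⟩
        push_cast [this]
        ring
      · rw [Finset.mem_erase] at hy
        rw [Finset.sum_ite, Finset.sum_const_zero, add_zero, Finset.sum_const, nsmul_eq_mul, mul_one,
          card_mem2 R hk (hW hx) (hW hy.2) (fun h => hy.1 h.symm)]
  rw [Finset.sum_congr rfl h2, Finset.sum_const, nsmul_eq_mul]
  ring

lemma choose_id1 {N k : ℕ} (hk : 1 ≤ k) (hN : 1 ≤ N) :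
    ((N - 1).choose (k-1) : ℝ) * N = (N.choose k : ℝ) * k := by
  obtain ⟨n, rfl⟩ : ∃ n, N = n + 1 := ⟨N - 1, by omega⟩
  obtain ⟨j, rfl⟩ : ∃ j, k = j + 1 := ⟨k - 1, by omega⟩
  have := Nat.add_one_mul_choose_eq n j
  simp only [Nat.add_sub_cancel]
  have h2 : (((n+1) * n.choose j : ℕ) : ℝ) = (((n+1).choose (j+1) * (j+1) : ℕ) : ℝ) := by exact_mod_cast this
  push_cast at h2 ⊢
  linarith

lemma real_aux (w k N : ℝ) (hw : 0 ≤ w) (hk : 2 ≤ k) (hN : 2 ≤ N) (hwN : w ≤ N) :
    (w * (w - 1)) * (k * (k-1)) * N^2 ≤ (w * k)^2 * (N * (N-1)) := by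
  have h7 : (w-1) * N ≤ w * (N-1) := by nlinarith
  have h8 : 0 ≤ (k-1) * N := mul_nonneg (by linarith) (by linarith)
  have h9 : 0 ≤ w * (N-1) := mul_nonneg hw (by linarith)
  have h10 : (k-1) * N ≤ k * N := by nlinarith
  have h11 : ((w-1) * N) * ((k-1) * N) ≤ (w * (N-1)) * (k * N) :=
    (mul_le_mul_of_nonneg_right h7 h8).trans (mul_le_mul_of_nonneg_left h10 h9)
  have h12 : 0 ≤ w * k := mul_nonneg hw (by linarith)
  calc (w * (w - 1)) * (k * (k-1)) * N^2 = (w * k) * (((w-1) * N) * ((k-1) * N)) := by ring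
    _ ≤ (w * k) * ((w * (N-1)) * (k * N)) := mul_le_mul_of_nonneg_left h11 h12
    _ = _ := by ring

lemma real_aux2 (w k N c b μ : ℝ) (hw : 0 ≤ w) (hk : 2 ≤ k) (hN : 2 ≤ N) (hwN : w ≤ N) (hc : 0 ≤ c)
    (h3 : b * (N * (N-1)) = c * (k * (k-1))) (hμ : μ = k * w / N) :
    w * (w - 1) * b ≤ c * μ^2 := by
  have h1 := real_aux w k N hw hk hN hwN
  have hNN : 0 < N * (N-1) := mul_pos (by linarith) (by linarith)
  have hN2 : 0 < N^2 := by positivity
  have h4 : w * (w-1) * b * (N^2 * (N * (N-1))) ≤ c * μ^2 * (N^2 * (N * (N-1))) := by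
    have e1 : w * (w-1) * b * (N^2 * (N * (N-1))) = c * ((w * (w - 1)) * (k * (k-1)) * N^2) := by
      calc w * (w-1) * b * (N^2 * (N * (N-1))) = w * (w-1) * N^2 * (b * (N * (N-1))) := by ring
        _ = _ := by rw [h3]; ring
    have e2 : c * μ^2 * (N^2 * (N * (N-1))) = c * ((w * k)^2 * (N * (N-1))) := by
      have : μ * N = k * w := by rw [hμ]; field_simp
      calc c * μ^2 * (N^2 * (N * (N-1))) = c * (μ * N)^2 * (N * (N-1)) := by ring
        _ = _ := by rw [this]; ring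
    rw [e1, e2]
    exact mul_le_mul_of_nonneg_left h1 hc
  exact le_of_mul_le_mul_right h4 (mul_pos hN2 hNN)

/-- the second moment bound -/
lemma variance_le (R W : Finset U) {k : ℕ} (hk : 2 ≤ k) (hW : W ⊆ R) (hkR : k ≤ R.card) :
    ∑ f ∈ R.powersetCard k, (((W ∩ f).card : ℝ) - (k : ℝ) * W.card / R.card)^2 ≤
      (R.card.choose k : ℝ) * ((k : ℝ) * W.card / R.card) := by
  set N := R.card with hN
  set w := W.card with hw
  have hwN : w ≤ N := Finset.card_le_card hW
  have hN2 : 2 ≤ N := by omega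
  have hNr : (2:ℝ) ≤ N := by exact_mod_cast hN2
  have hN0 : (0:ℝ) < N := by linarith
  set μ := (k : ℝ) * w / N with hμ
  have e1 := sum_inter R W (by omega : 1 ≤ k) hW
  have e2 := sum_inter_sq R W hk hW
  have i1 := choose_id1 (N := N) (k := k) (by omega) (by omega)
  have i2 := choose_id1 (N := N-1) (k := k-1) (by omega) (by omega)
  have s1 : N - 1 - 1 = N - 2 := by omega
  have s2 : k - 1 - 1 = k - 2 := by omega
  rw [s1, s2] at i2
  have c1 : ((N - 1 : ℕ) : ℝ) = (N:ℝ) - 1 := by push_cast [show 1 ≤ N by omega]; ring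
  have c2 : ((k - 1 : ℕ) : ℝ) = (k:ℝ) - 1 := by push_cast [show 1 ≤ k by omega]; ring
  rw [c1, c2] at i2
  set c := (N.choose k : ℝ) with hc
  set a := ((N-1).choose (k-1) : ℝ) with ha
  set b := ((N-2).choose (k-2) : ℝ) with hb
  have hc0 : 0 ≤ c := by positivity
  have hb0 : 0 ≤ b := by positivity
  have ha0 : 0 ≤ a := by positivity
  have f1 : (w:ℝ) * a = c * μ := by
    have h1 : (w:ℝ) * a * N = c * μ * N := by
      have h2 : μ * N = k * w := by rw [hμ]; field_simp
      calc (w:ℝ) * a * N = w * (a * N) := by ring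
        _ = w * (c * k) := by rw [i1]
        _ = c * (μ * N) := by rw [h2]; ring
        _ = _ := by ring
    exact mul_right_cancel₀ hN0.ne' h1
  have f2 : (w:ℝ) * ((w:ℝ) - 1) * b ≤ c * μ^2 := by
    have hw0 : (0:ℝ) ≤ w := by positivity
    have hk0 : (2:ℝ) ≤ k := by exact_mod_cast hk
    have hwNr : (w:ℝ) ≤ N := by exact_mod_cast hwN
    refine real_aux2 w k N c b μ hw0 hk0 hNr hwNr hc0 ?_ hμ
    calc b * ((N:ℝ) * ((N:ℝ)-1)) = (b * ((N:ℝ)-1)) * N := by ring
      _ = (a * N) * (k - 1) := by rw [i2]; ring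
      _ = _ := by rw [i1]; ring
  have hcard : ((R.powersetCard k).card : ℝ) = c := by rw [Finset.card_powersetCard]
  have expand : ∑ f ∈ R.powersetCard k, (((W ∩ f).card : ℝ) - μ)^2 =
      (∑ f ∈ R.powersetCard k, ((W ∩ f).card : ℝ)^2) - 2 * μ * (∑ f ∈ R.powersetCard k, ((W ∩ f).card : ℝ))
        + c * μ^2 := by
    rw [← hcard, Finset.mul_sum, ← Finset.sum_sub_distrib, ← nsmul_eq_mul, ← Finset.sum_const,
      ← Finset.sum_add_distrib]
    apply Finset.sum_congr rfl
    intro f _; ring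
  rw [expand, e1, e2, f1]
  nlinarith

open Classical in
/-- Chebyshev for the intersection with a random `k`-subset. -/
lemma cheb (R W : Finset U) {k : ℕ} (hk : 2 ≤ k) (hW : W ⊆ R) (hkR : k ≤ R.card) {η : ℝ} (hη : 0 < η)
    (hWpos : 0 < W.card) :
    (((R.powersetCard k).filter (fun f => η * ((k : ℝ) * W.card / R.card) <
      |((W ∩ f).card : ℝ) - (k : ℝ) * W.card / R.card|)).card : ℝ) ≤
      (R.card.choose k : ℝ) / (η^2 * ((k : ℝ) * W.card / R.card)) := by
  set μ := (k : ℝ) * W.card / R.card with hμ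
  have hR : 0 < R.card := by omega
  have hμ0 : 0 < μ := by
    rw [hμ]; have : (0:ℝ) < W.card := by exact_mod_cast hWpos
    have h2 : (0:ℝ) < R.card := by exact_mod_cast hR
    have h3 : (0:ℝ) < k := by exact_mod_cast (by omega : 0 < k)
    positivity
  have h1 := variance_le R W hk hW hkR
  rw [← hμ] at h1
  set B := (R.powersetCard k).filter (fun f => η * μ < |((W ∩ f).card : ℝ) - μ|) with hB
  have h2 : (B.card : ℝ) * (η * μ)^2 ≤ ∑ f ∈ R.powersetCard k, (((W ∩ f).card : ℝ) - μ)^2 := by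
    calc (B.card : ℝ) * (η * μ)^2 = ∑ f ∈ B, (η * μ)^2 := by rw [Finset.sum_const, nsmul_eq_mul]
      _ ≤ ∑ f ∈ B, (((W ∩ f).card : ℝ) - μ)^2 := by
          apply Finset.sum_le_sum
          intro f hf
          rw [hB, Finset.mem_filter] at hf
          rw [← sq_abs (((W ∩ f).card : ℝ) - μ)]
          apply pow_le_pow_left₀ (by positivity) hf.2.le
      _ ≤ _ := by
          apply Finset.sum_le_sum_of_subset_of_nonneg (Finset.filter_subset _ _)
          intros; positivity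
  rw [le_div_iff₀ (by positivity)]
  have h3 : (B.card : ℝ) * (η^2 * μ) * μ ≤ (R.card.choose k : ℝ) * μ := by
    calc _ = (B.card : ℝ) * (η * μ)^2 := by ring
      _ ≤ _ := h2.trans h1
  exact le_of_mul_le_mul_right h3 hμ0

end Pool.Agent.H561R2.SC
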