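import Mathlib
import Pool.Agent.H561R2.SC.Local
import Pool.Agent.H561R2.SC.Cheb

set_option autoImplicit false

namespace Pool.Agent.H561R2.SC

open Finset

variable {U : Type} [DecidableEq U]

/-- total number of swaps -/
lemma total_swaps (R X Y : Finset U) {k : ℕ} (hk : 1 ≤ k) (hX : X ⊆ R) (hY : Y ⊆ R) (hXY : Disjoint X Y) :
    ∑ f ∈ R.powersetCard k, (X ∩ f).card * (Y \ f).card = X.card * Y.card * (R.card - 2).choose (k-1) := by
  have h1 : ∀ f : Finset U, (X ∩ f).card * (Y \ f).card =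
      ∑ x ∈ X, ∑ y ∈ Y, (if x ∈ f ∧ y ∉ f then 1 else 0) := by
    intro f
    have a1 : (X ∩ f).card = ∑ x ∈ X, (if x ∈ f then 1 else 0) := by
      rw [← Finset.filter_mem_eq_inter, Finset.card_filter]
    have a2 : (Y \ f).card = ∑ y ∈ Y, (if y ∉ f then 1 else 0) := by
      rw [← Finset.card_filter]; congr 1; ext y; simp [Finset.mem_sdiff]
    rw [a1, a2, Finset.sum_mul_sum]
    apply Finset.sum_congr rfl
    intro x _
    apply Finset.sum_congr rfl
    intro y _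
    by_cases hx : x ∈ f <;> by_cases hy : y ∈ f <;> simp [hx, hy]
  simp_rw [h1]
  rw [Finset.sum_comm]
  rw [Finset.sum_congr rfl (fun x hx => ?_) (g := fun _ => Y.card * (R.card - 2).choose (k-1))]
  · rw [Finset.sum_const, smul_eq_mul, mul_assoc]
  · rw [Finset.sum_comm]
    rw [Finset.sum_congr rfl (fun y hy => ?_) (g := fun _ => (R.card - 2).choose (k-1))]
    · rw [Finset.sum_const, smul_eq_mul]
    · rw [← Finset.card_filter]
      apply card_mem_notMem R hk (hX hx) (hY hy)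
      rintro rfl
      exact Finset.disjoint_left.1 hXY hx hy

open Classical in
lemma swap_count (R X Y : Finset U) {k : ℕ} (hk : 1 ≤ k) (hX : X ⊆ R) (hY : Y ⊆ R) (hXY : Disjoint X Y)
    (S : Finset (Finset U)) (hS : S ⊆ R.powersetCard k) :
    (∑ f ∈ S, (X ∩ f).card * (Y \ f).card) + (∑ g ∈ S, (X \ g).card * (Y ∩ g).card) ≤
      X.card * Y.card * (R.card - 2).choose (k-1) +
      ∑ f ∈ S, (((X ∩ f) ×ˢ (Y \ f)).filter (fun p => insert p.2 (f.erase p.1) ∈ S)).card := by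
  rw [← total_swaps R X Y hk hX hY hXY]
  set P : Finset (Σ _ : Finset U, U × U) := (R.powersetCard k).sigma (fun f => (X ∩ f) ×ˢ (Y \ f)) with hP
  set P1 : Finset (Σ _ : Finset U, U × U) := S.sigma (fun f => (X ∩ f) ×ˢ (Y \ f)) with hP1
  set P2 : Finset (Σ _ : Finset U, U × U) := S.sigma (fun g => (X \ g) ×ˢ (Y ∩ g)) with hP2
  set P3 : Finset (Σ _ : Finset U, U × U) := S.sigma
    (fun f => ((X ∩ f) ×ˢ (Y \ f)).filter (fun p => insert p.2 (f.erase p.1) ∈ S)) with hP3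
  have c1 : (∑ f ∈ S, (X ∩ f).card * (Y \ f).card) = P1.card := by
    rw [hP1, Finset.card_sigma]; apply Finset.sum_congr rfl; intro f _; rw [Finset.card_product]
  have c2 : (∑ g ∈ S, (X \ g).card * (Y ∩ g).card) = P2.card := by
    rw [hP2, Finset.card_sigma]; apply Finset.sum_congr rfl; intro f _; rw [Finset.card_product]
  have c0 : (∑ f ∈ R.powersetCard k, (X ∩ f).card * (Y \ f).card) = P.card := by
    rw [hP, Finset.card_sigma]; apply Finset.sum_congr rfl; intro f _; rw [Finset.card_product]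
  have c3 : (∑ f ∈ S, (((X ∩ f) ×ˢ (Y \ f)).filter (fun p => insert p.2 (f.erase p.1) ∈ S)).card) = P3.card := by
    rw [hP3, Finset.card_sigma]
  rw [c1, c2, c0, c3]
  let φ : (Σ _ : Finset U, U × U) → (Σ _ : Finset U, U × U) :=
    fun p => ⟨insert p.2.1 (p.1.erase p.2.2), p.2⟩
  have hinj : Set.InjOn φ P2 := by
    rintro ⟨g, x, y⟩ h ⟨g', x', y'⟩ h' heq
    simp only [φ, Sigma.mk.injEq, heq_eq_eq, Prod.mk.injEq] at heq
    obtain ⟨h1, rfl, rfl⟩ := heq
    rw [Finset.mem_coe, hP2, Finset.mem_sigma, Finset.mem_product, Finset.mem_sdiff, Finset.mem_inter] at h h'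
    simp only at h h' h1
    have e : ∀ (G : Finset U), x ∉ G → y ∈ G → (insert x (G.erase y)).erase x = G.erase y := by
      intro G hx _
      rw [Finset.erase_insert]
      intro hh; exact hx (Finset.mem_of_mem_erase hh)
    have e2 : g.erase y = g'.erase y := by
      rw [← e g h.2.1.2 h.2.2.2, ← e g' h'.2.1.2 h'.2.2.2, h1]
    have e3 : g = g' := by
      rw [← Finset.insert_erase h.2.2.2, ← Finset.insert_erase h'.2.2.2, e2]
    rw [e3]
  have hsub : P2.image φ ⊆ P := by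
    intro p hp
    rw [Finset.mem_image] at hp
    obtain ⟨⟨g, x, y⟩, h, rfl⟩ := hp
    rw [hP2, Finset.mem_sigma, Finset.mem_product, Finset.mem_sdiff, Finset.mem_inter] at h
    simp only at h
    obtain ⟨hg, ⟨hxX, hxg⟩, hyY, hyg⟩ := h
    have hgR := Finset.mem_powersetCard.1 (hS hg)
    rw [hP, Finset.mem_sigma, Finset.mem_product, Finset.mem_sdiff, Finset.mem_inter]
    simp only [φ]
    refine ⟨?_, ⟨hxX, Finset.mem_insert_self _ _⟩, hyY, ?_⟩
    · rw [Finset.mem_powersetCard]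
      constructor
      · intro z hz
        rw [Finset.mem_insert] at hz
        rcases hz with rfl | hz
        · exact hX hxX
        · exact hgR.1 (Finset.mem_of_mem_erase hz)
      · rw [Finset.card_insert_of_notMem (fun hh => hxg (Finset.mem_of_mem_erase hh)),
          Finset.card_erase_of_mem hyg, hgR.2]
        omega
    · rw [Finset.mem_insert]
      rintro (rfl | hh)
      · exact Finset.disjoint_left.1 hXY hxX hyY
      · exact (Finset.mem_erase.1 hh).1 rfl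
  have hsub1 : P1 ⊆ P := by
    rw [hP1, hP]
    exact Finset.sigma_mono hS (fun _ => Finset.Subset.refl _)
  have hint : P1 ∩ P2.image φ ⊆ P3 := by
    intro p hp
    rw [Finset.mem_inter, Finset.mem_image] at hp
    obtain ⟨hp1, ⟨g, x, y⟩, h, rfl⟩ := hp
    rw [hP1, Finset.mem_sigma] at hp1
    rw [hP2, Finset.mem_sigma, Finset.mem_product, Finset.mem_sdiff, Finset.mem_inter] at h
    simp only at h
    obtain ⟨hg, ⟨hxX, hxg⟩, hyY, hyg⟩ := h
    rw [hP3, Finset.mem_sigma]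
    simp only [φ] at hp1 ⊢
    refine ⟨hp1.1, Finset.mem_filter.2 ⟨hp1.2, ?_⟩⟩
    have : insert y ((insert x (g.erase y)).erase x) = g := by
      rw [Finset.erase_insert (fun hh => hxg (Finset.mem_of_mem_erase hh)), Finset.insert_erase hyg]
    simp only
    rw [this]
    exact hg
  have h1 := Finset.card_union_add_card_inter P1 (P2.image φ)
  rw [Finset.card_image_of_injOn hinj] at h1
  have h2 : (P1 ∪ P2.image φ).card ≤ P.card := Finset.card_le_card (Finset.union_subset hsub1 hsub)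
  have h3 : (P1 ∩ P2.image φ).card ≤ P3.card := Finset.card_le_card hint
  omega

lemma real_swap {η τ κ S c x y r : ℝ} (hη0 : 0 ≤ η) (hητ : η ≤ τ/8) (hτ0 : 0 < τ) (hτ : τ ≤ 1/10)
    (hκ0 : 0 < κ) (hκ : κ ≤ 1/2) (hS : 0 ≤ S) (hc : 0 ≤ c) (hx : 0 < x) (hy : 0 < y)
    (hr2 : r ≤ 1 + τ/8)
    (h : S * ((1-η) * (κ*x)) * (y - (1+η)*(κ*y)) + S * ((x - (1+η)*(κ*x)) * ((1-η)*(κ*y))) ≤
      c * (κ * (1-κ) * r) * (x*y) + S * ((1+η)*(κ*x)*(τ*y))) :
    S ≤ (1/2 + 3*τ) * c := by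
  have hκxy : 0 < κ * x * y := by positivity
  have h1 : (κ*x*y) * (2 * S * (1-η) * (1 - (1+η)*κ)) ≤
      (κ*x*y) * (c * (1-κ) * r + S * (1+η) * τ) := by nlinarith
  have h2 : 2 * S * (1-η) * (1 - (1+η)*κ) ≤ c * (1-κ) * r + S * (1+η) * τ :=
    le_of_mul_le_mul_left h1 hκxy
  have h3 : (1-κ) * (1-η) ≤ 1 - (1+η)*κ := by nlinarith
  have hη1 : η ≤ 1/80 := by linarith
  have hSη : 0 ≤ 2 * S * (1-η) := by
    have : 0 ≤ 1 - η := by linarith
    positivity
  have h4 : 2 * S * (1-η) * ((1-κ) * (1-η)) ≤ c * (1-κ) * r + S * (1+η) * τ :=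
    (mul_le_mul_of_nonneg_left h3 hSη).trans h2
  have h5 : S * (1+η) * τ ≤ S * (1+η) * τ * (2 * (1-κ)) := by
    have h51 : 0 ≤ S * (1+η) * τ := by positivity
    nlinarith
  have h1κ : 0 < 1 - κ := by linarith
  have h6 : (1-κ) * (S * (2*(1-η)^2 - 2*(1+η)*τ)) ≤ (1-κ) * (c * r) := by nlinarith
  have h7 : S * (2*(1-η)^2 - 2*(1+η)*τ) ≤ c * r := le_of_mul_le_mul_left h6 h1κ
  have hb : 2 - 2.54*τ ≤ 2*(1-η)^2 - 2*(1+η)*τ := by nlinarith
  have h8 : S * (2 - 2.54*τ) ≤ c * (1 + τ/8) :=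
    (mul_le_mul_of_nonneg_left hb hS).trans (h7.trans (mul_le_mul_of_nonneg_left hr2 hc))
  have h9 : (1:ℝ) + τ/8 ≤ (1/2 + 3*τ) * (2 - 2.54*τ) := by nlinarith
  have h10 : 0 < 2 - 2.54*τ := by linarith
  have h11 : S * (2 - 2.54*τ) ≤ ((1/2 + 3*τ) * c) * (2 - 2.54*τ) := by
    calc S * (2 - 2.54*τ) ≤ c * (1 + τ/8) := h8
      _ ≤ c * ((1/2 + 3*τ) * (2 - 2.54*τ)) := mul_le_mul_of_nonneg_left h9 hc
      _ = _ := by ring
  exact le_of_mul_le_mul_right h11 h10

lemma choose_id2 {N k : ℕ} (hk : 1 ≤ k) (hN : k + 1 ≤ N) :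
    ((N - 2).choose (k-1) : ℝ) * (N * (N-1)) = (N.choose k : ℝ) * (k * (N - k)) := by
  have h1 := choose_id1 (N := N) (k := k) hk (by omega)
  have h2 := Nat.choose_mul_succ_eq (N-2) (k-1)
  have e1 : N - 2 + 1 = N - 1 := by omega
  have e2 : N - 2 + 1 - (k-1) = N - k := by omega
  rw [e1] at h2
  have e3 : N - 1 - (k-1) = N - k := by omega
  rw [e3] at h2
  have h3 : ((N-2).choose (k-1) : ℝ) * ((N-1 : ℕ) : ℝ) = ((N-1).choose (k-1) : ℝ) * ((N-k : ℕ) : ℝ) := by
    exact_mod_cast h2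
  have c1 : ((N - 1 : ℕ) : ℝ) = (N:ℝ) - 1 := by push_cast [show 1 ≤ N by omega]; ring
  have c2 : ((N - k : ℕ) : ℝ) = (N:ℝ) - k := by push_cast [show k ≤ N by omega]; ring
  rw [c1, c2] at h3
  calc ((N - 2).choose (k-1) : ℝ) * (N * (N-1)) = (((N - 2).choose (k-1) : ℝ) * (N-1)) * N := by ring
    _ = (((N-1).choose (k-1) : ℝ) * N) * (N - k) := by rw [h3]; ring
    _ = _ := by rw [h1]; ring

lemma total_real {N k : ℕ} (hk : 1 ≤ k) (hN : k + 1 ≤ N) (x y : ℝ) :
    x * y * ((N - 2).choose (k-1) : ℝ) =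
      (N.choose k : ℝ) * (((k:ℝ)/N) * (1-(k:ℝ)/N) * ((N:ℝ)/(N-1))) * (x * y) := by
  have h1 := choose_id2 (N := N) (k := k) hk hN
  have hNpos : (0:ℝ) < N := by
    have : 0 < N := by omega
    exact_mod_cast this
  have hN1' : (0:ℝ) < N - 1 := by
    have : (1:ℝ) < N := by
      have : 1 < N := by omega
      exact_mod_cast this
    linarith
  have h2 : ((N - 2).choose (k-1) : ℝ) = (N.choose k : ℝ) * (k * (N - k)) / (N * (N-1)) := by
    rw [eq_div_iff (by positivity)]; exact h1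
  rw [h2]
  field_simp

set_option maxHeartbeats 2000000 in
/-- The family of typical stable available sets has density at most `1/2 + 3τ`. -/
lemma stable_bound (k L : ℕ) (g : ℕ → Finset U → Prop) (R X : Finset U) (hk : 1 ≤ k)
    (hR : R.card = (L+2)*k+1) (hX : X ⊆ R) (hXI : Disjoint X (II k g (L+1) R))
    (hX0 : 0 < X.card) (hY0 : 0 < (II k g (L+1) R).card)
    {η τ : ℝ} (hη0 : 0 ≤ η) (hητ : η ≤ τ/8) (hτ0 : 0 < τ) (hτ : τ ≤ 1/10)
    (hN : 8/τ ≤ (R.card : ℝ) - 1)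
    (S : Finset (Finset U)) (hS : S ⊆ R.powersetCard k) (hSg : ∀ f ∈ S, g 0 f)
    (hS1 : ∀ f ∈ S, |((X ∩ f).card : ℝ) - (k : ℝ) * X.card / R.card| ≤ η * ((k : ℝ) * X.card / R.card))
    (hS2 : ∀ f ∈ S, |(((II k g (L+1) R) ∩ f).card : ℝ) - (k : ℝ) * (II k g (L+1) R).card / R.card| ≤
      η * ((k : ℝ) * (II k g (L+1) R).card / R.card))
    (hS3 : ∀ f ∈ S, ((((II k g (L+1) R) \ f) \ II k (sh g) L (R \ f)).card : ℝ) ≤ τ * (II k g (L+1) R).card) :
    (S.card : ℝ) ≤ (1/2 + 3*τ) * (R.card.choose k : ℝ) := by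
  classical
  set Y := II k g (L+1) R with hYdef
  have hYR : Y ⊆ R := by intro l hl; rw [hYdef, mem_II] at hl; exact hl.1
  have hsc := swap_count R X Y hk hX hYR hXI S hS
  set N := R.card with hNdef
  have hkN : (2:ℝ) * k ≤ N := by
    have : 2 * k ≤ N := by rw [hR]; nlinarith
    exact_mod_cast this
  have hN1 : k + 1 ≤ N := by rw [hR]; nlinarith
  have hNpos : (0:ℝ) < N := by
    have : 0 < N := by omega
    exact_mod_cast this
  have hkpos : (0:ℝ) < k := by exact_mod_cast hk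
  have hX0r : (0:ℝ) < X.card := by exact_mod_cast hX0
  have hY0r : (0:ℝ) < Y.card := by exact_mod_cast hY0
  set κ : ℝ := (k:ℝ) / N with hκ
  have eX : (k : ℝ) * X.card / N = κ * X.card := by rw [hκ]; ring
  have eY : (k : ℝ) * Y.card / N = κ * Y.card := by rw [hκ]; ring
  rw [eX] at hS1
  rw [eY] at hS2
  have hκ0 : 0 < κ := by positivity
  have hκ2 : κ ≤ 1/2 := by
    rw [hκ, div_le_div_iff₀ hNpos (by norm_num)]; linarith
  have hη1 : η ≤ 1/80 := by linarith
  -- real version of the sums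
  have b1 : (S.card : ℝ) * ((1-η) * (κ * X.card)) * (Y.card - (1+η)*(κ * Y.card)) ≤
      ∑ f ∈ S, ((X ∩ f).card : ℝ) * ((Y \ f).card : ℝ) := by
    rw [mul_assoc, ← nsmul_eq_mul, ← Finset.sum_const]
    apply Finset.sum_le_sum
    intro f hf
    have a1 := abs_le.1 (hS1 f hf)
    have a2 := abs_le.1 (hS2 f hf)
    have a3 : ((Y \ f).card : ℝ) = Y.card - (Y ∩ f).card := by
      have := Finset.card_sdiff_add_card_inter Y f
      have h2 : ((Y \ f).card : ℝ) + ((Y ∩ f).card : ℝ) = Y.card := by exact_mod_cast this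
      linarith
    rw [a3]
    have a4 : (1-η) * (κ * X.card) ≤ ((X ∩ f).card : ℝ) := by linarith [a1.1]
    have a5 : (Y.card : ℝ) - (1+η)*(κ * Y.card) ≤ (Y.card : ℝ) - (Y ∩ f).card := by linarith [a2.2]
    have a6 : 0 ≤ (Y.card : ℝ) - (1+η)*(κ * Y.card) := by
      have : (1+η)*κ ≤ 1 := by nlinarith
      nlinarith
    exact mul_le_mul a4 a5 a6 (by positivity)
  have b2 : (S.card : ℝ) * ((X.card - (1+η)*(κ * X.card)) * ((1-η)*(κ * Y.card))) ≤
      ∑ f ∈ S, ((X \ f).card : ℝ) * ((Y ∩ f).card : ℝ) := by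
    rw [← nsmul_eq_mul, ← Finset.sum_const]
    apply Finset.sum_le_sum
    intro f hf
    have a1 := abs_le.1 (hS1 f hf)
    have a2 := abs_le.1 (hS2 f hf)
    have a3 : ((X \ f).card : ℝ) = X.card - (X ∩ f).card := by
      have := Finset.card_sdiff_add_card_inter X f
      have h2 : ((X \ f).card : ℝ) + ((X ∩ f).card : ℝ) = X.card := by exact_mod_cast this
      linarith
    rw [a3]
    have a4 : (1-η) * (κ * Y.card) ≤ ((Y ∩ f).card : ℝ) := by linarith [a2.1]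
    have a5 : (X.card : ℝ) - (1+η)*(κ * X.card) ≤ (X.card : ℝ) - (X ∩ f).card := by linarith [a1.2]
    have a6 : 0 ≤ (X.card : ℝ) - (1+η)*(κ * X.card) := by
      have : (1+η)*κ ≤ 1 := by nlinarith
      nlinarith
    have a7 : 0 ≤ (1-η) * (κ * Y.card) := by
      have : 0 ≤ 1 - η := by linarith
      positivity
    exact mul_le_mul a5 a4 a7 (by linarith)
  have b3 : ∑ f ∈ S, ((((X ∩ f) ×ˢ (Y \ f)).filter (fun p => insert p.2 (f.erase p.1) ∈ S)).card : ℝ) ≤
      S.card * ((1+η)*(κ * X.card)*(τ * Y.card)) := by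
    rw [← nsmul_eq_mul, ← Finset.sum_const]
    apply Finset.sum_le_sum
    intro f hf
    have hfR := Finset.mem_powersetCard.1 (hS hf)
    have hsub : ((X ∩ f) ×ˢ (Y \ f)).filter (fun p => insert p.2 (f.erase p.1) ∈ S) ⊆
        (X ∩ f) ×ˢ ((Y \ f) \ II k (sh g) L (R \ f)) := by
      rintro ⟨x, y⟩ hp
      rw [Finset.mem_filter, Finset.mem_product] at hp
      simp only at hp
      rw [Finset.mem_product]
      simp only
      refine ⟨hp.1.1, Finset.mem_sdiff.2 ⟨hp.1.2, ?_⟩⟩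
      intro hyI
      have hx := Finset.mem_inter.1 hp.1.1
      have := II_swap (L := L) hfR.1 hfR.2 hx.2 hyI (hSg _ hp.2)
      exact Finset.disjoint_left.1 hXI hx.1 this
    have h1 := Finset.card_le_card hsub
    rw [Finset.card_product] at h1
    have h2 : ((((X ∩ f) ×ˢ (Y \ f)).filter (fun p => insert p.2 (f.erase p.1) ∈ S)).card : ℝ) ≤
        ((X ∩ f).card : ℝ) * (((Y \ f) \ II k (sh g) L (R \ f)).card : ℝ) := by exact_mod_cast h1
    refine h2.trans ?_
    have a1 := abs_le.1 (hS1 f hf)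
    have a4 : ((X ∩ f).card : ℝ) ≤ (1+η) * (κ * X.card) := by linarith [a1.2]
    exact mul_le_mul a4 (hS3 f hf) (by positivity) (by positivity)
  have b4 : (X.card : ℝ) * Y.card * ((N - 2).choose (k-1) : ℝ) =
      (N.choose k : ℝ) * (κ * (1-κ) * ((N:ℝ)/(N-1))) * (X.card * Y.card) :=
    total_real hk hN1 _ _
  have hsr : (∑ f ∈ S, ((X ∩ f).card : ℝ) * ((Y \ f).card : ℝ)) +
      (∑ f ∈ S, ((X \ f).card : ℝ) * ((Y ∩ f).card : ℝ)) ≤
      (X.card : ℝ) * Y.card * ((N - 2).choose (k-1) : ℝ) +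
      ∑ f ∈ S, ((((X ∩ f) ×ˢ (Y \ f)).filter (fun p => insert p.2 (f.erase p.1) ∈ S)).card : ℝ) := by
    exact_mod_cast hsc
  rw [b4] at hsr
  have hN1' : (0:ℝ) < N - 1 := by
    have : (1:ℝ) < N := by
      have : 1 < N := by omega
      exact_mod_cast this
    linarith
  refine real_swap (η := η) (τ := τ) (κ := κ) (S := (S.card : ℝ)) (c := (N.choose k : ℝ)) (x := (X.card : ℝ))
    (y := (Y.card : ℝ)) (r := (N:ℝ)/(N-1)) hη0 hητ hτ0 hτ hκ0 hκ2 (by positivity) (by positivity) hX0r hY0r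
    ?_ ?_
  · rw [div_le_iff₀ hN1']
    have : 8 ≤ ((N:ℝ) - 1) * τ := by rwa [div_le_iff₀ hτ0] at hN
    nlinarith
  · linarith

end Pool.Agent.H561R2.SC
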