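import Mathlib
import Pool.Agent.H561R2.SC.Swap

set_option autoImplicit false

namespace Pool.Agent.H561R2.SC

open Finset

variable {U : Type} [DecidableEq U]

/-- parameters of the local lemma -/
structure Par where
  k : ℕ
  K : ℕ
  a : ℕ
  η : ℝ
  τ : ℝ
  θ : ℝ
  ε : ℝ
  β : ℝ
  hk : 2 ≤ k
  hη : 0 < η
  hητ : η ≤ τ/8
  hτ0 : 0 < τ
  hτ : τ ≤ 1/10
  hθ : 0 < θ
  hε : 0 < ε
  ha1 : (1+η)^a ≤ 1+τ
  ha2 : (1+η-τ)^a ≤ τ
  hkτ : 8/τ ≤ 2*(k:ℝ)
  hβ : 1/(η^2*(k*ε)) + K/(η^2*(k*θ)) ≤ β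

namespace Par

variable (p : Par)

lemma hβ0 : 0 ≤ p.β := by
  refine le_trans ?_ p.hβ
  have h1 := p.hη
  have h2 := p.hε
  have h3 := p.hθ
  positivity

noncomputable def q : ℝ := 1/2 + 5*p.τ

lemma hq0 : 0 ≤ p.q := by unfold q; have := p.hτ0; positivity

lemma hq : (1/2 + 3*p.τ)*(1+p.τ) + p.τ ≤ p.q := by
  unfold q; have := p.hτ0; have := p.hτ; nlinarith

end Par

lemma ratio_aux {x N k η ξ : ℝ} (hN : 0 < N) (hη : 0 ≤ η) (hkN : 2 * k ≤ N) (hηk : (1+η)*k ≤ N)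
    (hx : ξ * N ≤ x) : ξ * (1-η) * (N-k) ≤ x - (1+η)*(k*x/N) ∨ ξ < 0 := by
  by_cases hξ : ξ < 0
  · exact Or.inr hξ
  left
  push Not at hξ
  have h1 : x - (1+η)*(k*x/N) = (x/N) * (N - (1+η)*k) := by field_simp
  rw [h1]
  have h2 : ξ ≤ x/N := by rw [le_div_iff₀ hN]; exact hx
  have h3 : (1-η)*(N-k) ≤ N - (1+η)*k := by nlinarith
  calc ξ * (1-η) * (N-k) = ξ * ((1-η)*(N-k)) := by ring
    _ ≤ ξ * (N - (1+η)*k) := mul_le_mul_of_nonneg_left h3 hξ
    _ ≤ (x/N) * (N - (1+η)*k) := mul_le_mul_of_nonneg_right h2 (by linarith)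

lemma step_aux {y N k η τ I D : ℝ} (hy : 0 ≤ y) (hN : 0 < N) (hη : 0 ≤ η) (hτ : 0 ≤ τ)
    (hk0 : 0 < k) (hkN : 2 * k ≤ N) (hD : D ≤ y - (1-η)*(k*y/N)) :
    (I ≤ D → I/(N-k) ≤ (1+η)*(y/N)) ∧ (I ≤ D - τ*y → I/(N-k) ≤ (1+η-τ)*(y/N)) := by
  have hNk : 0 < N - k := by linarith
  have h1 : y - (1-η)*(k*y/N) ≤ (1+η)*(y/N)*(N-k) := by
    have : (1+η)*(y/N)*(N-k) - (y - (1-η)*(k*y/N)) = (y/N) * (η * (N - 2*k)) := by field_simp; ring
    have h2 : 0 ≤ (y/N) * (η * (N - 2*k)) := by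
      have : 0 ≤ N - 2*k := by linarith
      positivity
    linarith
  constructor
  · intro h
    rw [div_le_iff₀ hNk]
    linarith
  · intro h
    rw [div_le_iff₀ hNk]
    have h3 : τ * (y/N) * (N-k) ≤ τ * y := by
      have : τ * (y/N) * (N-k) = τ * y * ((N-k)/N) := by field_simp
      rw [this]
      have h4 : (N-k)/N ≤ 1 := by rw [div_le_one hN]; linarith
      have h5 : 0 ≤ τ * y := by positivity
      nlinarith
    nlinarith

/-- one factor of the recursion -/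
lemma pow_step {C x y q r t : ℝ} (a L : ℕ) (hC : 0 ≤ C) (hx : 0 ≤ x) (hy : 0 ≤ y) (hq : 0 ≤ q)
    (hxy : x ≤ r * y) (hrt : r^a ≤ t) : (C*x)^a * q^L ≤ t * ((C*y)^a * q^L) := by
  have h1 : (C*x)^a ≤ (C*y)^a * t := by
    calc (C*x)^a ≤ (C*(r*y))^a := pow_le_pow_left₀ (mul_nonneg hC hx) (mul_le_mul_of_nonneg_left hxy hC) a
      _ = (C*y)^a * r^a := by rw [← mul_pow]; ring
      _ ≤ (C*y)^a * t := mul_le_mul_of_nonneg_left hrt (pow_nonneg (mul_nonneg hC hy) a)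
  calc (C*x)^a * q^L ≤ ((C*y)^a * t) * q^L := mul_le_mul_of_nonneg_right h1 (pow_nonneg hq L)
    _ = _ := by ring

lemma card_sdiff_real (X f : Finset U) : ((X \ f).card : ℝ) = X.card - (X ∩ f).card := by
  have h1 := Finset.card_sdiff_add_card_inter X f
  have h2 : ((X \ f).card : ℝ) + ((X ∩ f).card : ℝ) = X.card := by exact_mod_cast h1
  linarith

/-- `f` is typical for `X` -/
def Typ (k : ℕ) (R X : Finset U) (η : ℝ) (f : Finset U) : Prop :=
  |((X ∩ f).card : ℝ) - (k : ℝ) * X.card / R.card| ≤ η * ((k : ℝ) * X.card / R.card)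

open Classical in
/-- few sets are atypical for `X` -/
lemma atyp (R X : Finset U) {k : ℕ} {η d : ℝ} (hk2 : 2 ≤ k) (hX : X ⊆ R) (hkN : k ≤ R.card) (hη : 0 < η)
    (hd : 0 < d) (hX0 : 0 < X.card) (hdX : d ≤ (X.card : ℝ) / R.card) :
    (((R.powersetCard k).filter (fun f => ¬ Typ k R X η f)).card : ℝ) ≤
      (R.card.choose k : ℝ) * (1/(η^2*(k*d))) := by
  have h1 := cheb R X hk2 hX hkN hη hX0
  have e : ((R.powersetCard k).filter (fun f => ¬ Typ k R X η f)) = (R.powersetCard k).filter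
        (fun f => η * ((k : ℝ) * X.card / R.card) < |((X ∩ f).card : ℝ) - (k : ℝ) * X.card / R.card|) := by
    apply Finset.filter_congr; intro f _; exact not_le
  rw [e]
  refine h1.trans ?_
  have hk0 : (0:ℝ) < k := by
    have : 0 < k := by omega
    exact_mod_cast this
  rw [div_eq_mul_one_div]
  apply mul_le_mul_of_nonneg_left _ (by positivity)
  apply one_div_le_one_div_of_le (by positivity)
  apply mul_le_mul_of_nonneg_left _ (by positivity)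
  rw [mul_div_assoc]
  exact mul_le_mul_of_nonneg_left hdX hk0.le

lemma final_aux {B1 B2 S c τ Ψ q β1 β Lβ : ℝ} (hc : 0 ≤ c) (hΨ : 0 ≤ Ψ) (hτ : 0 ≤ τ)
    (hB : B1 + B2 ≤ c * β1) (hβ : β1 ≤ β) (hS : S ≤ (1/2+3*τ)*c) (hq : (1/2 + 3*τ)*(1+τ) + τ ≤ q) :
    B1 + B2 + S * ((1+τ)*Ψ) + c*(τ*Ψ) + c*Lβ ≤ (Ψ*q + (Lβ+β)) * c := by
  have e3 : B1 + B2 ≤ c * β := hB.trans (mul_le_mul_of_nonneg_left hβ hc)
  have e4 : S * ((1+τ)*Ψ) ≤ ((1/2+3*τ)*c) * ((1+τ)*Ψ) := mul_le_mul_of_nonneg_right hS (by positivity)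
  have e5 : c * Ψ * ((1/2 + 3*τ)*(1+τ) + τ) ≤ c * Ψ * q := mul_le_mul_of_nonneg_left hq (by positivity)
  linarith

/-- stability of `f` -/
def Stb (k : ℕ) (g : ℕ → Finset U → Prop) (L : ℕ) (R : Finset U) (τ : ℝ) (f : Finset U) : Prop :=
  (((II k g (L+1) R \ f) \ II k (sh g) L (R \ f)).card : ℝ) ≤ τ * (II k g (L+1) R).card

/-- the bound for one typical block -/
lemma typical_bound (p : Par) (G1 : Finset U → Prop) (g : ℕ → Finset U → Prop) (L : ℕ)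
    (ih : ∀ (R X : Finset U) (ξ : ℝ), R.card = (L+1)*p.k+1 → X ⊆ R → Disjoint X (II p.k (sh g) L R) →
      ξ * R.card ≤ X.card → p.ε ≤ ξ * (1-p.η)^L →
      (cnt p.k G1 (sh g) L R : ℝ) ≤
        (((p.K / p.θ) * ((II p.k (sh g) L R).card / R.card))^p.a * p.q^L + L * p.β) * tot p.k L)
    (R X f : Finset U) (ξ : ℝ) (hR : R.card = (L+2)*p.k+1) (hX : X ⊆ R)
    (hXI : Disjoint X (II p.k g (L+1) R))
    (hξ : ξ * R.card ≤ X.card) (hξ0 : 0 < ξ) (hξε : p.ε ≤ ξ * (1-p.η)^(L+1))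
    (hf : f ⊆ R) (hfk : f.card = p.k) (hgf : g 0 f) (tX : Typ p.k R X p.η f)
    (tY : Typ p.k R (II p.k g (L+1) R) p.η f) (r t : ℝ) (hrt : r^p.a ≤ t)
    (hr : (r = 1 + p.η) ∨ (r = 1 + p.η - p.τ ∧ ¬ Stb p.k g L R p.τ f)) :
    (cnt p.k G1 (sh g) L (R \ f) : ℝ) ≤
      (t * (((p.K / p.θ) * ((II p.k g (L+1) R).card / R.card))^p.a * p.q^L) + L * p.β) * tot p.k L := by
  have hη := p.hη
  have hητ := p.hητ
  have hτ0 := p.hτ0
  have hτ := p.hτ
  have hθ := p.hθ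
  have hq0 := p.hq0
  have hk2 : 2 ≤ p.k := p.hk
  have hkr : (2:ℝ) ≤ p.k := by exact_mod_cast hk2
  have hL0 : (0:ℝ) ≤ L := by positivity
  have hNr : (R.card:ℝ) = (L+2)*p.k+1 := by rw [hR]; push_cast; ring
  have hLk : 0 ≤ (L:ℝ) * p.k := by positivity
  have hN0 : (0:ℝ) < R.card := by rw [hNr]; linarith
  have hkN : 2 * (p.k:ℝ) ≤ R.card := by rw [hNr]; linarith
  have hηk : (1+p.η)*p.k ≤ R.card := by
    have h1 : (1+p.η) ≤ 2 := by linarith
    exact (mul_le_mul_of_nonneg_right h1 (by positivity)).trans hkN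
  have hRf : (R \ f).card = (L+1)*p.k+1 := by
    rw [Finset.card_sdiff_of_subset hf, hfk, hR]
    have : (L+2)*p.k = (L+1)*p.k + p.k := by ring
    omega
  have hIY : II p.k (sh g) L (R \ f) ⊆ II p.k g (L+1) R \ f := by
    intro l hl
    rw [Finset.mem_sdiff]
    refine ⟨II_mono hf hfk hgf hl, ?_⟩
    rw [mem_II, Finset.mem_sdiff] at hl
    exact hl.1.2
  have hRfr : ((R \ f).card : ℝ) = R.card - p.k := by
    rw [hRf, hNr]; push_cast; ring
  have hXf := card_sdiff_real X f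
  have hYf := card_sdiff_real (II p.k g (L+1) R) f
  unfold Typ at tX tY
  have tX' := abs_le.1 tX
  have tY' := abs_le.1 tY
  have h3 := ih (R \ f) (X \ f) (ξ * (1-p.η)) hRf (Finset.sdiff_subset_sdiff hX (Finset.Subset.refl _))
    (by
      apply Finset.disjoint_of_subset_left Finset.sdiff_subset
      exact Finset.disjoint_of_subset_right (hIY.trans Finset.sdiff_subset) hXI)
    (by
      rw [hRfr, hXf]
      rcases ratio_aux (x := (X.card:ℝ)) (N := (R.card:ℝ)) (k := (p.k:ℝ)) (η := p.η) (ξ := ξ) hN0 hη.le hkN hηk hξ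
        with h | h
      · have := tX'.2
        linarith
      · linarith)
    (by rw [mul_assoc, ← pow_succ']; exact hξε)
  rw [hRfr] at h3
  refine h3.trans (mul_le_mul_of_nonneg_right ?_ (by positivity))
  have hst := step_aux (y := ((II p.k g (L+1) R).card:ℝ)) (N := (R.card:ℝ)) (k := (p.k:ℝ)) (η := p.η) (τ := p.τ)
    (I := ((II p.k (sh g) L (R \ f)).card : ℝ)) (D := ((II p.k g (L+1) R \ f).card : ℝ)) (by positivity)
    hN0 hη.le hτ0.le (by linarith) hkN (by rw [hYf]; have := tY'.1; linarith)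
  have hratio : ((II p.k (sh g) L (R \ f)).card : ℝ) / (R.card - p.k) ≤
      r * ((II p.k g (L+1) R).card / R.card) := by
    rcases hr with rfl | ⟨rfl, hns⟩
    · apply hst.1
      exact_mod_cast Finset.card_le_card hIY
    · apply hst.2
      unfold Stb at hns
      push Not at hns
      have h5 := Finset.card_sdiff_add_card_inter (II p.k g (L+1) R \ f) (II p.k (sh g) L (R \ f))
      rw [Finset.inter_eq_right.2 hIY] at h5
      have h6 : ((((II p.k g (L+1) R \ f) \ II p.k (sh g) L (R \ f)).card : ℝ)) +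
          ((II p.k (sh g) L (R \ f)).card : ℝ) = ((II p.k g (L+1) R \ f).card : ℝ) := by
        exact_mod_cast h5
      linarith
  have hNk : 0 ≤ (R.card:ℝ) - p.k := by linarith
  have h7 := pow_step (C := (p.K / p.θ : ℝ)) p.a L (by positivity)
    (div_nonneg (Nat.cast_nonneg _) hNk)
    (div_nonneg (Nat.cast_nonneg (II p.k g (L+1) R).card) hN0.le) hq0 hratio hrt
  linarith

open Classical in
/-- One step of the recursion. -/
lemma star_step (p : Par) (G1 : Finset U → Prop) (g : ℕ → Finset U → Prop) (L : ℕ)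
    (hG1 : ∀ R, G1 R → p.θ * ((p.k:ℝ)+1) ≤ ((I0 p.k (g (L+1)) R).card : ℝ)) (hLK : L + 2 ≤ p.K)
    (ih : ∀ (R X : Finset U) (ξ : ℝ), R.card = (L+1)*p.k+1 → X ⊆ R → Disjoint X (II p.k (sh g) L R) →
      ξ * R.card ≤ X.card → p.ε ≤ ξ * (1-p.η)^L →
      (cnt p.k G1 (sh g) L R : ℝ) ≤
        (((p.K / p.θ) * ((II p.k (sh g) L R).card / R.card))^p.a * p.q^L + L * p.β) * tot p.k L)
    (R X : Finset U) (ξ : ℝ) (hR : R.card = (L+2)*p.k+1) (hX : X ⊆ R) (hXI : Disjoint X (II p.k g (L+1) R))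
    (hξ : ξ * R.card ≤ X.card) (hξε : p.ε ≤ ξ * (1-p.η)^(L+1)) :
      (cnt p.k G1 g (L+1) R : ℝ) ≤
        (((p.K / p.θ) * ((II p.k g (L+1) R).card / R.card))^p.a * p.q^(L+1) + (L+1) * p.β) * tot p.k (L+1) := by
  have hη := p.hη
  have hητ := p.hητ
  have hτ0 := p.hτ0
  have hτ := p.hτ
  have hθ := p.hθ
  have hε := p.hε
  have hβ0 := p.hβ0
  have hq0 := p.hq0
  by_cases hcnt : cnt p.k G1 g (L+1) R = 0
  · rw [hcnt]; push_cast; positivity
  have hk2 : 2 ≤ p.k := p.hk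
  have hkr : (2:ℝ) ≤ p.k := by exact_mod_cast hk2
  have hL0 : (0:ℝ) ≤ L := by positivity
  have hLk : 0 ≤ (L:ℝ) * p.k := by positivity
  have hYR : II p.k g (L+1) R ⊆ R := by intro l hl; rw [mem_II] at hl; exact hl.1
  have hYbig : p.θ * ((p.k:ℝ)+1) ≤ ((II p.k g (L+1) R).card : ℝ) := cnt_ne_zero (L+1) g hG1 R hcnt
  have hY0r : (0:ℝ) < (II p.k g (L+1) R).card := by
    have : 0 < p.θ * ((p.k:ℝ)+1) := by positivity
    linarith
  have hY0 : 0 < (II p.k g (L+1) R).card := by exact_mod_cast hY0r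
  have hNr : (R.card:ℝ) = (L+2)*p.k+1 := by rw [hR]; push_cast; ring
  have hN0 : (0:ℝ) < R.card := by rw [hNr]; linarith
  have hkN : 2 * (p.k:ℝ) ≤ R.card := by rw [hNr]; linarith
  have hkN' : p.k ≤ R.card := by
    have : (p.k:ℝ) ≤ R.card := by linarith
    exact_mod_cast this
  have h1η : 0 < 1 - p.η := by linarith
  have hpow1 : (1-p.η)^(L+1) ≤ 1 := pow_le_one₀ h1η.le (by linarith)
  have hpow0 : 0 < (1-p.η)^(L+1) := pow_pos h1η _
  have hξ0 : 0 < ξ := by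
    by_contra hcon
    push Not at hcon
    have : ξ * (1-p.η)^(L+1) ≤ 0 := mul_nonpos_of_nonpos_of_nonneg hcon hpow0.le
    linarith
  have hξε' : p.ε ≤ ξ := hξε.trans (mul_le_of_le_one_right hξ0.le hpow1)
  have hX0r : (0:ℝ) < X.card := lt_of_lt_of_le (mul_pos hξ0 hN0) hξ
  have hX0 : 0 < X.card := by exact_mod_cast hX0r
  -- bounds on the bad ones
  have hK0 : (0:ℝ) < p.K := by
    have : 0 < p.K := by omega
    exact_mod_cast this
  have hYN : p.θ / p.K ≤ ((II p.k g (L+1) R).card : ℝ) / R.card := by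
    rw [div_le_div_iff₀ hK0 hN0, hNr]
    have hKr : (L:ℝ) + 2 ≤ p.K := by exact_mod_cast hLK
    have h1 : ((L:ℝ)+2)*p.k+1 ≤ p.K * (p.k+1) := by
      have h2 : ((L:ℝ)+2)*p.k ≤ p.K * p.k := mul_le_mul_of_nonneg_right hKr (by positivity)
      linarith
    calc p.θ * (((L:ℝ)+2)*p.k+1) ≤ p.θ * (p.K * (p.k+1)) := mul_le_mul_of_nonneg_left h1 hθ.le
      _ = (p.θ * (p.k+1)) * p.K := by ring
      _ ≤ (II p.k g (L+1) R).card * p.K := mul_le_mul_of_nonneg_right hYbig hK0.le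
  have hB1c := atyp R X (d := p.ε) hk2 hX hkN' hη hε hX0 (by
    rw [le_div_iff₀ hN0]
    exact (mul_le_mul_of_nonneg_right hξε' hN0.le).trans hξ)
  have hB2c := atyp R (II p.k g (L+1) R) (d := p.θ / p.K) hk2 hYR hkN' hη (by positivity) hY0 hYN
  obtain ⟨F, hF⟩ : ∃ F, F = R.powersetCard p.k := ⟨_, rfl⟩
  obtain ⟨B1, hB1⟩ : ∃ B1, B1 = F.filter (fun f => ¬ Typ p.k R X p.η f) := ⟨_, rfl⟩
  obtain ⟨B2, hB2⟩ : ∃ B2, B2 = F.filter (fun f => ¬ Typ p.k R (II p.k g (L+1) R) p.η f) := ⟨_, rfl⟩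
  obtain ⟨S, hS⟩ : ∃ S, S = F.filter (fun f => g 0 f ∧ Typ p.k R X p.η f ∧
    Typ p.k R (II p.k g (L+1) R) p.η f ∧ Stb p.k g L R p.τ f) := ⟨_, rfl⟩
  have hB1c' : (B1.card : ℝ) ≤ (R.card.choose p.k : ℝ) * (1/(p.η^2*(p.k*p.ε))) := by
    rw [hB1, hF]; exact hB1c
  have hB2c' : (B2.card : ℝ) ≤ (R.card.choose p.k : ℝ) * (1/(p.η^2*(p.k*(p.θ / p.K)))) := by
    rw [hB2, hF]; exact hB2c
  have hSF : S ⊆ F := by rw [hS]; exact Finset.filter_subset _ _
  have hSc : (S.card : ℝ) ≤ (1/2 + 3*p.τ) * (R.card.choose p.k : ℝ) := by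
    refine stable_bound p.k L g R X (by omega) hR hX hXI hX0 hY0 hη.le hητ hτ0 hτ ?_ S (hF ▸ hSF)
      ?_ ?_ ?_ ?_
    · have h1 := p.hkτ
      rw [hNr]
      linarith
    · intro f hf; rw [hS] at hf; exact (Finset.mem_filter.1 hf).2.1
    · intro f hf; rw [hS] at hf; exact (Finset.mem_filter.1 hf).2.2.1
    · intro f hf; rw [hS] at hf; exact (Finset.mem_filter.1 hf).2.2.2.1
    · intro f hf; rw [hS] at hf; exact (Finset.mem_filter.1 hf).2.2.2.2
  obtain ⟨Ψ, hΨ⟩ : ∃ Ψ : ℝ, Ψ = ((p.K / p.θ) * ((II p.k g (L+1) R).card / R.card))^p.a * p.q^L := ⟨_, rfl⟩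
  have hΨ0 : 0 ≤ Ψ := by rw [hΨ]; positivity
  have htot0 : (0:ℝ) ≤ tot p.k L := Nat.cast_nonneg _
  have hLβ : 0 ≤ (L:ℝ) * p.β := mul_nonneg hL0 hβ0
  have hτΨ : 0 ≤ p.τ * Ψ := mul_nonneg hτ0.le hΨ0
  have hτΨ1 : 0 ≤ (1+p.τ) * Ψ := mul_nonneg (by linarith) hΨ0
  -- pointwise bound
  have hpt : ∀ f ∈ F.filter (g 0), (cnt p.k G1 (sh g) L (R \ f) : ℝ) ≤
      ((if f ∈ B1 then 1 else 0) + (if f ∈ B2 then 1 else 0) + (if f ∈ S then (1+p.τ) * Ψ else 0)
        + p.τ * Ψ + L * p.β) * tot p.k L := by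
    intro f hf
    rw [Finset.mem_filter] at hf
    obtain ⟨hfF, hgf⟩ := hf
    have hfR := Finset.mem_powersetCard.1 (hF ▸ hfF)
    have b1 : (0:ℝ) ≤ (if f ∈ B1 then 1 else 0) := by split <;> norm_num
    have b2 : (0:ℝ) ≤ (if f ∈ B2 then 1 else 0) := by split <;> norm_num
    have b3 : (0:ℝ) ≤ (if f ∈ S then (1+p.τ) * Ψ else 0) := by
      split
      · exact hτΨ1
      · exact le_rfl
    by_cases h12 : f ∈ B1 ∨ f ∈ B2
    · have hRf : (R \ f).card = (L+1)*p.k+1 := by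
        rw [Finset.card_sdiff_of_subset hfR.1, hfR.2, hR]
        have : (L+2)*p.k = (L+1)*p.k + p.k := by ring
        omega
      have hle : (cnt p.k G1 (sh g) L (R \ f) : ℝ) ≤ 1 * tot p.k L := by
        rw [one_mul]; exact_mod_cast cnt_le_tot p.k G1 (sh g) L _ hRf
      refine hle.trans (mul_le_mul_of_nonneg_right ?_ htot0)
      rcases h12 with h | h
      · rw [if_pos h]; linarith
      · rw [if_pos h]; linarith
    · push Not at h12
      have tX : Typ p.k R X p.η f := by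
        by_contra h; exact h12.1 (by rw [hB1]; exact Finset.mem_filter.2 ⟨hfF, h⟩)
      have tY : Typ p.k R (II p.k g (L+1) R) p.η f := by
        by_contra h; exact h12.2 (by rw [hB2]; exact Finset.mem_filter.2 ⟨hfF, h⟩)
      by_cases hs : Stb p.k g L R p.τ f
      · have hfS : f ∈ S := by rw [hS]; exact Finset.mem_filter.2 ⟨hfF, hgf, tX, tY, hs⟩
        have h := typical_bound p G1 g L ih R X f ξ hR hX hXI hξ hξ0 hξε hfR.1 hfR.2 hgf tX tY
          (1+p.η) (1+p.τ) p.ha1 (Or.inl rfl)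
        rw [← hΨ] at h
        refine h.trans (mul_le_mul_of_nonneg_right ?_ htot0)
        rw [if_pos hfS]
        linarith
      · have h := typical_bound p G1 g L ih R X f ξ hR hX hXI hξ hξ0 hξε hfR.1 hfR.2 hgf tX tY
          (1+p.η-p.τ) p.τ p.ha2 (Or.inr ⟨rfl, hs⟩)
        rw [← hΨ] at h
        refine h.trans (mul_le_mul_of_nonneg_right ?_ htot0)
        linarith
  -- sum up
  have hFc : (F.card : ℝ) = (R.card.choose p.k : ℝ) := by rw [hF, Finset.card_powersetCard]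
  have hcard1 : ∀ T : Finset (Finset U), T ⊆ F → ∀ z : ℝ, ∑ f ∈ F, (if f ∈ T then z else 0) = T.card * z := by
    intro T hT z
    rw [← Finset.sum_filter, Finset.filter_mem_eq_inter, Finset.inter_eq_right.2 hT, Finset.sum_const, nsmul_eq_mul]
  have hB1F : B1 ⊆ F := by rw [hB1]; exact Finset.filter_subset _ _
  have hB2F : B2 ⊆ F := by rw [hB2]; exact Finset.filter_subset _ _
  have hsum : (cnt p.k G1 g (L+1) R : ℝ) ≤
      (B1.card + B2.card + S.card * ((1+p.τ)*Ψ) + (R.card.choose p.k : ℝ) * (p.τ*Ψ) +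
        (R.card.choose p.k : ℝ) * (L*p.β)) * tot p.k L := by
    have e1 : (cnt p.k G1 g (L+1) R : ℝ) = ∑ f ∈ F.filter (g 0), (cnt p.k G1 (sh g) L (R \ f) : ℝ) := by
      rw [show cnt p.k G1 g (L+1) R = ∑ f ∈ (R.powersetCard p.k).filter (g 0), cnt p.k G1 (sh g) L (R \ f)
        from rfl, hF]
      push_cast; rfl
    rw [e1]
    refine (Finset.sum_le_sum hpt).trans ?_
    rw [← Finset.sum_mul]
    apply mul_le_mul_of_nonneg_right _ htot0
    refine (Finset.sum_le_sum_of_subset_of_nonneg (Finset.filter_subset (g 0) F) ?_).trans ?_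
    · intro f _ _
      have a0 : (0:ℝ) ≤ (if f ∈ B1 then 1 else 0) := by split <;> norm_num
      have a1 : (0:ℝ) ≤ (if f ∈ B2 then 1 else 0) := by split <;> norm_num
      have a2 : (0:ℝ) ≤ (if f ∈ S then (1+p.τ) * Ψ else 0) := by
        split
        · exact hτΨ1
        · exact le_rfl
      linarith
    · rw [Finset.sum_add_distrib, Finset.sum_add_distrib, Finset.sum_add_distrib, Finset.sum_add_distrib,
        hcard1 B1 hB1F, hcard1 B2 hB2F, hcard1 S hSF, Finset.sum_const, Finset.sum_const, nsmul_eq_mul,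
        nsmul_eq_mul, hFc]
      exact le_of_eq (by ring)
  have htotS : (tot p.k (L+1) : ℝ) = (R.card.choose p.k : ℝ) * tot p.k L := by
    rw [tot_succ]; push_cast
    rw [hR]
  rw [htotS]
  have hβ' : 1/(p.η^2*(p.k*p.ε)) + 1/(p.η^2*(p.k*(p.θ / p.K))) ≤ p.β := by
    have e2 : 1/(p.η^2*(p.k*(p.θ/p.K))) = (p.K:ℝ)/(p.η^2*(p.k*p.θ)) := by field_simp
    rw [e2]; exact p.hβ
  have e7 := final_aux (B1 := (B1.card : ℝ)) (B2 := (B2.card : ℝ)) (S := (S.card : ℝ))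
    (c := (R.card.choose p.k : ℝ)) (τ := p.τ) (Ψ := Ψ) (q := p.q) (Lβ := (L:ℝ) * p.β)
    (Nat.cast_nonneg _) hΨ0 hτ0.le (by rw [mul_add]; exact add_le_add hB1c' hB2c') hβ' hSc p.hq
  have e6 : ((p.K / p.θ) * ((II p.k g (L+1) R).card / R.card))^p.a * p.q^(L+1) = Ψ * p.q := by
    rw [hΨ, pow_succ]; ring
  rw [e6]
  calc (cnt p.k G1 g (L+1) R : ℝ) ≤ _ := hsum
    _ ≤ ((Ψ * p.q + ((L:ℝ) * p.β + p.β)) * (R.card.choose p.k : ℝ)) * tot p.k L :=
        mul_le_mul_of_nonneg_right e7 htot0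
    _ = _ := by ring

end Pool.Agent.H561R2.SC
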