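import Mathlib
import Pool.Agent.H561R2.SC.Star

set_option autoImplicit false

namespace Pool.Agent.H561R2.SC

open Finset

variable {U : Type} [DecidableEq U]

/-- the local lemma for all numbers of blocks. -/
theorem star (p : Par) (G1 : Finset U → Prop) : ∀ (L : ℕ), L + 1 ≤ p.K → ∀ (g : ℕ → Finset U → Prop)
    (_ : ∀ R, G1 R → p.θ * ((p.k:ℝ)+1) ≤ ((I0 p.k (g L) R).card : ℝ))
    (R X : Finset U) (ξ : ℝ), R.card = (L+1)*p.k+1 → X ⊆ R → Disjoint X (II p.k g L R) →
      ξ * R.card ≤ X.card → p.ε ≤ ξ * (1-p.η)^L →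
      (cnt p.k G1 g L R : ℝ) ≤
        (((p.K / p.θ) * ((II p.k g L R).card / R.card))^p.a * p.q^L + L * p.β) * tot p.k L := by
  intro L
  induction L with
  | zero =>
    intro hLK g hG1 R X ξ hR _ _ _ _
    have hθ := p.hθ
    by_cases hcnt : cnt p.k G1 g 0 R = 0
    · rw [hcnt]
      have h1 := p.hq0
      have h2 := p.hβ0
      simp only [Nat.cast_zero, zero_mul, add_zero, pow_zero, mul_one]
      positivity
    · have h1 := cnt_ne_zero 0 g hG1 R hcnt
      have hle : (cnt p.k G1 g 0 R : ℝ) ≤ tot p.k 0 := by exact_mod_cast cnt_le_tot p.k G1 g 0 R hR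
      refine hle.trans ?_
      have hRr : (R.card : ℝ) = p.k + 1 := by rw [hR]; push_cast; ring
      have hk0 : (0:ℝ) < (p.k:ℝ)+1 := by positivity
      have h2 : p.θ ≤ ((II p.k g 0 R).card : ℝ) / R.card := by
        rw [hRr, le_div_iff₀ hk0]; exact h1
      have hK : (1:ℝ) ≤ p.K := by exact_mod_cast hLK
      have h3 : 1 ≤ (p.K / p.θ) * (((II p.k g 0 R).card : ℝ) / R.card) := by
        calc (1:ℝ) ≤ p.K := hK
          _ = (p.K / p.θ) * p.θ := by field_simp
          _ ≤ _ := mul_le_mul_of_nonneg_left h2 (by positivity)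
      have h4 : 1 ≤ ((p.K / p.θ) * (((II p.k g 0 R).card : ℝ) / R.card))^p.a := one_le_pow₀ h3
      have h5 : (0:ℝ) ≤ tot p.k 0 := by positivity
      calc (tot p.k 0 : ℝ) = 1 * tot p.k 0 := by ring
        _ ≤ _ := by
          apply mul_le_mul_of_nonneg_right _ h5
          simpa using h4
  | succ L ih =>
    intro hLK g hG1 R X ξ hR hX hXI hξ hε
    have h := star_step p G1 g L hG1 (by omega)
      (fun R X ξ h1 h2 h3 h4 h5 => ih (by omega) (sh g) hG1 R X ξ h1 h2 h3 h4 h5)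
      R X ξ hR hX hXI hξ hε
    push_cast at h ⊢
    exact h

/-- final form -/
theorem star_final (p : Par) (L : ℕ) (hL : L + 1 = p.K) (G1 : Finset U → Prop) (g : ℕ → Finset U → Prop)
    (hG1 : ∀ R, G1 R → p.θ * ((p.k:ℝ)+1) ≤ ((I0 p.k (g L) R).card : ℝ))
    (R X : Finset U) (ξ : ℝ) (hR : R.card = (L+1)*p.k+1) (hX : X ⊆ R) (hXI : Disjoint X (II p.k g L R))
    (hξ : ξ * R.card ≤ X.card) (hε : p.ε ≤ ξ * (1-p.η)^L) :
      (cnt p.k G1 g L R : ℝ) ≤ ((p.K / p.θ)^p.a * p.q^L + p.K * p.β) * tot p.k L := by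
  refine (star p G1 L (by omega) g hG1 R X ξ hR hX hXI hξ hε).trans ?_
  apply mul_le_mul_of_nonneg_right _ (by positivity)
  have hθ := p.hθ
  have hq0 := p.hq0
  have hβ0 := p.hβ0
  have h1 : (((II p.k g L R).card : ℝ) / R.card) ≤ 1 := by
    apply div_le_one_of_le₀ _ (by positivity)
    have : (II p.k g L R).card ≤ R.card := Finset.card_le_card (by intro l hl; exact (mem_II.1 hl).1)
    exact_mod_cast this
  have h2 : ((p.K / p.θ) * (((II p.k g L R).card : ℝ) / R.card))^p.a ≤ (p.K / p.θ)^p.a := by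
    apply pow_le_pow_left₀ (by positivity)
    calc (p.K / p.θ) * (((II p.k g L R).card : ℝ) / R.card) ≤ (p.K / p.θ) * 1 :=
          mul_le_mul_of_nonneg_left h1 (by positivity)
      _ = _ := by ring
  have h3 : (L:ℝ) * p.β ≤ p.K * p.β := by
    apply mul_le_mul_of_nonneg_right _ hβ0
    have : L ≤ p.K := by omega
    exact_mod_cast this
  have h4 : ((p.K / p.θ) * (((II p.k g L R).card : ℝ) / R.card))^p.a * p.q^L ≤ (p.K / p.θ)^p.a * p.q^L :=
    mul_le_mul_of_nonneg_right h2 (by positivity)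
  linarith

end Pool.Agent.H561R2.SC
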