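import Mathlib
import Pool.Agent.H561R2.SC.Ctx
import Pool.Agent.H561R2.SC.Star2

set_option autoImplicit false

namespace Pool.Agent.H561R2.SC

open Finset

variable {U X : Type} [DecidableEq U] [DecidableEq X]

lemma NN_one (k w : ℕ) : NN k 1 w = w.choose k := by
  simp [NN]

lemma SS_mono {k : ℕ} {ι : Type} [Fintype ι] {V W : Finset U} (h : V ⊆ W) : SS k ι V ⊆ SS k ι W := by
  intro A hA
  rw [mem_SS] at hA ⊢
  exact ⟨fun a => ⟨(hA.1 a).1.trans h, (hA.1 a).2⟩, hA.2⟩

namespace Ctx

variable (c : Ctx U X)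

/-- the true variables outside the blocks in the range of `cc` -/
def GO {κ : Type} [Fintype κ] (cc : κ → Fin c.T) (A : Fin c.T → Finset U) : Finset X :=
  c.E0 ∪ (univ \ univ.image cc).image (fun b => c.ν b (A b))

section

variable {κ : Type} [Fintype κ] {cc : κ → Fin c.T}

lemma GO_extend (B : κ → Finset U) (A : Fin c.T → Finset U) :
    c.GO cc (Function.extend cc B A) = c.GO cc A := by
  unfold GO
  congr 1
  apply Finset.image_congr
  intro b hb
  have hb' : b ∉ univ.image cc := by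
    have := Finset.mem_sdiff.1 (Finset.mem_coe.1 hb)
    exact this.2
  show c.ν b (Function.extend cc B A b) = c.ν b (A b)
  rw [extend_off b hb']

lemma mem_GO_iff {A : Fin c.T → Finset U} {x : X} (hx : ∀ a, c.ν (cc a) (A (cc a)) ≠ x) :
    x ∈ c.G A ↔ x ∈ c.GO cc A := by
  unfold G GO
  rw [Finset.mem_union, Finset.mem_union, Finset.mem_image, Finset.mem_image]
  constructor
  · rintro (h | ⟨b, _, rfl⟩)
    · exact Or.inl h
    · right
      refine ⟨b, Finset.mem_sdiff.2 ⟨Finset.mem_univ _, ?_⟩, rfl⟩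
      rw [Finset.mem_image]
      rintro ⟨a, _, ha⟩
      exact hx a (by rw [ha])
  · rintro (h | ⟨b, _, rfl⟩)
    · exact Or.inl h
    · exact Or.inr ⟨b, Finset.mem_univ _, rfl⟩

lemma fwd {A : Fin c.T → Finset U} (h : ∀ a, c.ν (cc a) (A (cc a)) ∉ c.RS (c.G A)) :
    c.RS (c.GO cc A) = c.RS (c.G A) ∧ c.vs (c.GO cc A) = c.vs (c.G A) := by
  have h1 : ∀ x ∈ c.RS (c.G A), (x ∈ c.G A ↔ x ∈ c.GO cc A) := by
    intro x hx
    exact c.mem_GO_iff (fun a ha => h a (by rw [ha]; exact hx))
  exact ⟨c.D.RS_agree _ _ _ h1, c.D.vs_agree _ _ _ h1⟩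

lemma bwd {A : Fin c.T → Finset U} (h : ∀ a, c.ν (cc a) (A (cc a)) ∉ c.RS (c.GO cc A)) :
    c.RS (c.G A) = c.RS (c.GO cc A) ∧ c.vs (c.G A) = c.vs (c.GO cc A) := by
  have h1 : ∀ x ∈ c.RS (c.GO cc A), (x ∈ c.GO cc A ↔ x ∈ c.G A) := by
    intro x hx
    exact (c.mem_GO_iff (fun a ha => h a (by rw [ha]; exact hx))).symm
  exact ⟨c.D.RS_agree _ _ _ h1, c.D.vs_agree _ _ _ h1⟩

end

/-- many elements of `R` can be missing after one more block -/
def G1 (k : ℕ) (θ : ℝ) (g : Finset U → Prop) (R : Finset U) : Prop :=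
  θ * ((k:ℝ)+1) ≤ ((I0 k g R).card : ℝ)

/-- unread sets for the block `b` -/
def gA (A : Fin c.T → Finset U) (b : Fin c.T) : Finset U → Prop := fun f => c.ν b f ∉ c.RS (c.G A)

def Q {L : ℕ} (cc : Fin (L+1) → Fin c.T) (θ ξ : ℝ) (A : Fin c.T → Finset U) : Prop :=
  (∀ a, c.ν (cc a) (A (cc a)) ∉ c.RS (c.G A)) ∧
  ξ * (((L:ℝ)+1)*c.k+1) ≤ ((rest cc c.V A \ c.Iv (c.vs (c.G A))).card : ℝ) ∧
  G1 c.k θ (c.gA A (cc (Fin.last L)))
    (rest cc c.V A \ (univ.biUnion (fun a : Fin L => A (cc a.castSucc))))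

open Classical in
/-- the bound for `K = L+1` blocks -/
lemma exch (p : Par) (hpk : p.k = c.k) {L : ℕ} (hL : L + 1 = p.K) {cc : Fin (L+1) → Fin c.T}
    (hcc : Function.Injective cc) {ξ : ℝ} (hξ : p.ε ≤ ξ * (1-p.η)^L) :
    ((c.SQ.filter (c.Q cc p.θ ξ)).card : ℝ) ≤
      ((p.K / p.θ)^p.a * p.q^L + p.K * p.β) * c.SQ.card := by
  have hθ := p.hθ
  have hq0 := p.hq0
  have hβ0 := p.hβ0
  have hbnd0 : 0 ≤ (p.K / p.θ)^p.a * p.q^L + p.K * p.β := by positivity
  have hLT : L + 1 ≤ c.T := by
    have := Fintype.card_le_of_injective cc hcc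
    simpa using this
  unfold SQ
  apply resample_le hcc
  · rw [Fintype.card_fin, c.hV]; omega
  · simpa using hLT
  intro A hA
  set R := rest cc c.V A with hR
  obtain ⟨g, hg⟩ : ∃ g : ℕ → Finset U → Prop,
      g = fun i f => ∀ h : i < L+1, c.ν (cc ⟨i, h⟩) f ∉ c.RS (c.GO cc A) := ⟨_, rfl⟩
  have hgi : ∀ (a : Fin (L+1)) (f : Finset U), g a.val f ↔ c.ν (cc a) f ∉ c.RS (c.GO cc A) := by
    intro a f
    rw [hg]
    exact ⟨fun h => h a.isLt, fun h _ => h⟩
  set Y := R \ c.Iv (c.vs (c.GO cc A)) with hY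
  have hRc : R.card = (L+1)*c.k+1 := by
    rw [hR, card_rest hcc hA, c.hV, Fintype.card_fin, Fintype.card_fin]
    have h1 : c.T = (c.T - (L+1)) + (L+1) := by omega
    have h2 : c.T * c.k = (c.T - (L+1)) * c.k + (L+1)*c.k := by
      conv_lhs => rw [h1]
      ring
    omega
  have hRcr : (R.card : ℝ) = ((L:ℝ)+1)*c.k+1 := by rw [hRc]; push_cast; ring
  have hext : ∀ B ∈ SS c.k (Fin (L+1)) R, Function.extend cc B A ∈ c.SQ := fun B hB => extend_mem hcc hA hB
  by_cases hbig : ξ * (((L:ℝ)+1)*c.k+1) ≤ (Y.card : ℝ)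
  · -- use star_final
    have hXI : Disjoint Y (II p.k g L R) := by
      rw [Finset.disjoint_left]
      intro l hlX hlI
      rw [mem_II] at hlI
      obtain ⟨hlR, hPM⟩ := hlI
      obtain ⟨B, hB, hBg⟩ := PM_exists L _ _ hPM
      rw [hpk] at hB
      have hBR : B ∈ SS c.k (Fin (L+1)) R := SS_mono (Finset.erase_subset _ _) hB
      have hA' := hext B hBR
      have hun : ∀ a, c.ν (cc a) (Function.extend cc B A (cc a)) ∉
          c.RS (c.GO cc (Function.extend cc B A)) := by
        intro a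
        rw [hcc.extend_apply, GO_extend]
        exact (hgi a _).1 (hBg a)
      have hb := c.bwd hun
      rw [GO_extend] at hb
      rw [hY, Finset.mem_sdiff] at hlX
      apply hlX.2
      rw [mem_Iv]
      have hlV : l ∈ c.V := by
        rw [hR] at hlR; unfold rest at hlR
        exact (Finset.mem_sdiff.1 hlR).1
      refine ⟨hlV, Function.extend cc B A, hA', hb.2, ?_⟩
      unfold miss
      rw [Finset.mem_sdiff]
      refine ⟨hlV, ?_⟩
      rw [Finset.mem_biUnion]
      rintro ⟨b, _, hlb⟩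
      by_cases hbi : b ∈ univ.image cc
      · rw [Finset.mem_image] at hbi
        obtain ⟨a, _, rfl⟩ := hbi
        rw [hcc.extend_apply] at hlb
        have := ((mem_SS.1 hB).1 a).1 hlb
        exact (Finset.mem_erase.1 this).1 rfl
      · rw [extend_off b hbi] at hlb
        rw [hR] at hlR; unfold rest at hlR
        apply (Finset.mem_sdiff.1 hlR).2
        rw [Finset.mem_biUnion]
        exact ⟨b, Finset.mem_sdiff.2 ⟨Finset.mem_univ _, hbi⟩, hlb⟩
    have hstar := star_final p L hL (G1 c.k p.θ (g L)) g (by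
      intro R' hR'
      unfold G1 at hR'
      rw [hpk]; exact hR') R Y ξ (by rw [hpk]; exact hRc) Finset.sdiff_subset hXI
      (by rw [hRcr]; exact hbig) hξ
    rw [hpk] at hstar
    have htot : (SS c.k (Fin (L+1)) R).card = tot c.k L := by
      rw [card_SS_fin, hRc]; rfl
    rw [htot]
    refine le_trans ?_ hstar
    have hce := card_eq_cnt c.k (G1 c.k p.θ (g L)) L g R
    have hfin : ((SS c.k (Fin (L+1)) R).filter (fun B => c.Q cc p.θ ξ (Function.extend cc B A))).card ≤
        cnt c.k (G1 c.k p.θ (g L)) g L R := by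
      refine le_trans (Finset.card_le_card ?_) (le_of_eq hce)
      intro B hB
      rw [Finset.mem_filter] at hB
      obtain ⟨hBR, hQ1, hQ2, hQ3⟩ := hB
      have hf := c.fwd hQ1
      rw [GO_extend] at hf
      refine Finset.mem_filter.2 ⟨hBR, ?_, ?_⟩
      · intro a
        have := hQ1 a
        rw [hcc.extend_apply, ← hf.1] at this
        exact (hgi a _).2 this
      · have e1 : rest cc c.V (Function.extend cc B A) = R := rest_congr (fun b hb => extend_off b hb)
        have e2 : c.gA (Function.extend cc B A) (cc (Fin.last L)) = g L := by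
          funext f
          apply propext
          have h1 := hgi (Fin.last L) f
          rw [Fin.val_last] at h1
          rw [h1]
          unfold gA
          rw [hf.1]
        rw [e1, e2] at hQ3
        have e3 : (univ.biUnion (fun a : Fin L => Function.extend cc B A (cc a.castSucc))) =
            univ.biUnion (fun a : Fin L => B a.castSucc) := by
          apply Finset.biUnion_congr rfl
          intro a _
          rw [hcc.extend_apply]
        rw [e3] at hQ3
        exact hQ3
    exact_mod_cast hfin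
  · have hempty : (SS c.k (Fin (L+1)) R).filter (fun B => c.Q cc p.θ ξ (Function.extend cc B A)) = ∅ := by
      rw [Finset.filter_eq_empty_iff]
      intro B hB hQ
      obtain ⟨hQ1, hQ2, hQ3⟩ := hQ
      have hf := c.fwd hQ1
      rw [GO_extend] at hf
      have e1 : rest cc c.V (Function.extend cc B A) = R := rest_congr (fun b hb => extend_off b hb)
      rw [e1, ← hf.2] at hQ2
      exact hbig hQ2
    rw [hempty]
    simp only [Finset.card_empty, Nat.cast_zero]
    positivity

/-- low blocks -/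
def low (θ : ℝ) (A : Fin c.T → Finset U) (b : Fin c.T) : Prop :=
  ¬ G1 c.k θ (c.gA A b) (rest (fun _ : Fin 1 => b) c.V A)

open Classical in
lemma one_block_count (k : ℕ) (g : Finset U → Prop) (R : Finset U) (hR : R.card = k+1) :
    ((SS k (Fin 1) R).filter (fun B => g (B 0))).card ≤ (I0 k g R).card := by
  have h2 : ∀ B ∈ (SS k (Fin 1) R).filter (fun B => g (B 0)), ∃ l ∈ I0 k g R, B 0 = R.erase l := by
    intro B hB
    rw [Finset.mem_filter] at hB
    obtain ⟨hBS, hgB⟩ := hB
    have hB0 := (mem_SS.1 hBS).1 0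
    have hd : (R \ B 0).card = 1 := by
      rw [Finset.card_sdiff_of_subset hB0.1, hB0.2, hR]; omega
    obtain ⟨l, hl⟩ := Finset.card_eq_one.1 hd
    have hlR : l ∈ R ∧ l ∉ B 0 := by
      have : l ∈ R \ B 0 := by rw [hl]; exact Finset.mem_singleton_self _
      exact Finset.mem_sdiff.1 this
    have heq : B 0 = R.erase l := by
      ext z
      rw [Finset.mem_erase]
      constructor
      · intro hz
        exact ⟨by rintro rfl; exact hlR.2 hz, hB0.1 hz⟩
      · rintro ⟨h5, h6⟩
        by_contra h7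
        have : z ∈ R \ B 0 := Finset.mem_sdiff.2 ⟨h6, h7⟩
        rw [hl, Finset.mem_singleton] at this
        exact h5 this
    refine ⟨l, ?_, heq⟩
    rw [mem_I0]
    refine ⟨hlR.1, ?_⟩
    rw [← heq]
    exact ⟨hgB, hB0.2⟩
  have h3 : ((SS k (Fin 1) R).filter (fun B => g (B 0))).image (fun B => B 0) ⊆
      (I0 k g R).image (fun l => R.erase l) := by
    intro f hf
    rw [Finset.mem_image] at hf
    obtain ⟨B, hB, rfl⟩ := hf
    obtain ⟨l, hl, he⟩ := h2 B hB
    exact Finset.mem_image.2 ⟨l, hl, he.symm⟩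
  have h4 := (Finset.card_le_card h3).trans Finset.card_image_le
  rw [Finset.card_image_of_injective] at h4
  · exact h4
  · intro B B' h
    funext a
    rw [Subsingleton.elim a 0]
    exact h

/-- predicate for one block -/
def Q1 (cc : Fin 1 → Fin c.T) (θ : ℝ) (A : Fin c.T → Finset U) : Prop :=
  c.ν (cc 0) (A (cc 0)) ∉ c.RS (c.G A) ∧ ¬ G1 c.k θ (c.gA A (cc 0)) (rest cc c.V A)

open Classical in
/-- the bound for one block -/
lemma exch_one_aux {θ : ℝ} (hθ : 0 ≤ θ) (cc : Fin 1 → Fin c.T) :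
    ((c.SQ.filter (c.Q1 cc θ)).card : ℝ) ≤ θ * c.SQ.card := by
  have hcc : Function.Injective cc := by
    intro x y _; exact Subsingleton.elim _ _
  have hT : 1 ≤ c.T := by have := (cc 0).isLt; omega
  have hTc : Fintype.card (Fin 1) ≤ Fintype.card (Fin c.T) := by
    rw [Fintype.card_fin, Fintype.card_fin]; exact hT
  have hVc : Fintype.card (Fin c.T) * c.k ≤ c.V.card := by
    rw [Fintype.card_fin, c.hV]; omega
  unfold SQ
  refine resample_le hcc (c.Q1 cc θ) θ hVc hTc ?_
  intro A hA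
  have hRc : (rest cc c.V A).card = c.k + 1 := by
    rw [card_rest hcc hA, c.hV, Fintype.card_fin, Fintype.card_fin]
    have h2 : c.T * c.k = (c.T - 1) * c.k + c.k := by
      conv_lhs => rw [show c.T = (c.T - 1) + 1 by omega]
      ring
    omega
  have hSS : (SS c.k (Fin 1) (rest cc c.V A)).card = c.k + 1 := by
    rw [card_SS_fin, hRc, NN_one, Nat.choose_succ_self_right]
  rw [hSS]
  obtain ⟨g, hg⟩ : ∃ g : Finset U → Prop, g = fun f => c.ν (cc 0) f ∉ c.RS (c.GO cc A) := ⟨_, rfl⟩
  have hmain : ∀ B ∈ (SS c.k (Fin 1) (rest cc c.V A)), c.Q1 cc θ (Function.extend cc B A) →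
      g (B 0) ∧ ¬ G1 c.k θ g (rest cc c.V A) := by
    rintro B hB ⟨h1, h2⟩
    have h1' : ∀ a, c.ν (cc a) (Function.extend cc B A (cc a)) ∉ c.RS (c.G (Function.extend cc B A)) := by
      intro a; rw [Subsingleton.elim a 0]; exact h1
    have hf := c.fwd h1'
    rw [GO_extend] at hf
    have e0 : Function.extend cc B A (cc 0) = B 0 := hcc.extend_apply B A 0
    have e1 : rest cc c.V (Function.extend cc B A) = rest cc c.V A :=
      rest_congr (fun b' hb => extend_off b' hb)
    have e2 : c.gA (Function.extend cc B A) (cc 0) = g := by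
      unfold gA
      rw [← hf.1, hg]
    rw [e1, e2] at h2
    refine ⟨?_, h2⟩
    rw [hg]
    rw [e0, ← hf.1] at h1
    exact h1
  by_cases hG1 : G1 c.k θ g (rest cc c.V A)
  · rw [Finset.filter_false_of_mem (fun B hB h => (hmain B hB h).2 hG1)]
    simp only [Finset.card_empty, Nat.cast_zero]
    positivity
  · unfold G1 at hG1
    push Not at hG1
    have h5 := one_block_count c.k g _ hRc
    have h7 : (((SS c.k (Fin 1) (rest cc c.V A)).filter
        (fun B => c.Q1 cc θ (Function.extend cc B A))).card) ≤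
        (I0 c.k g (rest cc c.V A)).card := by
      refine (Finset.card_le_card ?_).trans h5
      intro B hB
      have hB' := Finset.mem_filter.1 hB
      exact Finset.mem_filter.2 ⟨hB'.1, (hmain B hB'.1 hB'.2).1⟩
    have h8 : (((SS c.k (Fin 1) (rest cc c.V A)).filter
        (fun B => c.Q1 cc θ (Function.extend cc B A))).card : ℝ) ≤
        ((I0 c.k g (rest cc c.V A)).card : ℝ) := by exact_mod_cast h7
    rw [Nat.cast_add, Nat.cast_one]
    exact h8.trans hG1.le

/-- predicate for one block -/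
def Q2 (θ : ℝ) (b : Fin c.T) (A : Fin c.T → Finset U) : Prop :=
  c.ν b (A b) ∉ c.RS (c.G A) ∧ c.low θ A b

open Classical in
lemma exch_one {θ : ℝ} (hθ : 0 ≤ θ) (b : Fin c.T) :
    ((c.SQ.filter (c.Q2 θ b)).card : ℝ) ≤ θ * c.SQ.card := by
  have h := c.exch_one_aux hθ (fun _ => b)
  have : c.SQ.filter (c.Q2 θ b) = c.SQ.filter (c.Q1 (fun _ => b) θ) := by
    apply Finset.filter_congr
    intro A _
    unfold Q1 Q2 low
    rfl
  rw [this]; exact h

lemma rest_last {L : ℕ} {cc : Fin (L+1) → Fin c.T} (hcc : Function.Injective cc) (A : Fin c.T → Finset U) :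
    rest cc c.V A \ (univ.biUnion (fun a : Fin L => A (cc a.castSucc))) =
      rest (fun _ : Fin 1 => cc (Fin.last L)) c.V A := by
  unfold rest
  ext x
  simp only [Finset.mem_sdiff, Finset.mem_biUnion, Finset.mem_univ, true_and, Finset.mem_image, not_exists,
    not_and]
  constructor
  · rintro ⟨⟨h1, h2⟩, h3⟩
    refine ⟨h1, ?_⟩
    intro b hb
    by_cases hbr : ∃ a, cc a = b
    · obtain ⟨a, rfl⟩ := hbr
      rcases Fin.eq_castSucc_or_eq_last a with ⟨a', rfl⟩ | rfl
      · exact h3 a'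
      · exact absurd rfl (hb 0)
    · push Not at hbr
      exact h2 b hbr
  · rintro ⟨h1, h2⟩
    refine ⟨⟨h1, ?_⟩, ?_⟩
    · intro b hb
      exact h2 b (fun _ => hb _)
    · intro a
      apply h2
      intro _ h
      have := hcc h
      exact (Fin.castSucc_lt_last a).ne this.symm

end Ctx

end Pool.Agent.H561R2.SC
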