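import Mathlib
import Pool.Agent.H561R2.SC.Exch
import Pool.Agent.H561R2.SC.Avg

set_option autoImplicit false

namespace Pool.Agent.H561R2.SC

open Finset

variable {U X : Type} [DecidableEq U] [DecidableEq X]

namespace Ctx

variable (c : Ctx U X)

/-- elements not covered by the read blocks -/
noncomputable def Wt (A : Fin c.T → Finset U) : Finset U := c.V \ (c.rd A).biUnion A

/-- almost all uncovered elements can be missing -/
def Good (ε2 : ℝ) (A : Fin c.T → Finset U) : Prop :=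
  ((c.Wt A \ c.Iv (c.vs (c.G A))).card : ℝ) < ε2 * (c.T * c.k)

open Classical in
/-- the unread low blocks -/
noncomputable def Lo (θ : ℝ) (A : Fin c.T → Finset U) : Finset (Fin c.T) :=
  univ.filter (fun b => c.Q2 θ b A)

lemma mem_rd {A : Fin c.T → Finset U} {b : Fin c.T} : b ∈ c.rd A ↔ c.ν b (A b) ∈ c.RS (c.G A) := by
  classical
  unfold rd
  rw [Finset.mem_filter]
  simp

lemma Wt_sub {A : Fin c.T → Finset U} (hA : A ∈ c.SQ) :
    c.Wt A \ c.Iv (c.vs (c.G A)) ⊆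
      (univ \ c.rd A).biUnion (fun b => A b \ c.Iv (c.vs (c.G A))) := by
  intro x hx
  rw [Finset.mem_sdiff] at hx
  obtain ⟨hxW, hxI⟩ := hx
  unfold Wt at hxW
  rw [Finset.mem_sdiff] at hxW
  obtain ⟨hxV, hxr⟩ := hxW
  have h1 : ∃ b, x ∈ A b := by
    by_contra hno
    apply hxI
    rw [mem_Iv]
    refine ⟨hxV, A, hA, rfl, ?_⟩
    unfold miss
    rw [Finset.mem_sdiff]
    refine ⟨hxV, ?_⟩
    rw [Finset.mem_biUnion]
    rintro ⟨b, _, hb⟩
    exact hno ⟨b, hb⟩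
  obtain ⟨b, hb⟩ := h1
  rw [Finset.mem_biUnion]
  refine ⟨b, Finset.mem_sdiff.2 ⟨Finset.mem_univ _, ?_⟩, Finset.mem_sdiff.2 ⟨hb, hxI⟩⟩
  intro hbr
  exact hxr (Finset.mem_biUnion.2 ⟨b, hbr, hb⟩)

lemma card_unread {A : Fin c.T → Finset U} (hA : A ∈ c.SQ) :
    (c.T:ℝ) - c.m ≤ ((univ \ c.rd A).card : ℝ) := by
  have h1 := c.card_rd_le hA
  rw [Finset.card_sdiff_of_subset (Finset.subset_univ _), Finset.card_univ, Fintype.card_fin]
  have h2 : (c.rd A).card ≤ c.T := by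
    have := Finset.card_le_univ (c.rd A)
    simpa using this
  rw [Nat.cast_sub h2]
  have h3 : ((c.rd A).card : ℝ) ≤ c.m := by exact_mod_cast h1
  linarith

/-- injective and Q -/
def QI {L : ℕ} (cc : Fin (L+1) → Fin c.T) (θ ξ : ℝ) (A : Fin c.T → Finset U) : Prop :=
  Function.Injective cc ∧ c.Q cc θ ξ A

open Classical in
/-- a bad sequence has many good tuples -/
lemma bad_tuples {θ ε2 : ℝ} {L : ℕ} (hε2 : 0 < ε2) (hm : 2 * c.m ≤ c.T)
    (hT : ((L:ℝ)+1)^2 ≤ ε2/8 * ((c.T:ℝ) - c.m)) {A : Fin c.T → Finset U} (hA : A ∈ c.SQ)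
    (hbad : ¬ c.Good ε2 A) (hLo : ((c.Lo θ A).card : ℝ) ≤ ε2/16 * c.T) :
    ε2/4 * ((c.T:ℝ) - c.m)^(L+1) ≤ (((univ : Finset (Fin (L+1) → Fin c.T)).filter
      (fun cc => c.QI cc θ (ε2/4) A)).card : ℝ) := by
  set I := c.Iv (c.vs (c.G A)) with hI
  set P := (univ : Finset (Fin c.T)) \ c.rd A with hP
  have hPc := c.card_unread hA
  rw [← hP] at hPc
  have hmT : (c.m:ℝ) ≤ c.T := by exact_mod_cast c.hmT
  have hm' : 2 * (c.m:ℝ) ≤ c.T := by exact_mod_cast hm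
  have hk1 : (1:ℝ) ≤ c.k := by exact_mod_cast c.hk
  have hPT : (P.card : ℝ) ≤ c.T := by
    have : P.card ≤ (univ : Finset (Fin c.T)).card := Finset.card_le_card (Finset.subset_univ _)
    rw [Finset.card_univ, Fintype.card_fin] at this
    exact_mod_cast this
  unfold Good at hbad
  push Not at hbad
  rw [← hI] at hbad
  have hsum : ε2 * c.k * P.card ≤ ∑ b ∈ P, ((A b \ I).card : ℝ) := by
    have h1 := (Finset.card_le_card (c.Wt_sub hA)).trans Finset.card_biUnion_le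
    rw [← hP, ← hI] at h1
    have h2 : ((c.Wt A \ I).card : ℝ) ≤ ∑ b ∈ P, ((A b \ I).card : ℝ) := by exact_mod_cast h1
    have h3 : ε2 * c.k * P.card ≤ ε2 * (c.T * c.k) := by
      calc ε2 * c.k * P.card ≤ ε2 * c.k * c.T := mul_le_mul_of_nonneg_left hPT (by positivity)
        _ = _ := by ring
    exact h3.trans (hbad.trans h2)
  have hf1 : ∀ b ∈ P, ((A b \ I).card : ℝ) ≤ c.k := by
    intro b _
    have h1 := Finset.card_le_card (Finset.sdiff_subset (s := A b) (t := I))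
    rw [((mem_SS.1 hA).1 b).2] at h1
    exact_mod_cast h1
  have hLo' : ((c.Lo θ A).card : ℝ) ≤ ε2/8 * P.card := by
    refine hLo.trans ?_
    have : (c.T:ℝ) ≤ 2 * P.card := by linarith
    calc ε2/16 * c.T ≤ ε2/16 * (2 * P.card) := mul_le_mul_of_nonneg_left this (by positivity)
      _ = _ := by ring
  have hP2 : ((L:ℝ)+1)^2 ≤ ε2/8 * P.card :=
    hT.trans (mul_le_mul_of_nonneg_left hPc (by positivity))
  have hmain := good_tuples P (c.Lo θ A) L (fun b => ((A b \ I).card : ℝ)) hk1 hε2 hf1 hsum hLo' hP2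
  have hpow : ((c.T:ℝ) - c.m)^(L+1) ≤ (P.card:ℝ)^(L+1) := pow_le_pow_left₀ (by linarith) hPc _
  refine (mul_le_mul_of_nonneg_left hpow (by positivity)).trans (hmain.trans ?_)
  have hsub : (Fintype.piFinset (fun _ : Fin (L+1) => P)).filter
      (fun g => Function.Injective g ∧ g (Fin.last L) ∉ c.Lo θ A ∧
        ε2/4 * (((L:ℝ)+1)*c.k+1) ≤ ∑ a, ((A (g a) \ I).card : ℝ)) ⊆
      (univ : Finset (Fin (L+1) → Fin c.T)).filter
        (fun cc => c.QI cc θ (ε2/4) A) := by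
    intro g hg
    obtain ⟨hgP, hinj, hlast, hheavy⟩ := Finset.mem_filter.1 hg
    rw [Fintype.mem_piFinset] at hgP
    have hun : ∀ a, c.ν (g a) (A (g a)) ∉ c.RS (c.G A) := by
      intro a
      have h1 := hgP a
      rw [hP, Finset.mem_sdiff, mem_rd] at h1
      exact h1.2
    refine Finset.mem_filter.2 ⟨Finset.mem_univ _, hinj, hun, ?_, ?_⟩
    · refine hheavy.trans ?_
      have h2 : ∑ a, (A (g a) \ I).card = (univ.biUnion (fun a => A (g a) \ I)).card := by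
        rw [Finset.card_biUnion]
        intro a _ b _ hab
        exact Disjoint.mono Finset.sdiff_subset Finset.sdiff_subset
          ((mem_SS.1 hA).2 _ _ (fun h => hab (hinj h)))
      have h3 : univ.biUnion (fun a => A (g a) \ I) ⊆ rest g c.V A \ I := by
        intro x hx
        rw [Finset.mem_biUnion] at hx
        obtain ⟨a, _, hxa⟩ := hx
        rw [Finset.mem_sdiff] at hxa ⊢
        refine ⟨?_, hxa.2⟩
        have h4 := comp_mem hinj hA
        exact ((mem_SS.1 h4).1 a).1 hxa.1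
      have h5 := Finset.card_le_card h3
      rw [← h2] at h5
      exact_mod_cast h5
    · rw [c.rest_last hinj A]
      by_contra hno
      apply hlast
      unfold Lo
      rw [Finset.mem_filter]
      exact ⟨Finset.mem_univ _, hun _, hno⟩
  exact_mod_cast Finset.card_le_card hsub

/-- bad but not lowish -/
def BN (θ ε2 : ℝ) (A : Fin c.T → Finset U) : Prop :=
  ¬ c.Good ε2 A ∧ ((c.Lo θ A).card : ℝ) ≤ ε2/16 * c.T

open Classical in
lemma bn_count (p : Par) (hpk : p.k = c.k) {L : ℕ} (hL : L + 1 = p.K) {ε2 : ℝ}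
    (hξ : p.ε ≤ ε2/4 * (1-p.η)^L) (hε2 : 0 < ε2) (hm : 2 * c.m ≤ c.T)
    (hT : ((L:ℝ)+1)^2 ≤ ε2/8 * ((c.T:ℝ) - c.m))
    (hnum : (c.T:ℝ)^(L+1) * ((p.K / p.θ)^p.a * p.q^L + p.K * p.β) ≤
      ε2/16 * ((c.T:ℝ) - c.m)^(L+1)) :
    ((c.SQ.filter (c.BN p.θ ε2)).card : ℝ) ≤ c.SQ.card / 4 := by
  have hθ := p.hθ
  have hq0 := p.hq0
  have hβ0 := p.hβ0
  have hbnd0 : 0 ≤ (p.K / p.θ)^p.a * p.q^L + p.K * p.β := by positivity
  have h1 : ∀ cc : Fin (L+1) → Fin c.T, ((c.SQ.filter (c.QI cc p.θ (ε2/4))).card : ℝ) ≤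
      ((p.K / p.θ)^p.a * p.q^L + p.K * p.β) * c.SQ.card := by
    intro cc
    by_cases hinj : Function.Injective cc
    · have h2 := c.exch p hpk hL hinj hξ
      refine le_trans ?_ h2
      have : (c.SQ.filter (c.QI cc p.θ (ε2/4))).card ≤ (c.SQ.filter (c.Q cc p.θ (ε2/4))).card := by
        apply Finset.card_le_card
        intro A hA
        rw [Finset.mem_filter] at hA ⊢
        exact ⟨hA.1, hA.2.2⟩
      exact_mod_cast this
    · have : c.SQ.filter (c.QI cc p.θ (ε2/4)) = ∅ := by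
        rw [Finset.filter_eq_empty_iff]
        intro A _ h
        exact hinj h.1
      rw [this]
      simp only [Finset.card_empty, Nat.cast_zero]
      positivity
  have h2 : ∀ A ∈ c.SQ.filter (c.BN p.θ ε2), ε2/4 * ((c.T:ℝ) - c.m)^(L+1) ≤
      ((((univ : Finset (Fin (L+1) → Fin c.T)).filter (fun cc => c.QI cc p.θ (ε2/4) A)).card : ℕ) : ℝ) := by
    intro A hA
    rw [Finset.mem_filter] at hA
    obtain ⟨hAS, hbad, hLo⟩ := hA
    exact c.bad_tuples hε2 hm hT hAS hbad hLo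
  have h3 := Finset.sum_le_sum h2
  rw [Finset.sum_const, nsmul_eq_mul] at h3
  have h4 : ∑ A ∈ c.SQ.filter (c.BN p.θ ε2),
      (((univ : Finset (Fin (L+1) → Fin c.T)).filter (fun cc => c.QI cc p.θ (ε2/4) A)).card) ≤
      ∑ A ∈ c.SQ,
      (((univ : Finset (Fin (L+1) → Fin c.T)).filter (fun cc => c.QI cc p.θ (ε2/4) A)).card) :=
    Finset.sum_le_sum_of_subset (Finset.filter_subset _ _)
  have h5 : ∑ A ∈ c.SQ,
      (((univ : Finset (Fin (L+1) → Fin c.T)).filter (fun cc => c.QI cc p.θ (ε2/4) A)).card) =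
      ∑ cc : Fin (L+1) → Fin c.T, (c.SQ.filter (c.QI cc p.θ (ε2/4))).card := by
    simp_rw [Finset.card_filter]
    rw [Finset.sum_comm]
  have h6 : (∑ cc : Fin (L+1) → Fin c.T, ((c.SQ.filter (c.QI cc p.θ (ε2/4))).card : ℝ)) ≤
      (c.T:ℝ)^(L+1) * (((p.K / p.θ)^p.a * p.q^L + p.K * p.β) * c.SQ.card) := by
    refine (Finset.sum_le_sum (fun cc _ => h1 cc)).trans (le_of_eq ?_)
    rw [Finset.sum_const, Finset.card_univ, Fintype.card_fun, Fintype.card_fin, Fintype.card_fin,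
      nsmul_eq_mul]
    push_cast; ring
  have h7 : (∑ A ∈ c.SQ.filter (c.BN p.θ ε2),
      ((((univ : Finset (Fin (L+1) → Fin c.T)).filter (fun cc => c.QI cc p.θ (ε2/4) A)).card : ℕ) : ℝ)) ≤
      (∑ cc : Fin (L+1) → Fin c.T, ((c.SQ.filter (c.QI cc p.θ (ε2/4))).card : ℝ)) := by
    have := h4.trans (le_of_eq h5)
    exact_mod_cast this
  have h8 := h3.trans (h7.trans h6)
  have hTm : 0 < (c.T:ℝ) - c.m := by
    have h9 : 0 < ε2/8 * ((c.T:ℝ) - c.m) := lt_of_lt_of_le (by positivity) hT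
    by_contra hno
    push Not at hno
    have : ε2/8 * ((c.T:ℝ) - c.m) ≤ 0 := mul_nonpos_of_nonneg_of_nonpos (by positivity) hno
    linarith
  have hpow : 0 < ((c.T:ℝ) - c.m)^(L+1) := pow_pos hTm _
  have h10 : (c.T:ℝ)^(L+1) * (((p.K / p.θ)^p.a * p.q^L + p.K * p.β) * c.SQ.card) ≤
      (ε2/16 * ((c.T:ℝ) - c.m)^(L+1)) * c.SQ.card := by
    calc _ = ((c.T:ℝ)^(L+1) * ((p.K / p.θ)^p.a * p.q^L + p.K * p.β)) * c.SQ.card := by ring
      _ ≤ _ := mul_le_mul_of_nonneg_right hnum (by positivity)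
  have h11 := h8.trans h10
  have h12 : ((c.SQ.filter (c.BN p.θ ε2)).card : ℝ) * (ε2/4 * ((c.T:ℝ) - c.m)^(L+1)) ≤
      (c.SQ.card / 4) * (ε2/4 * ((c.T:ℝ) - c.m)^(L+1)) := by
    refine h11.trans (le_of_eq (by ring))
  exact le_of_mul_le_mul_right h12 (by positivity)

/-- lowish -/
def LW (θ lam : ℝ) (A : Fin c.T → Finset U) : Prop := lam * c.T < ((c.Lo θ A).card : ℝ)

open Classical in
lemma lw_count {θ lam : ℝ} (hθ : 0 ≤ θ) (hlam : 0 < lam) (hθl : θ ≤ lam/4) (hT : 1 ≤ c.T) :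
    ((c.SQ.filter (c.LW θ lam)).card : ℝ) ≤ c.SQ.card / 4 := by
  have h1 : ∑ A ∈ c.SQ, (c.Lo θ A).card = ∑ b : Fin c.T, (c.SQ.filter (c.Q2 θ b)).card := by
    unfold Lo
    simp_rw [Finset.card_filter]
    rw [Finset.sum_comm]
  have h2 : (∑ b : Fin c.T, ((c.SQ.filter (c.Q2 θ b)).card : ℝ)) ≤ c.T * (θ * c.SQ.card) := by
    refine (Finset.sum_le_sum (fun b _ => c.exch_one hθ b)).trans (le_of_eq ?_)
    rw [Finset.sum_const, Finset.card_univ, Fintype.card_fin, nsmul_eq_mul]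
  have h3 : (∑ A ∈ c.SQ, ((c.Lo θ A).card : ℝ)) = ∑ b : Fin c.T, ((c.SQ.filter (c.Q2 θ b)).card : ℝ) := by
    exact_mod_cast h1
  have h4 : ((c.SQ.filter (c.LW θ lam)).card : ℝ) * (lam * c.T) ≤ ∑ A ∈ c.SQ, ((c.Lo θ A).card : ℝ) := by
    calc ((c.SQ.filter (c.LW θ lam)).card : ℝ) * (lam * c.T) =
          ∑ A ∈ c.SQ.filter (c.LW θ lam), lam * c.T := by rw [Finset.sum_const, nsmul_eq_mul]
      _ ≤ ∑ A ∈ c.SQ.filter (c.LW θ lam), ((c.Lo θ A).card : ℝ) := by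
          apply Finset.sum_le_sum
          intro A hA
          have := (Finset.mem_filter.1 hA).2
          unfold LW at this
          exact this.le
      _ ≤ _ := by
          apply Finset.sum_le_sum_of_subset_of_nonneg (Finset.filter_subset _ _)
          intro A _ _
          positivity
  have hT' : (0:ℝ) < c.T := by exact_mod_cast hT
  rw [h3] at h4
  have h5 := h4.trans h2
  have h6 : (c.T:ℝ) * (θ * c.SQ.card) ≤ (c.SQ.card / 4) * (lam * c.T) := by
    calc (c.T:ℝ) * (θ * c.SQ.card) = θ * (c.T * c.SQ.card) := by ring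
      _ ≤ lam/4 * (c.T * c.SQ.card) := mul_le_mul_of_nonneg_right hθl (by positivity)
      _ = _ := by ring
  exact le_of_mul_le_mul_right (h5.trans h6) (by positivity)

open Classical in
/-- at least half of the sequences are good -/
theorem good_half (p : Par) (hpk : p.k = c.k) {L : ℕ} (hL : L + 1 = p.K) {ε2 : ℝ}
    (hξ : p.ε ≤ ε2/4 * (1-p.η)^L) (hε2 : 0 < ε2) (hm : 2 * c.m ≤ c.T)
    (hT : ((L:ℝ)+1)^2 ≤ ε2/8 * ((c.T:ℝ) - c.m)) (hθ : p.θ ≤ ε2/64)
    (hnum : (c.T:ℝ)^(L+1) * ((p.K / p.θ)^p.a * p.q^L + p.K * p.β) ≤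
      ε2/16 * ((c.T:ℝ) - c.m)^(L+1)) :
    (c.SQ.card : ℝ)/2 ≤ ((c.SQ.filter (c.Good ε2)).card : ℝ) := by
  have h1 := c.bn_count p hpk hL hξ hε2 hm hT hnum
  have hT1 : 1 ≤ c.T := by
    have h9 : 0 < ε2/8 * ((c.T:ℝ) - c.m) := lt_of_lt_of_le (by positivity) hT
    by_contra hno
    have h10 : c.T = 0 := by omega
    rw [h10] at h9
    have : (0:ℝ) ≤ c.m := by positivity
    have : ε2/8 * (((0:ℕ):ℝ) - c.m) ≤ 0 := by
      apply mul_nonpos_of_nonneg_of_nonpos (by positivity)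
      push_cast; linarith
    linarith
  have h2 := c.lw_count (θ := p.θ) (lam := ε2/16) p.hθ.le (by positivity) (by linarith) hT1
  have h3 : c.SQ ⊆ c.SQ.filter (c.Good ε2) ∪ (c.SQ.filter (c.BN p.θ ε2) ∪
      c.SQ.filter (c.LW p.θ (ε2/16))) := by
    intro A hA
    rw [Finset.mem_union, Finset.mem_union, Finset.mem_filter, Finset.mem_filter, Finset.mem_filter]
    by_cases hg : c.Good ε2 A
    · exact Or.inl ⟨hA, hg⟩
    · by_cases hl : ((c.Lo p.θ A).card : ℝ) ≤ ε2/16 * c.T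
      · exact Or.inr (Or.inl ⟨hA, hg, hl⟩)
      · push Not at hl
        exact Or.inr (Or.inr ⟨hA, hl⟩)
  have h4 := (Finset.card_le_card h3).trans (Finset.card_union_le _ _)
  have h5 := h4.trans (Nat.add_le_add_left (Finset.card_union_le _ _) _)
  have h6 : (c.SQ.card : ℝ) ≤ ((c.SQ.filter (c.Good ε2)).card : ℝ) +
      (((c.SQ.filter (c.BN p.θ ε2)).card : ℝ) + ((c.SQ.filter (c.LW p.θ (ε2/16))).card : ℝ)) := by
    exact_mod_cast h5
  linarith

end Ctx

end Pool.Agent.H561R2.SC
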