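import Mathlib
import Pool.Agent.H561R2.SC.Bad

set_option autoImplicit false

namespace Pool.Agent.H561R2.SC

open Finset

variable {U X : Type} [DecidableEq U] [DecidableEq X]

lemma NN_mono (k : ℕ) : ∀ (T : ℕ) {w w' : ℕ}, w ≤ w' → NN k T w ≤ NN k T w' := by
  intro T
  induction T with
  | zero => intro w w' _; exact le_rfl
  | succ T ih =>
    intro w w' h
    exact Nat.mul_le_mul (Nat.choose_le_choose k h) (ih (Nat.sub_le_sub_right h k))

open Classical in
lemma count_P {T : ℕ} (k : ℕ) (V Z : Finset U) (P : Finset (Fin T)) :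
    ((SS k (Fin T) V).filter (fun A => ∀ b ∈ P, A b ⊆ Z)).card ≤
      NN k P.card Z.card * NN k (T - P.card) (V.card - P.card * k) := by
  have h1 : ((SS k {b // b ∈ P} (V ∩ Z)).sigma
      (fun B => SS k {b // b ∉ P} (V \ univ.biUnion B))).card ≤
      NN k P.card Z.card * NN k (T - P.card) (V.card - P.card * k) := by
    rw [Finset.card_sigma]
    rw [Finset.sum_congr rfl (fun B hB => ?_) (g := fun _ => NN k (T - P.card) (V.card - P.card * k))]
    · rw [Finset.sum_const, smul_eq_mul, card_SS, Fintype.card_coe]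
      exact Nat.mul_le_mul_right _ (NN_mono k _ (Finset.card_le_card Finset.inter_subset_right))
    · rw [card_SS]
      have h2 : Fintype.card {b // b ∉ P} = T - P.card := by
        rw [Fintype.card_subtype_compl, Fintype.card_fin, Fintype.card_coe]
      have h3 : univ.biUnion B ⊆ V := (cov_subset hB _).trans Finset.inter_subset_left
      rw [h2, Finset.card_sdiff_of_subset h3, card_cov hB, Finset.card_univ, Fintype.card_coe]
  refine le_trans ?_ h1
  apply Finset.card_le_card_of_injOn (fun A => (⟨fun b => A b.1, fun b => A b.1⟩ :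
    Σ _ : ({b // b ∈ P} → Finset U), ({b // b ∉ P} → Finset U)))
  · intro A hA
    obtain ⟨hAS, hAZ⟩ := Finset.mem_filter.1 (Finset.mem_coe.1 hA)
    rw [mem_SS] at hAS
    apply Finset.mem_coe.2
    rw [Finset.mem_sigma, mem_SS, mem_SS]
    refine ⟨⟨fun a => ⟨Finset.subset_inter (hAS.1 _).1 (hAZ _ a.2), (hAS.1 _).2⟩,
      fun a b hab => hAS.2 _ _ (fun h => hab (Subtype.ext h))⟩, ⟨fun a => ⟨?_, (hAS.1 _).2⟩,
      fun a b hab => hAS.2 _ _ (fun h => hab (Subtype.ext h))⟩⟩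
    rw [Finset.subset_sdiff]
    refine ⟨(hAS.1 _).1, ?_⟩
    rw [Finset.disjoint_biUnion_right]
    intro b _
    apply hAS.2
    intro h
    apply a.2
    rw [h]; exact b.2
  · intro A _ A' _ h
    simp only [Sigma.mk.injEq, heq_eq_eq] at h
    funext b
    by_cases hb : b ∈ P
    · exact congrFun h.1 ⟨b, hb⟩
    · exact congrFun h.2 ⟨b, hb⟩

namespace Ctx

variable (c : Ctx U X)

lemma Iv_sub_Wt {A : Fin c.T → Finset U} (hA : A ∈ c.SQ) : c.Iv (c.vs (c.G A)) ⊆ c.Wt A := by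
  intro x hx
  unfold Wt
  rw [Finset.mem_sdiff]
  refine ⟨(c.mem_Iv.1 hx).1, ?_⟩
  rw [Finset.mem_biUnion]
  rintro ⟨b, hb, hxb⟩
  exact c.disj hA (c.mem_rd.1 hb) hx hxb

lemma card_Wt {A : Fin c.T → Finset U} (hA : A ∈ c.SQ) :
    (c.Wt A).card + (c.rd A).card * c.k = c.T * c.k + 1 := by
  unfold Wt
  rw [Finset.card_sdiff_of_subset (cov_subset hA _), card_cov hA, c.hV]
  have h2 : (c.rd A).card ≤ c.T := by
    have := Finset.card_le_univ (c.rd A)
    simpa using this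
  have := Nat.mul_le_mul_right c.k h2
  omega

/-- a good sequence does not stop at a leaf -/
lemma good_nonleaf {ε2 : ℝ} (hε2 : ε2 * c.T ≤ (c.T:ℝ) - c.m) {A : Fin c.T → Finset U} (hA : A ∈ c.SQ)
    (hg : c.Good ε2 A) : c.D.rule (c.vs (c.G A)) ≠ none := by
  intro h
  have h1 := c.early hA h
  have h2 := Finset.card_le_card h1
  rw [c.card_miss hA] at h2
  have h3 := c.card_Wt hA
  have h4 := c.card_rd_le hA
  have h5 := Finset.card_sdiff_add_card_inter (c.Wt A) (c.Iv (c.vs (c.G A)))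
  have h6 : (c.Wt A ∩ c.Iv (c.vs (c.G A))).card ≤ 1 :=
    (Finset.card_le_card Finset.inter_subset_right).trans h2
  unfold Good at hg
  have h7 : (c.T:ℝ) * c.k - c.m * c.k ≤ ((c.Wt A \ c.Iv (c.vs (c.G A))).card : ℝ) := by
    have h8 : c.T * c.k ≤ (c.Wt A \ c.Iv (c.vs (c.G A))).card + c.m * c.k := by
      have h9 := Nat.mul_le_mul_right c.k h4
      omega
    have h8r : (c.T:ℝ) * c.k ≤ ((c.Wt A \ c.Iv (c.vs (c.G A))).card : ℝ) + c.m * c.k := by
      exact_mod_cast h8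
    linarith
  have h9 : ε2 * (c.T * c.k) ≤ (c.T:ℝ) * c.k - c.m * c.k := by
    have hk : (0:ℝ) ≤ c.k := by positivity
    calc ε2 * (c.T * c.k) = (ε2 * c.T) * c.k := by ring
      _ ≤ ((c.T:ℝ) - c.m) * c.k := mul_le_mul_of_nonneg_right hε2 hk
      _ = _ := by ring
  linarith

/-- the elements never missing at `v` -/
noncomputable def Zv (v : Fin c.s) : Finset U := c.V \ c.Iv v

lemma card_Zv {ε2 : ℝ} (hε0 : 0 ≤ ε2) {A : Fin c.T → Finset U} (hA : A ∈ c.SQ) (hg : c.Good ε2 A) :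
    (c.Zv (c.vs (c.G A))).card ≤ c.m * c.k + ⌊ε2 * (c.T * c.k)⌋₊ := by
  have h1 : c.Zv (c.vs (c.G A)) ⊆ (c.Wt A \ c.Iv (c.vs (c.G A))) ∪ (c.rd A).biUnion A := by
    intro x hx
    unfold Zv at hx
    rw [Finset.mem_sdiff] at hx
    rw [Finset.mem_union, Finset.mem_sdiff]
    by_cases h : x ∈ (c.rd A).biUnion A
    · exact Or.inr h
    · left
      refine ⟨?_, hx.2⟩
      unfold Wt
      exact Finset.mem_sdiff.2 ⟨hx.1, h⟩
  have h2 := (Finset.card_le_card h1).trans (Finset.card_union_le _ _)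
  rw [card_cov hA] at h2
  have h3 := Nat.mul_le_mul_right c.k (c.card_rd_le hA)
  have h4 : (c.Wt A \ c.Iv (c.vs (c.G A))).card ≤ ⌊ε2 * (c.T * c.k)⌋₊ := by
    apply Nat.le_floor
    exact (le_of_lt hg)
  omega

open Classical in
lemma count_v {ε2 : ℝ} (hε0 : 0 ≤ ε2) (hε2 : ε2 * c.T ≤ (c.T:ℝ) - c.m) (v : Fin c.s) :
    ((c.SQ.filter (c.Good ε2)).filter (fun A => c.vs (c.G A) = v)).card ≤
      c.T.choose c.m * (NN c.k c.m (c.m * c.k + ⌊ε2 * (c.T * c.k)⌋₊) *
        NN c.k (c.T - c.m) (c.T*c.k+1 - c.m*c.k)) := by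
  rcases Finset.eq_empty_or_nonempty ((c.SQ.filter (c.Good ε2)).filter
    (fun A => c.vs (c.G A) = v)) with he | ⟨A0, hA0⟩
  · rw [he]; simp
  obtain ⟨hA0', hv0⟩ := Finset.mem_filter.1 hA0
  obtain ⟨hA0S, hg0⟩ := Finset.mem_filter.1 hA0'
  have hZ := c.card_Zv hε0 hA0S hg0
  rw [hv0] at hZ
  have h1 : (c.SQ.filter (c.Good ε2)).filter (fun A => c.vs (c.G A) = v) ⊆
      ((univ : Finset (Fin c.T)).powersetCard c.m).biUnion
        (fun P => (SS c.k (Fin c.T) c.V).filter (fun A => ∀ b ∈ P, A b ⊆ c.Zv v)) := by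
    intro A hA
    obtain ⟨hA', hv⟩ := Finset.mem_filter.1 hA
    obtain ⟨hAS, hg⟩ := Finset.mem_filter.1 hA'
    rw [Finset.mem_biUnion]
    refine ⟨c.rd A, ?_, ?_⟩
    · rw [Finset.mem_powersetCard]
      exact ⟨Finset.subset_univ _, c.card_rd_eq hAS (c.good_nonleaf hε2 hAS hg)⟩
    · refine Finset.mem_filter.2 ⟨hAS, ?_⟩
      intro b hb x hx
      unfold Zv
      rw [Finset.mem_sdiff]
      refine ⟨((mem_SS.1 hAS).1 b).1 hx, ?_⟩
      intro hxI
      rw [← hv] at hxI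
      exact c.disj hAS (c.mem_rd.1 hb) hxI hx
  refine (Finset.card_le_card h1).trans (Finset.card_biUnion_le.trans ?_)
  have h2 : ∀ P ∈ (univ : Finset (Fin c.T)).powersetCard c.m,
      ((SS c.k (Fin c.T) c.V).filter (fun A => ∀ b ∈ P, A b ⊆ c.Zv v)).card ≤
      NN c.k c.m (c.m * c.k + ⌊ε2 * (c.T * c.k)⌋₊) *
        NN c.k (c.T - c.m) (c.T*c.k+1 - c.m*c.k) := by
    intro P hP
    rw [Finset.mem_powersetCard] at hP
    have h3 := count_P c.k c.V (c.Zv v) P
    rw [hP.2, c.hV] at h3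
    exact h3.trans (Nat.mul_le_mul_right _ (NN_mono _ _ hZ))
  refine (Finset.sum_le_sum h2).trans (le_of_eq ?_)
  rw [Finset.sum_const, Finset.card_powersetCard, Finset.card_univ, Fintype.card_fin, smul_eq_mul]

open Classical in
/-- the counting bound -/
theorem main_count {ε2 : ℝ} (hε0 : 0 ≤ ε2) (hε2 : ε2 * c.T ≤ (c.T:ℝ) - c.m)
    (hhalf : (c.SQ.card : ℝ)/2 ≤ ((c.SQ.filter (c.Good ε2)).card : ℝ)) :
    (c.T*c.k+1).choose (c.m*c.k) ≤ 2 * c.s * c.T.choose c.m *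
      (c.m * c.k + ⌊ε2 * (c.T * c.k)⌋₊).choose (c.m*c.k) := by
  set z := c.m * c.k + ⌊ε2 * (c.T * c.k)⌋₊ with hz
  set N2 := NN c.k (c.T - c.m) (c.T*c.k+1 - c.m*c.k) with hN2
  have h1 : (c.SQ.filter (c.Good ε2)).card = ∑ v : Fin c.s,
      ((c.SQ.filter (c.Good ε2)).filter (fun A => c.vs (c.G A) = v)).card :=
    Finset.card_eq_sum_card_fiberwise (fun A _ => Finset.mem_coe.2 (Finset.mem_univ _))
  have h2 : (c.SQ.filter (c.Good ε2)).card ≤ c.s * (c.T.choose c.m * (NN c.k c.m z * N2)) := by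
    rw [h1]
    refine (Finset.sum_le_sum (fun v _ => c.count_v hε0 hε2 v)).trans (le_of_eq ?_)
    rw [Finset.sum_const, Finset.card_univ, Fintype.card_fin, smul_eq_mul]
  have h3 : c.SQ.card = NN c.k c.m (c.T*c.k+1) * N2 := by
    have h4 := NN_add c.k c.m (c.T - c.m) (c.T*c.k+1)
    rw [Nat.add_sub_cancel' c.hmT] at h4
    unfold SQ
    rw [card_SS_fin, c.hV, h4]
  have hN2pos : 0 < N2 := by
    apply NN_pos
    rw [Nat.sub_mul]
    have := Nat.mul_le_mul_right c.k c.hmT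
    omega
  have h5 : c.SQ.card ≤ 2 * (c.SQ.filter (c.Good ε2)).card := by
    have : (c.SQ.card : ℝ) ≤ 2 * ((c.SQ.filter (c.Good ε2)).card : ℝ) := by linarith
    exact_mod_cast this
  have h6 : NN c.k c.m (c.T*c.k+1) * N2 ≤ (2 * c.s * c.T.choose c.m * NN c.k c.m z) * N2 := by
    calc NN c.k c.m (c.T*c.k+1) * N2 = c.SQ.card := h3.symm
      _ ≤ 2 * (c.SQ.filter (c.Good ε2)).card := h5
      _ ≤ 2 * (c.s * (c.T.choose c.m * (NN c.k c.m z * N2))) := Nat.mul_le_mul_left _ h2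
      _ = _ := by ring
  have h7 := Nat.le_of_mul_le_mul_right h6 hN2pos
  have h8 := Nat.mul_le_mul_right (c.k.factorial ^ c.m) h7
  rw [NN_fact, mul_assoc, NN_fact, Nat.descFactorial_eq_factorial_mul_choose,
    Nat.descFactorial_eq_factorial_mul_choose] at h8
  have h9 : (c.m*c.k).factorial * (c.T*c.k+1).choose (c.m*c.k) ≤
      (c.m*c.k).factorial * (2 * c.s * c.T.choose c.m * z.choose (c.m*c.k)) := by
    calc _ ≤ _ := h8
      _ = _ := by ring
  exact Nat.le_of_mul_le_mul_left h9 (Nat.factorial_pos _)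

end Ctx

end Pool.Agent.H561R2.SC
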