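import Mathlib
import Pool.Agent.H561R2.SC.Star

set_option autoImplicit false

namespace Pool.Agent.H561R2.SC

open Finset

lemma choose_step {n M : ℕ} (h : n ≤ 3*M+2) : ∀ j : ℕ, n.choose (M+j) ≤ 2^j * n.choose M := by
  intro j
  induction j with
  | zero => simp
  | succ j ih =>
    have h1 := Nat.choose_succ_right_eq n (M+j)
    have h2 : n - (M+j) ≤ 2 * (M+j+1) := by omega
    have h3 : n.choose (M+j+1) * (M+j+1) ≤ (2 * n.choose (M+j)) * (M+j+1) := by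
      rw [h1]
      calc n.choose (M+j) * (n - (M+j)) ≤ n.choose (M+j) * (2 * (M+j+1)) := Nat.mul_le_mul_left _ h2
        _ = _ := by ring
    have h4 := Nat.le_of_mul_le_mul_right h3 (by omega)
    calc n.choose (M+(j+1)) ≤ 2 * n.choose (M+j) := h4
      _ ≤ 2 * (2^j * n.choose M) := Nat.mul_le_mul_left _ ih
      _ = _ := by rw [pow_succ]; ring

lemma two_pow_le (n : ℕ) : 2^n ≤ (n+1) * n.choose (n/2) := by
  rw [← Nat.sum_range_choose n]
  refine (Finset.sum_le_sum (fun i _ => Nat.choose_le_middle i n)).trans (le_of_eq ?_)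
  rw [Finset.sum_const, Finset.card_range, smul_eq_mul]

lemma choose_exp {M w : ℕ} {x e : ℝ} (he0 : 0 < e) (he1 : e ≤ 1) (hx : 0 ≤ x)
    (hMw : (M:ℝ) + w ≤ x) (hw : (w:ℝ) ≤ e * x) :
    (((M+w).choose M : ℕ) : ℝ) ≤ Real.exp (e * x * (1 + Real.log (1/e))) := by
  have h1 : (M+w).choose M = (M+w).choose w := by
    rw [Nat.choose_symm_add]
  rw [h1]
  have h2 : (((M+w).choose w : ℕ) : ℝ) ≤ ((M+w : ℕ):ℝ)^w / (w.factorial : ℝ) := Nat.choose_le_pow_div w (M+w)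
  have h3 : ((M+w : ℕ):ℝ)^w / (w.factorial : ℝ) ≤ x^w / (w.factorial : ℝ) := by
    apply div_le_div_of_nonneg_right _ (by positivity)
    apply pow_le_pow_left₀ (by positivity)
    push_cast; exact hMw
  have h4 : x^w / (w.factorial : ℝ) = (1/e)^w * ((e*x)^w / (w.factorial : ℝ)) := by
    rw [mul_pow, one_div, inv_pow]
    field_simp
  have h5 : (e*x)^w / (w.factorial : ℝ) ≤ Real.exp (e*x) :=
    Real.pow_div_factorial_le_exp (e*x) (by positivity) w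
  have h6 : (1/e)^w ≤ Real.exp (e * x * Real.log (1/e)) := by
    have h7 : (1/e)^w = Real.exp (w * Real.log (1/e)) := by
      rw [mul_comm, Real.exp_mul, Real.exp_log (by positivity), Real.rpow_natCast]
    rw [h7, Real.exp_le_exp]
    apply mul_le_mul_of_nonneg_right hw
    apply Real.log_nonneg
    rw [le_div_iff₀ he0]; linarith
  calc (((M+w).choose w : ℕ) : ℝ) ≤ (1/e)^w * ((e*x)^w / (w.factorial : ℝ)) := (h2.trans h3).trans (le_of_eq h4)
    _ ≤ Real.exp (e * x * Real.log (1/e)) * Real.exp (e*x) :=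
        mul_le_mul h6 h5 (by positivity) (Real.exp_pos _).le
    _ = _ := by rw [← Real.exp_add]; congr 1; ring

lemma num_aux {ε ℓ x k T n hm lg ls : ℝ} (hε0 : 0 < ε) (hε1 : ε ≤ 1) (hl1 : 0.6931 < ℓ)
    (hl2 : ℓ < 0.6932) (hx : 0 ≤ x) (hk0 : 0 < k) (hhm : hm ≤ 1/2 + (ε/8)*x + k)
    (hTe : T ≤ (ε/8)*x) (hnr : n ≤ x + k) (hTl : lg + (2*k+3) ≤ ε/16*x)
    (hlog : (x+1)*ℓ ≤ lg + (hm*ℓ + (ℓ + ls + T*ℓ + 3*(ε/100)*x))) :
    (1-ε)*n*ℓ ≤ ls := by
  have hℓ0 : 0 < ℓ := by linarith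
  have e1 : hm * ℓ ≤ (1/2 + (ε/8)*x + k)*ℓ := mul_le_mul_of_nonneg_right hhm hℓ0.le
  have e2 : T*ℓ ≤ ((ε/8)*x)*ℓ := mul_le_mul_of_nonneg_right hTe hℓ0.le
  have e3 : (1-ε)*n*ℓ ≤ (1-ε)*(x+k)*ℓ := by
    apply mul_le_mul_of_nonneg_right _ hℓ0.le
    exact mul_le_mul_of_nonneg_left hnr (by linarith)
  have e4 : (1-ε)*(x+k)*ℓ ≤ ((1-ε)*x + k)*ℓ := by
    apply mul_le_mul_of_nonneg_right _ hℓ0.le
    have : 0 ≤ ε*k := by positivity
    linarith
  have e5 : 3*(ε/100)*x ≤ ((ε/8)*ℓ)*x := by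
    apply mul_le_mul_of_nonneg_right _ hx
    have : ε*0.6931 ≤ ε*ℓ := mul_le_mul_of_nonneg_left hl1.le hε0.le
    linarith
  have e6 : (2*k+1/2)*ℓ ≤ 2*k+3 := by
    have : (2*k+1/2)*ℓ ≤ (2*k+1/2)*1 := mul_le_mul_of_nonneg_left (by linarith) (by positivity)
    linarith
  have e7 : ε/16*x ≤ ((ε - 3*(ε/8))*ℓ)*x := by
    apply mul_le_mul_of_nonneg_right _ hx
    have : ε*0.6931 ≤ ε*ℓ := mul_le_mul_of_nonneg_left hl1.le hε0.le
    linarith
  linarith

/-- the final numerical estimate -/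
theorem numeric {ε : ℝ} (hε0 : 0 < ε) (hε1 : ε ≤ 1) {k T m n s : ℕ} (hk : 8/ε ≤ k)
    (hn2 : n ≤ (T+1)*k) (hm1 : (1/2-ε/8)*T - 1 ≤ m) (hm2 : (m:ℝ) ≤ (1/2-ε/8)*T)
    (hT6 : 24 ≤ T)
    (hTl : Real.log ((T*k:ℝ)+2) + (2*k+3) ≤ ε/16*(T*k))
    (hcount : (T*k+1).choose (m*k) ≤ 2 * s * T.choose m *
      (m*k + ⌊(ε/100)^2 * (T * k)⌋₊).choose (m*k)) :
    (2:ℝ)^((1-ε)*n) ≤ s := by
  have hkpos : (0:ℝ) < k := lt_of_lt_of_le (by positivity) hk
  have hTr : (24:ℝ) ≤ T := by exact_mod_cast hT6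
  have hTk : (0:ℝ) ≤ (T:ℝ)*k := by positivity
  have hl1 : 0.6931 < Real.log 2 := by have := Real.log_two_gt_d9; linarith
  have hl2 : Real.log 2 < 0.6932 := by have := Real.log_two_lt_d9; linarith
  -- m*k ≤ half
  have hmk : m * k ≤ (T*k+1)/2 := by
    rw [Nat.le_div_iff_mul_le (by norm_num)]
    have : (m:ℝ)*k*2 ≤ T*k+1 := by
      have h1 : (m:ℝ) ≤ (1/2)*T := by nlinarith
      have h2 : (m:ℝ)*k ≤ (1/2)*T*k := mul_le_mul_of_nonneg_right h1 hkpos.le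
      linarith
    exact_mod_cast this
  have h3M : T*k+1 ≤ 3*(m*k)+2 := by
    have h1 : (T:ℝ) ≤ 3*m := by
      have h2 : (1/2-ε/8)*(T:ℝ) ≥ (3/8)*T := by nlinarith
      linarith
    have h2 : (T:ℝ)*k ≤ 3*(m*k) := by
      calc (T:ℝ)*k ≤ (3*m)*k := mul_le_mul_of_nonneg_right h1 hkpos.le
        _ = _ := by ring
    have h3 : T*k ≤ 3*(m*k) := by exact_mod_cast h2
    omega
  set h := (T*k+1)/2 with hh
  have hA := two_pow_le (T*k+1)
  rw [← hh] at hA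
  have hB := choose_step h3M (h - m*k)
  rw [Nat.add_sub_cancel' hmk] at hB
  set w := ⌊(ε/100)^2 * (T * k : ℝ)⌋₊ with hw
  have hwle : (w:ℝ) ≤ (ε/100)^2 * (T*k) := Nat.floor_le (by positivity)
  have hC := choose_exp (M := m*k) (w := w) (x := (T:ℝ)*k) (e := (ε/100)^2) (by positivity)
    (by nlinarith) hTk (by
      push_cast
      have h1 : (m:ℝ)*k ≤ (1/2)*(T*k) := by
        have h2 : (m:ℝ) ≤ (1/2)*T := by nlinarith
        calc (m:ℝ)*k ≤ (1/2)*T*k := mul_le_mul_of_nonneg_right h2 hkpos.le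
          _ = _ := by ring
      have h3 : (ε/100)^2 ≤ 1/2 := by nlinarith
      have h4 : (ε/100)^2 * (T*k) ≤ 1/2 * ((T:ℝ)*k) := mul_le_mul_of_nonneg_right h3 hTk
      linarith) hwle
  have hlogb : (ε/100)^2 * ((T:ℝ)*k) * (1 + Real.log (1/(ε/100)^2)) ≤ 3*(ε/100)*(T*k) := by
    have h1 : Real.log (1/(ε/100)^2) = 2 * Real.log (100/ε) := by
      rw [show 1/(ε/100)^2 = (100/ε)^2 by field_simp, Real.log_pow]; push_cast; ring
    have h2 : Real.log (100/ε) ≤ 100/ε - 1 := Real.log_le_sub_one_of_pos (by positivity)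
    rw [h1]
    have h3 : 1 + 2 * Real.log (100/ε) ≤ 2*(100/ε) := by linarith
    have h4 : (ε/100)^2 * ((T:ℝ)*k) * (1 + 2 * Real.log (100/ε)) ≤
        (ε/100)^2 * ((T:ℝ)*k) * (2*(100/ε)) := mul_le_mul_of_nonneg_left h3 (by positivity)
    refine h4.trans ?_
    have h5 : (ε/100)^2 * ((T:ℝ)*k) * (2*(100/ε)) = 2*(ε/100)*(T*k) := by field_simp
    rw [h5]
    have : 0 ≤ (ε/100)*((T:ℝ)*k) := by positivity
    linarith
  have hC' : (((m*k+w).choose (m*k) : ℕ) : ℝ) ≤ Real.exp (3*(ε/100)*(T*k)) :=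
    hC.trans (Real.exp_le_exp.2 hlogb)
  -- combine
  have hs0 : 0 < s := by
    rcases Nat.eq_zero_or_pos s with h0 | h0
    · rw [h0] at hcount
      simp only [mul_zero, zero_mul, Nat.le_zero] at hcount
      have := Nat.choose_pos (n := T*k+1) (k := m*k) (by omega)
      omega
    · exact h0
  have hTc : T.choose m ≤ 2^T := Nat.choose_le_two_pow T m
  have hN : 2^(T*k+1) ≤ (T*k+1+1) * (2^(h-m*k) * (2 * s * 2^T * (m*k+w).choose (m*k))) := by
    refine hA.trans ?_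
    apply Nat.mul_le_mul_left
    refine hB.trans ?_
    apply Nat.mul_le_mul_left
    refine hcount.trans ?_
    apply Nat.mul_le_mul_right
    exact Nat.mul_le_mul_left _ hTc
  have hNr : (2:ℝ)^(T*k+1) ≤ ((T*k:ℝ)+2) * (2^(h-m*k) * (2 * s * 2^T * Real.exp (3*(ε/100)*(T*k)))) := by
    have h1 : (2:ℝ)^(T*k+1) ≤ ((T*k:ℝ)+2) * (2^(h-m*k) * (2 * s * 2^T * ((m*k+w).choose (m*k) : ℕ))) := by
      have : (((2^(T*k+1) : ℕ)) : ℝ) ≤ (((T*k+1+1) * (2^(h-m*k) * (2 * s * 2^T * (m*k+w).choose (m*k))) : ℕ) : ℝ) := by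
        exact_mod_cast hN
      push_cast at this
      refine this.trans (le_of_eq ?_)
      ring
    refine h1.trans ?_
    apply mul_le_mul_of_nonneg_left _ (by positivity)
    apply mul_le_mul_of_nonneg_left _ (by positivity)
    apply mul_le_mul_of_nonneg_left hC' (by positivity)
  have hsr : (0:ℝ) < s := by exact_mod_cast hs0
  have hlog := Real.log_le_log (by positivity) hNr
  rw [Real.log_mul (by positivity) (by positivity), Real.log_mul (by positivity) (by positivity),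
    Real.log_mul (by positivity) (by positivity), Real.log_mul (by positivity) (by positivity),
    Real.log_mul (by positivity) (by positivity), Real.log_pow, Real.log_pow, Real.log_pow,
    Real.log_exp] at hlog
  have hhm : ((h - m*k : ℕ) : ℝ) ≤ 1/2 + (ε/8)*(T*k) + k := by
    rw [Nat.cast_sub hmk]
    have h1 : (h:ℝ) ≤ ((T*k+1 : ℕ):ℝ)/2 := Nat.cast_div_le
    push_cast at h1 ⊢
    have h2 : ((1/2-ε/8)*T - 1)*k ≤ (m:ℝ)*k := mul_le_mul_of_nonneg_right hm1 hkpos.le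
    linarith
  have hTe : (T:ℝ) ≤ (ε/8)*(T*k) := by
    have h1 : 1 ≤ (ε/8)*k := by
      rw [div_le_iff₀ hε0] at hk
      linarith
    calc (T:ℝ) = T*1 := by ring
      _ ≤ T*((ε/8)*k) := mul_le_mul_of_nonneg_left h1 (by positivity)
      _ = _ := by ring
  have hnr : (n:ℝ) ≤ T*k + k := by
    have : (n:ℝ) ≤ (((T+1)*k : ℕ) : ℝ) := by exact_mod_cast hn2
    push_cast at this
    linarith
  push_cast at hlog
  have hgoal : (1-ε)*n*Real.log 2 ≤ Real.log s :=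
    num_aux hε0 hε1 hl1 hl2 hTk hkpos hhm hTe hnr hTl hlog
  have hfin : (2:ℝ)^((1-ε)*n) = Real.exp ((1-ε)*n*Real.log 2) := by
    rw [Real.rpow_def_of_pos (by norm_num)]; congr 1; ring
  rw [hfin, ← Real.le_log_iff_exp_le hsr]
  exact hgoal

end Pool.Agent.H561R2.SC
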