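import Mathlib
import Pool.Agent.H561R2.SC.Star

set_option autoImplicit false

namespace Pool.Agent.H561R2.SC

open Finset Filter Topology

lemma pow_aux {η τ : ℝ} (a : ℕ) (hτ0 : 0 < τ) (hτ : τ ≤ 1/10) (hη : η = τ/(8*(a+1))) :
    (1+η)^a ≤ 1+τ := by
  have ha : (0:ℝ) ≤ a := by positivity
  have hη0 : 0 < η := by rw [hη]; positivity
  have haη : a * η ≤ τ/8 := by
    rw [hη]
    have : (a:ℝ) * (τ/(8*(a+1))) = (τ/8) * (a/(a+1)) := by field_simp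
    rw [this]
    have h2 : (a:ℝ)/(a+1) ≤ 1 := by rw [div_le_one (by positivity)]; linarith
    calc (τ/8) * ((a:ℝ)/(a+1)) ≤ (τ/8)*1 := mul_le_mul_of_nonneg_left h2 (by positivity)
      _ = _ := by ring
  have hη1 : η ≤ τ/8 := by
    rw [hη]
    apply div_le_div_of_nonneg_left hτ0.le (by norm_num)
    linarith
  have hb := one_add_mul_le_pow (a := -η) (by linarith) a
  have h1 : 1 - τ/8 ≤ (1-η)^a := by
    have : (1 + -η)^a = (1-η)^a := by ring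
    rw [this] at hb
    linarith
  have h2 : (1+η)^a * (1-η)^a ≤ 1 := by
    rw [← mul_pow]
    apply pow_le_one₀
    · have : 0 ≤ 1 - η := by linarith
      positivity
    · nlinarith
  have h3 : (1+η)^a * (1 - τ/8) ≤ 1 := (mul_le_mul_of_nonneg_left h1 (by positivity)).trans h2
  have h4 : 1 ≤ (1+τ)*(1-τ/8) := by nlinarith
  exact le_of_mul_le_mul_right (h3.trans h4) (by linarith)

theorem exists_par {ε : ℝ} (hε0 : 0 < ε) (hε1 : ε ≤ 1) :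
    ∃ L k0 : ℕ, ∀ k ≥ k0, ∃ p : Par, p.k = k ∧ L + 1 = p.K ∧
      p.ε ≤ (ε/100)^2/4 * (1-p.η)^L ∧ p.θ ≤ (ε/100)^2/64 ∧
      (p.K / p.θ)^p.a * p.q^L + p.K * p.β ≤ (ε/100)^2/16 * (1/2+ε/8)^(L+1) ∧ 8/ε ≤ k := by
  obtain ⟨e2, he2⟩ : ∃ e2 : ℝ, e2 = (ε/100)^2 := ⟨_, rfl⟩
  have he20 : 0 < e2 := by rw [he2]; positivity
  rw [← he2]
  obtain ⟨τ, hτ⟩ : ∃ τ : ℝ, τ = ε/80 := ⟨_, rfl⟩
  have hτ0 : 0 < τ := by rw [hτ]; positivity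
  have hτ1 : τ ≤ 1/10 := by rw [hτ]; linarith
  obtain ⟨a, ha⟩ := exists_pow_lt_of_lt_one hτ0 (show 1 - τ/2 < 1 by linarith)
  obtain ⟨η, hη⟩ : ∃ η : ℝ, η = τ/(8*(a+1)) := ⟨_, rfl⟩
  have ha0 : (0:ℝ) ≤ a := by positivity
  have hη0 : 0 < η := by rw [hη]; positivity
  have hη1 : η ≤ τ/8 := by
    rw [hη]
    apply div_le_div_of_nonneg_left hτ0.le (by norm_num)
    linarith
  have ha1 := pow_aux a hτ0 hτ1 hη
  have ha2 : (1+η-τ)^a ≤ τ :=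
    (pow_le_pow_left₀ (by linarith) (by linarith) a).trans ha.le
  obtain ⟨θ, hθ⟩ : ∃ θ : ℝ, θ = e2/64 := ⟨_, rfl⟩
  have hθ0 : 0 < θ := by rw [hθ]; positivity
  obtain ⟨q, hq⟩ : ∃ q : ℝ, q = 1/2 + 5*τ := ⟨_, rfl⟩
  have hq0 : 0 < q := by rw [hq]; positivity
  obtain ⟨σ, hσ⟩ : ∃ σ : ℝ, σ = 1/2 + ε/8 := ⟨_, rfl⟩
  have hσ0 : 0 < σ := by rw [hσ]; positivity
  rw [← hσ]
  have hρ1 : |q/σ| < 1 := by
    rw [abs_of_pos (by positivity), div_lt_one hσ0, hq, hσ, hτ]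
    linarith
  have hlim := tendsto_pow_const_mul_const_pow_of_abs_lt_one a hρ1
  have hcpos : 0 < e2/32 * (θ^a * q) := by positivity
  have hev := (hlim.eventually (gt_mem_nhds hcpos)).and (eventually_ge_atTop 1)
  obtain ⟨M, hM, hM1⟩ := hev.exists
  obtain ⟨L, rfl⟩ : ∃ L, M = L + 1 := ⟨M - 1, by omega⟩
  have hLpos : (0:ℝ) < ((L+1 : ℕ):ℝ) := by positivity
  have hmain : (((L+1 : ℕ):ℝ)/θ)^a * q^L ≤ e2/32 * σ^(L+1) := by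
    have h1 : ((L+1 : ℕ):ℝ)^a * (q/σ)^(L+1) ≤ e2/32 * (θ^a * q) := hM.le
    rw [div_pow] at h1
    rw [div_pow]
    have h2 : ((L+1 : ℕ):ℝ)^a / θ^a * q^L =
        (((L+1 : ℕ):ℝ)^a * (q^(L+1)/σ^(L+1))) * (σ^(L+1) / (θ^a * q)) := by
      rw [pow_succ q L]
      field_simp
    rw [h2]
    calc (((L+1 : ℕ):ℝ)^a * (q^(L+1)/σ^(L+1))) * (σ^(L+1) / (θ^a * q)) ≤
          (e2/32 * (θ^a * q)) * (σ^(L+1) / (θ^a * q)) := mul_le_mul_of_nonneg_right h1 (by positivity)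
      _ = _ := by field_simp
  obtain ⟨β, hβ⟩ : ∃ β : ℝ, β = e2/32 * σ^(L+1) / ((L+1 : ℕ):ℝ) := ⟨_, rfl⟩
  have hβ0 : 0 < β := by rw [hβ]; positivity
  obtain ⟨e', he'⟩ : ∃ e' : ℝ, e' = e2/4 * (1-η)^L := ⟨_, rfl⟩
  have he'0 : 0 < e' := by
    rw [he']
    have : 0 < 1 - η := by linarith
    positivity
  obtain ⟨C, hC⟩ : ∃ C : ℝ, C = 1/(η^2*e') + ((L+1 : ℕ):ℝ)/(η^2*θ) := ⟨_, rfl⟩
  have hC0 : 0 < C := by rw [hC]; positivity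
  refine ⟨L, max (max 2 ⌈C/β⌉₊) (max ⌈4/τ⌉₊ ⌈8/ε⌉₊), ?_⟩
  intro k hk
  rw [ge_iff_le, max_le_iff, max_le_iff, max_le_iff] at hk
  obtain ⟨⟨hk2, hkC⟩, hkτ, hkε⟩ := hk
  have hkC' : C/β ≤ k := (Nat.ceil_le.1 hkC)
  have hkτ' : 4/τ ≤ k := (Nat.ceil_le.1 hkτ)
  have hkε' : 8/ε ≤ k := (Nat.ceil_le.1 hkε)
  have hk0 : (0:ℝ) < k := by
    have : 0 < k := by omega
    exact_mod_cast this
  have hkτ2 : 8/τ ≤ 2*(k:ℝ) := by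
    have : 8/τ = 2*(4/τ) := by ring
    rw [this]; linarith
  have hββ : 1/(η^2*(k*e')) + ((L+1 : ℕ):ℝ)/(η^2*(k*θ)) ≤ β := by
    have h1 : 1/(η^2*(k*e')) + ((L+1 : ℕ):ℝ)/(η^2*(k*θ)) = C/k := by
      rw [hC]; field_simp
    rw [h1, div_le_iff₀ hk0]
    rw [div_le_iff₀ hβ0] at hkC'
    linarith
  refine ⟨{ k := k, K := L+1, a := a, η := η, τ := τ, θ := θ, ε := e', β := β, hk := hk2, hη := hη0,
            hητ := hη1, hτ0 := hτ0, hτ := hτ1, hθ := hθ0, hε := he'0, ha1 := ha1, ha2 := ha2,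
            hkτ := hkτ2, hβ := hββ }, rfl, rfl, he'.le, hθ.le, ?_, hkε'⟩
  show (((L+1 : ℕ):ℝ)/θ)^a * (1/2+5*τ)^L + ((L+1 : ℕ):ℝ) * β ≤ e2/16 * σ^(L+1)
  rw [← hq]
  have h2 : ((L+1 : ℕ):ℝ) * β = e2/32 * σ^(L+1) := by rw [hβ]; field_simp
  rw [h2]
  linarith

end Pool.Agent.H561R2.SC
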