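import Mathlib
import Pool.Agent.H561R2.SC.Count
import Pool.Agent.H561R2.SC.Num
import Pool.Agent.H561R2.SC.ParEx

set_option autoImplicit false

namespace Pool.Agent.H561R2.SC

open Finset

lemma log_aux {ε x : ℝ} (hε0 : 0 < ε) (hε1 : ε ≤ 1) {k : ℝ}
    (hx : (32/ε)*(4+32/ε+2*k) ≤ x) (hx0 : 0 ≤ x) : Real.log (x+2) + (2*k+3) ≤ ε/16*x := by
  have h1 : Real.log (x+2) = Real.log ((x+2)*(ε/32)) + Real.log (32/ε) := by
    rw [← Real.log_mul (by positivity) (by positivity)]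
    congr 1; field_simp
  have h2 : Real.log ((x+2)*(ε/32)) ≤ (x+2)*(ε/32) - 1 := Real.log_le_sub_one_of_pos (by positivity)
  have h3 : Real.log (32/ε) ≤ 32/ε - 1 := Real.log_le_sub_one_of_pos (by positivity)
  have h4 : (4+32/ε+2*k) ≤ (ε/32)*x := by
    have := mul_le_mul_of_nonneg_left hx (show 0 ≤ ε/32 by positivity)
    have e : (ε/32)*((32/ε)*(4+32/ε+2*k)) = 4+32/ε+2*k := by field_simp
    rw [e] at this
    exact this
  rw [h1]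
  have h5 : (x+2)*(ε/32) = (ε/32)*x + ε/16 := by ring
  linarith

theorem ctx_bound {ε : ℝ} (hε0 : 0 < ε) (hε1 : ε ≤ 1) :
    ∃ k0 : ℕ, ∀ k ≥ k0, ∃ T0 : ℕ, ∀ T ≥ T0, ∀ n : ℕ, n ≤ (T+1)*k →
      ∀ (U X : Type) [DecidableEq U] [DecidableEq X] (c : Ctx U X), c.k = k → c.T = T →
        c.m = ⌊(1/2-ε/8)*(T:ℝ)⌋₊ → (2:ℝ)^((1-ε)*n) ≤ c.s := by
  obtain ⟨L, k0, hpar⟩ := exists_par hε0 hε1
  refine ⟨k0, ?_⟩
  intro k hk
  obtain ⟨p, hpk, hpL, hpε, hpθ, hpnum, hkε⟩ := hpar k hk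
  obtain ⟨T1, hT1⟩ := exists_nat_ge ((32/ε)*(4+32/ε+2*(k:ℝ)))
  obtain ⟨T2, hT2⟩ := exists_nat_ge (((L:ℝ)+1)^2 * (16/(ε/100)^2))
  refine ⟨max 24 (max T1 T2), ?_⟩
  intro T hT n hn U X _ _ c hck hcT hcm
  rw [ge_iff_le, max_le_iff, max_le_iff] at hT
  obtain ⟨hT24, hTT1, hTT2⟩ := hT
  have hkpos : (0:ℝ) < k := lt_of_lt_of_le (by positivity) hkε
  have hk1 : (1:ℝ) ≤ k := by
    have h0 : 0 < k := by exact_mod_cast hkpos
    exact_mod_cast h0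
  have hTpos : (0:ℝ) ≤ T := by positivity
  have hTr1 : (32/ε)*(4+32/ε+2*(k:ℝ)) ≤ T := hT1.trans (by exact_mod_cast hTT1)
  have hTr2 : ((L:ℝ)+1)^2 * (16/(ε/100)^2) ≤ T := hT2.trans (by exact_mod_cast hTT2)
  have hhalf0 : 0 ≤ (1/2-ε/8)*(T:ℝ) := by
    have : 0 ≤ 1/2-ε/8 := by linarith
    positivity
  have hm2 : (c.m:ℝ) ≤ (1/2-ε/8)*T := by rw [hcm]; exact Nat.floor_le hhalf0
  have hm1 : (1/2-ε/8)*T - 1 ≤ (c.m:ℝ) := by
    rw [hcm]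
    have := Nat.lt_floor_add_one ((1/2-ε/8)*(T:ℝ))
    linarith
  have hTm : (1/2+ε/8)*(T:ℝ) ≤ T - c.m := by linarith
  have hTm2 : (T:ℝ)/2 ≤ T - c.m := by
    have : 0 ≤ ε/8*T := by positivity
    linarith
  have he20 : 0 < (ε/100)^2 := by positivity
  have he21 : (ε/100)^2 ≤ 1/2 := by nlinarith
  have h2m : 2 * c.m ≤ c.T := by
    rw [hcT]
    have : 2 * (c.m:ℝ) ≤ T := by linarith
    exact_mod_cast this
  have hgood := c.good_half p (hpk.trans hck.symm) hpL (ε2 := (ε/100)^2) hpε he20 h2m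
    (by
      rw [hcT]
      have h1 : (ε/100)^2/8 * ((T:ℝ)/2) ≤ (ε/100)^2/8 * ((T:ℝ) - c.m) :=
        mul_le_mul_of_nonneg_left hTm2 (by positivity)
      refine le_trans ?_ h1
      have h2 := mul_le_mul_of_nonneg_left hTr2 (show 0 ≤ (ε/100)^2/16 by positivity)
      have h3 : (ε/100)^2/16 * (((L:ℝ)+1)^2 * (16/(ε/100)^2)) = ((L:ℝ)+1)^2 := by field_simp
      rw [h3] at h2
      linarith) hpθ
    (by
      rw [hcT]
      have h1 : (T:ℝ)^(L+1) * ((p.K / p.θ)^p.a * p.q^L + p.K * p.β) ≤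
          (T:ℝ)^(L+1) * ((ε/100)^2/16 * (1/2+ε/8)^(L+1)) := mul_le_mul_of_nonneg_left hpnum (by positivity)
      refine h1.trans ?_
      have h2 : (T:ℝ)^(L+1) * ((ε/100)^2/16 * (1/2+ε/8)^(L+1)) =
          (ε/100)^2/16 * ((1/2+ε/8)*(T:ℝ))^(L+1) := by rw [mul_pow]; ring
      rw [h2]
      apply mul_le_mul_of_nonneg_left _ (by positivity)
      apply pow_le_pow_left₀ (by positivity) hTm)
  have hcount := c.main_count (ε2 := (ε/100)^2) he20.le (by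
    rw [hcT]
    have h1 : (ε/100)^2 * (T:ℝ) ≤ 1/2 * T := mul_le_mul_of_nonneg_right he21 hTpos
    linarith) hgood
  rw [hcT, hck] at hcount
  refine numeric hε0 hε1 hkε hn hm1 hm2 hT24 ?_ hcount
  apply log_aux hε0 hε1
  · refine hTr1.trans ?_
    calc (T:ℝ) = T * 1 := by ring
      _ ≤ T * k := mul_le_mul_of_nonneg_left hk1 hTpos
  · positivity

end Pool.Agent.H561R2.SC
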