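import Mathlib
import Pool.Agent.H561R2.SC.Final

set_option autoImplicit false

namespace Pool.Agent.H561R2.SC

open Finset

section

variable (n k : ℕ)

/-- number of blocks -/
def Tn : ℕ := (n-1)/k

/-- the part of the universe that is almost covered by blocks -/
def Vn : Finset (Fin n) := univ.filter (fun i => i.val < Tn n k * k + 1)

/-- the rest -/
def Wn : Finset (Fin n) := univ \ Vn n k

/-- the rest as a family -/
def EF : Finset (Finset (Fin n)) := ({Wn n k} : Finset (Finset (Fin n))).filter (fun W => W.Nonempty)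

/-- the family -/
def Fn : Finset (Finset (Fin n)) := (Vn n k).powersetCard k ∪ EF n k

variable {n k}

lemma Tn_le (hn : 1 ≤ n) : Tn n k * k + 1 ≤ n := by
  have := Nat.div_mul_le_self (n-1) k
  unfold Tn; omega

lemma n_le (hk : 1 ≤ k) : n ≤ (Tn n k + 1) * k := by
  have h1 := Nat.lt_div_mul_add (a := n-1) (b := k) (by omega)
  have h2 : (Tn n k + 1) * k = (n-1)/k*k + k := by unfold Tn; ring
  omega

lemma card_Vn (hn : 1 ≤ n) : (Vn n k).card = Tn n k * k + 1 := by
  unfold Vn
  rw [Fin.card_filter_val_lt]
  exact min_eq_right (Tn_le hn)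

lemma card_Wn (hn : 1 ≤ n) (hk : 1 ≤ k) : (Wn n k).card ≤ k := by
  unfold Wn
  rw [Finset.card_sdiff_of_subset (Finset.subset_univ _), card_Vn hn, Finset.card_univ, Fintype.card_fin]
  have h1 := n_le (n := n) hk
  have h2 : (Tn n k + 1) * k = Tn n k * k + k := by ring
  omega

lemma mem_EF {A : Finset (Fin n)} : A ∈ EF n k ↔ A = Wn n k ∧ A.Nonempty := by
  unfold EF; rw [Finset.mem_filter, Finset.mem_singleton]

lemma card_EF : (EF n k).card ≤ 1 := by
  unfold EF
  exact (Finset.card_filter_le _ _).trans (by simp)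

lemma EF_eq (h : (Wn n k).Nonempty) : EF n k = {Wn n k} := by
  ext A; rw [mem_EF, Finset.mem_singleton]
  constructor
  · exact fun h => h.1
  · rintro rfl; exact ⟨rfl, h⟩

lemma Fn_card_le (hn : 1 ≤ n) (hk : 1 ≤ k) : ∀ A ∈ Fn n k, A.card ≤ k := by
  intro A hA
  unfold Fn at hA
  rw [Finset.mem_union, Finset.mem_powersetCard, mem_EF] at hA
  rcases hA with h | ⟨rfl, _⟩
  · exact h.2.le
  · exact card_Wn hn hk

lemma no_cover (hn : 1 ≤ n) : ∀ S ⊆ Fn n k, S.card ≤ Tn n k + (EF n k).card →
    S.biUnion id ≠ univ := by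
  intro S hS hc hcov
  -- the blocks of S
  have hV : Vn n k ⊆ (S.filter (fun A => A ∉ EF n k)).biUnion id := by
    intro u hu
    have hu' : u ∈ S.biUnion id := by rw [hcov]; exact Finset.mem_univ _
    rw [Finset.mem_biUnion] at hu' ⊢
    obtain ⟨A, hA, huA⟩ := hu'
    refine ⟨A, Finset.mem_filter.2 ⟨hA, ?_⟩, huA⟩
    intro hE
    rw [mem_EF] at hE
    rw [hE.1] at huA
    unfold Wn at huA
    exact (Finset.mem_sdiff.1 huA).2 hu
  have h1 : ((S.filter (fun A => A ∉ EF n k)).biUnion id).card ≤
      (S.filter (fun A => A ∉ EF n k)).card * k := by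
    apply Finset.card_biUnion_le_card_mul
    intro A hA
    rw [Finset.mem_filter] at hA
    have := hS hA.1
    unfold Fn at this
    rw [Finset.mem_union, Finset.mem_powersetCard] at this
    rcases this with h | h
    · exact h.2.le
    · exact absurd h hA.2
  have h2 := (Finset.card_le_card hV).trans h1
  rw [card_Vn hn] at h2
  have h3 : (S.filter (fun A => A ∉ EF n k)).card ≤ Tn n k := by
    by_cases hW : (Wn n k).Nonempty
    · have hWS : Wn n k ∈ S := by
        obtain ⟨u, hu⟩ := hW
        have hu' : u ∈ S.biUnion id := by rw [hcov]; exact Finset.mem_univ _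
        rw [Finset.mem_biUnion] at hu'
        obtain ⟨A, hA, huA⟩ := hu'
        have := hS hA
        unfold Fn at this
        rw [Finset.mem_union, Finset.mem_powersetCard, mem_EF] at this
        rcases this with h | h
        · exfalso
          have h5 := h.1 huA
          unfold Wn at hu
          exact (Finset.mem_sdiff.1 hu).2 h5
        · rw [h.1] at hA; exact hA
      have h4 : S.filter (fun A => A ∉ EF n k) ⊆ S.erase (Wn n k) := by
        intro A hA
        rw [Finset.mem_filter, EF_eq hW, Finset.mem_singleton] at hA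
        exact Finset.mem_erase.2 ⟨hA.2, hA.1⟩
      have h5 := Finset.card_le_card h4
      rw [Finset.card_erase_of_mem hWS] at h5
      rw [EF_eq hW, Finset.card_singleton] at hc
      omega
    · have hE : EF n k = ∅ := by
        apply Finset.eq_empty_of_forall_notMem
        intro A hA
        rw [mem_EF] at hA
        rw [hA.1] at hA
        exact hW hA.2
      rw [hE, Finset.card_empty] at hc
      exact (Finset.card_filter_le _ _).trans hc
  have h4 := Nat.mul_le_mul_right k h3
  omega

end

section

variable {n k : ℕ} {X : Type} [DecidableEq X]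

/-- the context of a refutation -/
def mkCtx (hn : 1 ≤ n) (hk : 1 ≤ k) (m : ℕ) (hm : m ≤ Tn n k)
    (ν : Fin (Tn n k + (EF n k).card) → Finset (Fin n) → X)
    (hν : ∀ i j, ∀ A ∈ Fn n k, ∀ B ∈ Fn n k, ν i A = ν j B → A = B)
    (Φ : Set (Finset (X × Bool))) (hΦ : Admissible (Fn n k) ν Φ) (s : ℕ) (D : Deriv X s Φ)
    (hD : D.Regular) (r : Fin s) (hr : D.line r = ∅) : Ctx (Fin n) X where
  k := k
  T := Tn n k
  m := m
  V := Vn n k
  ν := fun b f => ν (Fin.castAdd (EF n k).card b) f
  E0 := univ.image (fun e : Fin (EF n k).card => ν (Fin.natAdd (Tn n k) e) (Wn n k))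
  s := s
  Φ := Φ
  D := D
  r := r
  hk := hk
  hmT := hm
  hV := card_Vn hn
  hν := by
    intro b b' f f' hf hf' h
    exact hν _ _ f (Finset.mem_union_left _ hf) f' (Finset.mem_union_left _ hf') h
  hE0 := by
    intro b f hf h
    rw [Finset.mem_image] at h
    obtain ⟨e, _, he⟩ := h
    have hpos : 0 < (EF n k).card := by have := e.isLt; omega
    obtain ⟨W, hW⟩ := Finset.card_pos.1 hpos
    have hW' := hW
    rw [mem_EF] at hW'
    have hWF : Wn n k ∈ Fn n k := by rw [← hW'.1]; exact Finset.mem_union_right _ hW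
    have h1 := hν _ _ _ hWF f (Finset.mem_union_left _ hf) he
    have hne : (Wn n k).Nonempty := by rw [← hW'.1]; exact hW'.2
    obtain ⟨u, hu⟩ := hne
    have hu2 : u ∈ f := by rw [← h1]; exact hu
    have hu3 := (Finset.mem_powersetCard.1 hf).1 hu2
    unfold Wn at hu
    exact (Finset.mem_sdiff.1 hu).2 hu3
  hreg := hD
  hr := hr
  hΦ := by
    intro C hC
    rcases hΦ C hC with ⟨u, rfl⟩ | h
    · left
      refine ⟨u, ?_, ?_⟩
      · intro b f hf huf
        unfold coverClause
        rw [Finset.mem_image]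
        exact ⟨(Fin.castAdd _ b, f), Finset.mem_product.2 ⟨Finset.mem_univ _,
          Finset.mem_filter.2 ⟨Finset.mem_union_left _ hf, huf⟩⟩, rfl⟩
      · intro hu
        have huW : u ∈ Wn n k := by
          unfold Wn
          exact Finset.mem_sdiff.2 ⟨Finset.mem_univ _, hu⟩
        have hne : (Wn n k).Nonempty := ⟨u, huW⟩
        have hE := EF_eq hne
        have hc : 0 < (EF n k).card := by rw [hE]; simp
        refine ⟨ν (Fin.natAdd (Tn n k) ⟨0, hc⟩) (Wn n k), ?_, ?_⟩
        · rw [Finset.mem_image]
          exact ⟨⟨0, hc⟩, Finset.mem_univ _, rfl⟩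
        · unfold coverClause
          rw [Finset.mem_image]
          refine ⟨(Fin.natAdd (Tn n k) ⟨0, hc⟩, Wn n k), Finset.mem_product.2 ⟨Finset.mem_univ _,
            Finset.mem_filter.2 ⟨Finset.mem_union_right _ (mem_EF.2 ⟨rfl, hne⟩), huW⟩⟩, rfl⟩
    · right
      intro A hA
      have hWE : ∀ e : Fin (EF n k).card, Wn n k ∈ EF n k := by
        intro e
        have hpos : 0 < (EF n k).card := by have := e.isLt; omega
        obtain ⟨W, hW⟩ := Finset.card_pos.1 hpos
        have hW' := hW
        rw [mem_EF] at hW'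
        rw [hW'.1] at hW
        exact hW
      have hAW : ∀ b : Fin (Tn n k), Disjoint (A b) (Wn n k) := by
        intro b
        rw [Finset.disjoint_left]
        intro u hu huW
        unfold Wn at huW
        exact (Finset.mem_sdiff.1 huW).2 (((mem_SS.1 hA).1 b).1 hu)
      have hS := h (Fin.append A (fun _ => Wn n k)) (by
        intro i
        refine Fin.addCases ?_ ?_ i
        · intro b
          rw [Fin.append_left]
          exact Finset.mem_union_left _ (Finset.mem_powersetCard.2 ((mem_SS.1 hA).1 b))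
        · intro e
          rw [Fin.append_right]
          exact Finset.mem_union_right _ (hWE e)) (by
        intro i j
        refine Fin.addCases ?_ ?_ i
        · intro b
          refine Fin.addCases ?_ ?_ j
          · intro b' hne
            rw [Fin.append_left, Fin.append_left]
            apply (mem_SS.1 hA).2
            intro h
            exact hne (by rw [h])
          · intro e _
            rw [Fin.append_left, Fin.append_right]
            exact hAW b
        · intro e
          refine Fin.addCases ?_ ?_ j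
          · intro b _
            rw [Fin.append_left, Fin.append_right]
            exact (hAW b).symm
          · intro e' hne
            exfalso
            apply hne
            congr 1
            have h1 := card_EF (n := n) (k := k)
            have h2 := e.isLt
            have h3 := e'.isLt
            ext
            omega)
      have hG : chosen ν (Fin.append A (fun _ => Wn n k)) =
          univ.image (fun e : Fin (EF n k).card => ν (Fin.natAdd (Tn n k) e) (Wn n k)) ∪
          univ.image (fun b => ν (Fin.castAdd (EF n k).card b) (A b)) := by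
        unfold chosen
        ext x
        rw [Finset.mem_union, Finset.mem_image, Finset.mem_image, Finset.mem_image]
        constructor
        · rintro ⟨i, _, rfl⟩
          refine Fin.addCases ?_ ?_ i
          · intro b
            right
            exact ⟨b, Finset.mem_univ _, by rw [Fin.append_left]⟩
          · intro e
            left
            exact ⟨e, Finset.mem_univ _, by rw [Fin.append_right]⟩
        · rintro (⟨e, _, rfl⟩ | ⟨b, _, rfl⟩)
          · exact ⟨Fin.natAdd (Tn n k) e, Finset.mem_univ _, by rw [Fin.append_right]⟩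
          · exact ⟨Fin.castAdd _ b, Finset.mem_univ _, by rw [Fin.append_left]⟩
      rw [hG] at hS
      obtain ⟨l, hl, hsat⟩ := hS
      refine ⟨l, hl, ?_⟩
      unfold Fals
      rw [not_not]
      exact hsat

end

theorem main {ε : ℝ} (hε : 0 < ε) : ∃ k0 : ℕ, ∀ k ≥ k0, ∃ N : ℕ, ∀ n ≥ N,
    ∃ (F : Finset (Finset (Fin n))) (t : ℕ), (∀ A ∈ F, A.card ≤ k) ∧
      (∀ S ⊆ F, S.card ≤ t → S.biUnion id ≠ univ) ∧
      ∀ (X : Type) [DecidableEq X] (ν : Fin t → Finset (Fin n) → X),
        (∀ i j, ∀ A ∈ F, ∀ B ∈ F, ν i A = ν j B → A = B) →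
        ∀ Φ : Set (Finset (X × Bool)), Admissible F ν Φ →
          ∀ (s : ℕ) (D : Deriv X s Φ), D.Regular → (∃ i, D.line i = ∅) →
            (2:ℝ)^((1-ε)*n) ≤ s := by
  obtain ⟨e, he⟩ : ∃ e : ℝ, e = min ε 1 := ⟨_, rfl⟩
  have he0 : 0 < e := by rw [he]; exact lt_min hε one_pos
  have he1 : e ≤ 1 := by rw [he]; exact min_le_right _ _
  have heε : e ≤ ε := by rw [he]; exact min_le_left _ _
  obtain ⟨k0, hk0⟩ := ctx_bound he0 he1
  refine ⟨max k0 1, ?_⟩
  intro k hk
  rw [ge_iff_le, max_le_iff] at hk
  obtain ⟨T0, hT0⟩ := hk0 k hk.1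
  refine ⟨(T0+1)*k + 1, ?_⟩
  intro n hn
  have hn1 : 1 ≤ n := by omega
  have hTT : T0 ≤ Tn n k := by
    unfold Tn
    rw [Nat.le_div_iff_mul_le (by omega)]
    have : (T0+1)*k = T0*k + k := by ring
    omega
  refine ⟨Fn n k, Tn n k + (EF n k).card, Fn_card_le hn1 hk.2, no_cover hn1, ?_⟩
  intro X _ ν hν Φ hΦ s D hD ⟨r, hr⟩
  have hmT : ⌊(1/2-e/8)*(Tn n k:ℝ)⌋₊ ≤ Tn n k := by
    apply Nat.floor_le_of_le
    have h1 : (0:ℝ) ≤ Tn n k := by positivity
    nlinarith
  have h := hT0 (Tn n k) hTT n (n_le hk.2) (Fin n) X (mkCtx hn1 hk.2 _ hmT ν hν Φ hΦ s D hD r hr) rfl rfl rfl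
  refine le_trans ?_ h
  apply Real.rpow_le_rpow_of_exponent_le (by norm_num)
  apply mul_le_mul_of_nonneg_right _ (by positivity)
  linarith

end Pool.Agent.H561R2.SC
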